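import Pool.Agent.Lib.HS.Bd.C.Spec
import Pool.Agent.Lib.HS.Bd.FFrm

/-!
PROJECT H* (MP_a54f13_nt), high bands, PAIR COUNT, module Bas (helper29).
-/

set_option autoImplicit false

namespace HSB

open HSL HSL.Flp Matrix

namespace BasM

lemma toR_add (u v : MZ) : toR (u + v) = toR u + toR v := by
  ext i j
  simp [toR]

lemma toR_sub (u v : MZ) : toR (u - v) = toR u - toR v := by
  ext i j
  simp [toR]

lemma toR_smul (t : ℤ) (u : MZ) : toR (t • u) = (t : ℝ) • toR u := by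
  ext i j
  have h : (t • u) i j = t * u i j := rfl
  have h2 : toR (t • u) i j = (((t • u) i j : ℤ) : ℝ) := rfl
  rw [h2, h, Int.cast_mul]
  rfl

lemma fr_add (a b : MR) (u v : MZ) : fr a b (u + v) = fr a b u + fr a b v := by
  simp only [fr, toR_add, Matrix.mul_add, Matrix.add_mul]

lemma fr_sub (a b : MR) (u v : MZ) : fr a b (u - v) = fr a b u - fr a b v := by
  simp only [fr, toR_sub, Matrix.mul_sub, Matrix.sub_mul]

lemma fr_smul (a b : MR) (t : ℤ) (u : MZ) : fr a b (t • u) = (t : ℝ) • fr a b u := by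
  simp only [fr, toR_smul, Matrix.mul_smul, Matrix.smul_mul]

lemma gau_iff (w T : ℝ) (a b : MR) (u : MZ) (hw : 0 < w) : u ∈ Bx w T a b ↔ gau w a b u ≤ T := by
  rw [gau, max_le_iff, max_le_iff, max_le_iff, div_le_iff₀ hw, div_le_iff₀ hw, mul_comm T w]
  constructor
  · rintro ⟨h1, h2, h3, h4⟩
    exact ⟨⟨h1, h2⟩, h3, h4⟩
  · rintro ⟨⟨h1, h2⟩, h3, h4⟩
    exact ⟨h1, h2, h3, h4⟩

lemma box_add (w T T' : ℝ) (a b : MR) (u v : MZ) (hu : u ∈ Bx w T a b) (hv : v ∈ Bx w T' a b) :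
    u + v ∈ Bx w (T + T') a b ∧ u - v ∈ Bx w (T + T') a b := by
  obtain ⟨u1, u2, u3, u4⟩ := hu
  obtain ⟨v1, v2, v3, v4⟩ := hv
  have key : ∀ {x y X Y : ℝ}, |x| ≤ X → |y| ≤ Y → |x + y| ≤ X + Y ∧ |x - y| ≤ X + Y := by
    intro x y X Y hx hy
    exact ⟨(abs_add_le x y).trans (add_le_add hx hy), (abs_sub x y).trans (add_le_add hx hy)⟩
  have e : w * (T + T') = w * T + w * T' := by ring
  constructor
  · refine ⟨?_, ?_, ?_, ?_⟩
    · rw [fr_add]; exact (key u1 v1).1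
    · rw [fr_add]; exact (key u2 v2).1
    · rw [fr_add, e]; exact (key u3 v3).1
    · rw [fr_add, e]; exact (key u4 v4).1
  · refine ⟨?_, ?_, ?_, ?_⟩
    · rw [fr_sub]; exact (key u1 v1).2
    · rw [fr_sub]; exact (key u2 v2).2
    · rw [fr_sub, e]; exact (key u3 v3).2
    · rw [fr_sub, e]; exact (key u4 v4).2

lemma gau_smul (w : ℝ) (a b : MR) (t : ℤ) (u : MZ) : gau w a b (t • u) = |(t : ℝ)| * gau w a b u := by
  have h : ∀ i j, |fr a b (t • u) i j| = |(t : ℝ)| * |fr a b u i j| := by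
    intro i j
    rw [fr_smul, Matrix.smul_apply, smul_eq_mul, abs_mul]
  simp only [gau, h, mul_div_assoc]
  rw [← mul_max_of_nonneg _ _ (abs_nonneg _), ← mul_max_of_nonneg _ _ (abs_nonneg _),
    ← mul_max_of_nonneg _ _ (abs_nonneg _)]

lemma entry_le (R w T : ℝ) (a b : MR) (u : MZ) (_hw : 0 < w) (hw1 : w ≤ 1) (ha : Um R a) (hb : Um R b)
    (hu : u ∈ Bx w T a b) : ∀ i j, |((u i j : ℤ) : ℝ)| ≤ 4 * R ^ 2 * T := by
  obtain ⟨h00, h11, h01, h10⟩ := hu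
  have hT : 0 ≤ T := le_trans (abs_nonneg _) h00
  have hwl : w * T ≤ T := by nlinarith
  have hA : ∀ i j, |fr a b u i j| ≤ T := by
    intro i j
    fin_cases i <;> fin_cases j
    · exact h00
    · exact le_trans h01 hwl
    · exact le_trans h10 hwl
    · exact h11
  have h1 := FFrmAux.mul_bd _ _ _ _ (FFrmAux.mul_bd _ _ _ _ hb.2 hA) (FFrmAux.adj_bd a R ha.2)
  rw [← FFrmAux.p8 a b u ha.1 hb.1] at h1
  intro i j
  have h2 : |((u i j : ℤ) : ℝ)| ≤ 2 * (2 * R * T) * R := h1 i j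
  have e : 2 * (2 * R * T) * R = 4 * R ^ 2 * T := by ring
  rw [← e]
  exact h2

lemma one_le (R w T : ℝ) (a b : MR) (u : MZ) (hw : 0 < w) (hw1 : w ≤ 1) (ha : Um R a) (hb : Um R b)
    (hne : u ≠ 0) (hu : u ∈ Bx w T a b) : 1 ≤ 4 * R ^ 2 * T := by
  by_contra h
  push Not at h
  apply hne
  ext i j
  have h3 : |((u i j : ℤ) : ℝ)| < 1 := lt_of_le_of_lt (entry_le R w T a b u hw hw1 ha hb hu i j) h
  have h4 : |u i j| < 1 := by exact_mod_cast h3
  simpa using Int.abs_lt_one_iff.mp h4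

lemma plR_left (P X N : MR) : plR (P * X) (P * N) = P.det * plR X N := by
  simp only [plR, Matrix.mul_apply, Fin.sum_univ_two, Matrix.det_fin_two]
  ring

lemma plR_right (P X N : MR) : plR (X * P) (N * P) = P.det * plR X N := by
  simp only [plR, Matrix.mul_apply, Fin.sum_univ_two, Matrix.det_fin_two]
  ring

lemma pl_fr (a b : MR) (u v : MZ) (ha : a.det = 1) (hb : b.det = 1) :
    ((pl u v : ℤ) : ℝ) = plR (fr a b u) (fr a b v) := by
  have hb' : (b.adjugate).det = 1 := by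
    rw [Matrix.det_adjugate, hb, one_pow]
  rw [fr, fr, plR_right, plR_left, ha, hb', one_mul, one_mul]
  simp only [pl, plR, toR, Matrix.map_apply]
  push_cast
  ring

lemma prod_le {x y X Y : ℝ} (hx : |x| ≤ X) (hy : |y| ≤ Y) : |x * y| ≤ X * Y := by
  rw [abs_mul]
  exact mul_le_mul hx hy (abs_nonneg _) ((abs_nonneg _).trans hx)

lemma plR_le {w T T' : ℝ} {A B : MR} (hw : 0 < w) (hw1 : w ≤ 1) (hT : 0 ≤ T) (hT' : 0 ≤ T')
    (a1 : |A 0 0| ≤ T) (a2 : |A 1 1| ≤ T) (a3 : |A 0 1| ≤ w * T) (a4 : |A 1 0| ≤ w * T)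
    (b1 : |B 0 0| ≤ T') (b2 : |B 1 1| ≤ T') (b3 : |B 0 1| ≤ w * T') (b4 : |B 1 0| ≤ w * T') :
    |plR A B| ≤ 4 * T * T' := by
  have h1 := prod_le a1 b2
  have h2 := prod_le a2 b1
  have h3 := prod_le a3 b4
  have h4 := prod_le a4 b3
  have h5 : w * T * (w * T') ≤ T * T' := by
    have : w * w ≤ 1 := by nlinarith
    have h6 : 0 ≤ T * T' := mul_nonneg hT hT'
    calc w * T * (w * T') = (w * w) * (T * T') := by ring
      _ ≤ 1 * (T * T') := mul_le_mul_of_nonneg_right this h6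
      _ = T * T' := one_mul _
  rw [abs_le] at h1 h2 h3 h4 ⊢
  simp only [plR]
  constructor <;> linarith [h1.1, h1.2, h2.1, h2.2, h3.1, h3.2, h4.1, h4.2]

lemma toR_nm (u v t : MZ) : toR (nm u v t) = nm (toR u) (toR v) (toR t) := by
  ext i j
  fin_cases i <;> fin_cases j <;> simp [nm, dt3, toR]

lemma nm_left (g u v t : MR) : nm (g * u) (g * v) (g * t) = g.det • (g * nm u v t) := by
  ext i j
  fin_cases i <;> fin_cases j <;> simp [nm, dt3, Matrix.mul_apply, Fin.sum_univ_two,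
    Matrix.det_fin_two] <;> ring

lemma nm_right (g u v t : MR) : nm (u * g) (v * g) (t * g) = g.det • (nm u v t * g) := by
  ext i j
  fin_cases i <;> fin_cases j <;> simp [nm, dt3, Matrix.mul_apply, Fin.sum_univ_two,
    Matrix.det_fin_two, Matrix.vecMul, dotProduct] <;> ring

lemma fr_nm (a b : MR) (u v t : MZ) (ha : a.det = 1) (hb : b.det = 1) :
    fr a b (nm u v t) = nm (fr a b u) (fr a b v) (fr a b t) := by
  have hb' : (b.adjugate).det = 1 := by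
    rw [Matrix.det_adjugate, hb, one_pow]
  simp only [fr]
  rw [nm_right, nm_left, ha, hb', one_smul, one_smul, toR_nm]

lemma dt3_le {P Q R a1 a2 a3 b1 b2 b3 c1 c2 c3 : ℝ} (ha1 : |a1| ≤ P) (ha2 : |a2| ≤ Q) (ha3 : |a3| ≤ R)
    (hb1 : |b1| ≤ P) (hb2 : |b2| ≤ Q) (hb3 : |b3| ≤ R) (hc1 : |c1| ≤ P) (hc2 : |c2| ≤ Q)
    (hc3 : |c3| ≤ R) : |dt3 a1 a2 a3 b1 b2 b3 c1 c2 c3| ≤ 6 * (P * Q * R) := by
  have h1 := prod_le (prod_le ha1 hb2) hc3
  have h2 := prod_le (prod_le ha1 hc2) hb3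
  have h3 := prod_le (prod_le hb1 ha2) hc3
  have h4 := prod_le (prod_le hc1 ha2) hb3
  have h5 := prod_le (prod_le hb1 hc2) ha3
  have h6 := prod_le (prod_le hc1 hb2) ha3
  rw [abs_le] at h1 h2 h3 h4 h5 h6 ⊢
  simp only [dt3]
  constructor <;> linarith [h1.1, h1.2, h2.1, h2.2, h3.1, h3.2, h4.1, h4.2, h5.1, h5.2, h6.1, h6.2]

end BasM

open BasM in
theorem tBas (_hF : HSL.Flp.S_Frm) : S_Bas := by
  refine ⟨fun a b u v => ⟨fr_add a b u v, fr_sub a b u v⟩, fr_smul, gau_iff, box_add,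
    fun w a b t u _ => gau_smul w a b t u, entry_le, one_le, pl_fr, ?_, ?_, ?_⟩
  · intro w T T' a b u v hw hw1 ha hb hT hT' hu hv
    have key : ∀ (T T' : ℝ) (u v : MZ), 0 ≤ T → 0 ≤ T' → u ∈ Bx w T a b → v ∈ Bx w T' a b →
        |((pl u v : ℤ) : ℝ)| ≤ 4 * T * T' := by
      intro T T' u v hT hT' hu hv
      rw [pl_fr a b u v ha hb]
      exact plR_le hw hw1 hT hT' hu.1 hu.2.1 hu.2.2.1 hu.2.2.2 hv.1 hv.2.1 hv.2.2.1 hv.2.2.2
    refine ⟨key T T' u v hT hT' hu hv, ?_⟩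
    have h := key T T u u hT hT hu hu
    rw [pl_self, Int.cast_mul, abs_mul, Int.cast_ofNat, abs_two] at h
    have e : 2 * (2 * T ^ 2) = 4 * T * T := by ring
    linarith
  · intro w T a b u v t hw hT ha hb hu hv ht
    rw [fr_nm a b u v t ha hb]
    obtain ⟨u1, u2, u3, u4⟩ := hu
    obtain ⟨v1, v2, v3, v4⟩ := hv
    obtain ⟨t1, t2, t3, t4⟩ := ht
    refine ⟨?_, ?_, ?_, ?_⟩
    · have h := dt3_le u1 u3 u4 v1 v3 v4 t1 t3 t4
      have e : 6 * (T * (w * T) * (w * T)) = 6 * w ^ 2 * T ^ 3 := by ring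
      rw [e] at h
      exact h
    · have h := dt3_le u3 u4 u2 v3 v4 v2 t3 t4 t2
      have e : 6 * (w * T * (w * T) * T) = 6 * w ^ 2 * T ^ 3 := by ring
      rw [e, ← abs_neg] at h
      exact h
    · have h := dt3_le u1 u3 u2 v1 v3 v2 t1 t3 t2
      have e : 6 * (T * (w * T) * T) = 6 * w * T ^ 3 := by ring
      rw [e] at h
      exact h
    · have h := dt3_le u1 u4 u2 v1 v4 v2 t1 t4 t2
      have e : 6 * (T * (w * T) * T) = 6 * w * T ^ 3 := by ring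
      rw [e, ← abs_neg] at h
      exact h
  · intro R w T a b hw hw1 ha hb
    refine (Set.finite_Icc (α := Fin 2 → Fin 2 → ℤ) (fun _ _ => -⌈4 * R ^ 2 * T⌉)
      (fun _ _ => ⌈4 * R ^ 2 * T⌉)).subset ?_
    intro u hu
    have h : ∀ i j, |u i j| ≤ ⌈4 * R ^ 2 * T⌉ := by
      intro i j
      have h1 := (entry_le R w T a b u hw hw1 ha hb hu i j).trans (Int.le_ceil _)
      exact_mod_cast h1
    exact ⟨fun i j => (abs_le.1 (h i j)).1, fun i j => (abs_le.1 (h i j)).2⟩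

end HSB
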