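import Pool.Agent.Lib.HS.Bd.C.Spec
import Pool.Agent.Lib.HS.Bd.Dsz

/-!
PROJECT H* (MP_a54f13_nt), high bands, PAIR COUNT, module Cnt: points against lines (helper43).
-/

set_option autoImplicit false

namespace HSB

open HSL HSL.Flp Matrix

namespace CntM

/-- the discriminant of `det (p + t e)` is constant on the line -/
theorem disc_line (h p e : MZ) (t : ℤ) (ht : h - p = t • e) :
    pl h e ^ 2 - 4 * e.det * h.det = pl p e ^ 2 - 4 * e.det * p.det := by
  have h1 : h = p + t • e := by rw [← ht]; abel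
  rw [h1, Matrix.det_fin_two, Matrix.det_fin_two, Matrix.det_fin_two]
  simp only [pl, Matrix.add_apply, Matrix.smul_apply, smul_eq_mul]
  ring

theorem gle_of_box {w T : ℝ} {a b : MR} {u : MZ} (h : u ∈ Bx w T a b) : HSBd.Gle w T (fr a b u) := h

theorem gge_of_gau {w lam : ℝ} (hw : 0 < w) {a b : MR} {e : MZ} (h : gau w a b e = lam) :
    HSBd.Gge w lam (fr a b e) := by
  unfold HSBd.Gge
  unfold gau at h
  rcases max_choice (max |fr a b e 0 0| |fr a b e 1 1|) (max (|fr a b e 0 1| / w) (|fr a b e 1 0| / w))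
    with h1 | h1
  · rw [h1] at h
    rcases max_choice |fr a b e 0 0| |fr a b e 1 1| with h2 | h2
    · exact Or.inl (by rw [← h, h2])
    · exact Or.inr (Or.inl (by rw [← h, h2]))
  · rw [h1] at h
    rcases max_choice (|fr a b e 0 1| / w) (|fr a b e 1 0| / w) with h2 | h2
    · refine Or.inr (Or.inr (Or.inl ?_))
      rw [← h, h2]
      exact le_of_eq (by field_simp)
    · refine Or.inr (Or.inr (Or.inr ?_))
      rw [← h, h2]
      exact le_of_eq (by field_simp)

/-- the size of the degenerate part -/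
theorem deg_le {w T lam ε : ℝ} (hw : 0 < w) (hw1 : w ≤ 1) (hT : 1 ≤ T) (hl : 0 < lam) (hlT : lam ≤ T)
    (hε : 0 < ε) : (w * lam * T) ^ (1 + ε / 2) * (1 + T / lam) ≤ 2 * (w * T ^ 2) * T ^ ε := by
  have hT0 : (0 : ℝ) < T := by linarith
  have hx : (0 : ℝ) < w * lam * T := by positivity
  have h1 : (w * lam * T) ^ (1 + ε / 2) = (w * lam * T) * (w * lam * T) ^ (ε / 2) := by
    rw [Real.rpow_add hx, Real.rpow_one]
  have h2 : w * lam * T ≤ T ^ 2 := by
    have h3 : w * lam ≤ 1 * T := mul_le_mul hw1 hlT hl.le zero_le_one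
    nlinarith
  have h3 : (w * lam * T) ^ (ε / 2) ≤ T ^ ε := by
    have h4 : (w * lam * T) ^ (ε / 2) ≤ (T ^ 2) ^ (ε / 2) :=
      Real.rpow_le_rpow hx.le h2 (by positivity)
    have h5 : ((T : ℝ) ^ 2) ^ (ε / 2) = T ^ ε := by
      rw [← Real.rpow_natCast T 2, ← Real.rpow_mul hT0.le]
      congr 1
      push_cast
      ring
    rwa [h5] at h4
  have h4 : 1 + T / lam ≤ 2 * (T / lam) := by
    have h5 : 1 ≤ T / lam := by rwa [le_div_iff₀ hl, one_mul]
    linarith
  rw [h1]
  calc (w * lam * T) * (w * lam * T) ^ (ε / 2) * (1 + T / lam)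
      ≤ (w * lam * T) * T ^ ε * (2 * (T / lam)) := by
        apply mul_le_mul (mul_le_mul_of_nonneg_left h3 hx.le) h4 (by positivity) (by positivity)
    _ = 2 * (w * T ^ 2) * T ^ ε := by
        field_simp

end CntM

open CntM

theorem tCnt (hB : S_Bas) (hL : S_Lin) : S_Cnt := by
  classical
  obtain ⟨-, -, hgau, -, -, -, -, -, -, -, -⟩ := hB
  intro R ε hR hε
  obtain ⟨B, hB1, hd⟩ := HSBd.dsz (ε / 2) R (by positivity)
  obtain ⟨C', hC', hlin⟩ := hL R ε hR hε
  refine ⟨2 * B + C', by linarith, ?_⟩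
  intro w T lam a b e H P hw hw1 hT hl hlT ha hb he hdet hg hH hP
  obtain ⟨hPH, -, hcov⟩ := hP
  have hT0 : (0 : ℝ) < T := by linarith
  have hTe : (1 : ℝ) ≤ T ^ ε := Real.one_le_rpow hT hε.le
  have hebox : e ∈ Bx w T a b := (hgau w T a b e hw).2 (hg.le.trans hlT)
  have heboxl : e ∈ Bx w lam a b := (hgau w lam a b e hw).2 hg.le
  -- the degenerate part
  have h1 : ((H.filter (fun h => pl h e ^ 2 = 4 * e.det * h.det)).card : ℝ) ≤
      B * (1 + (w * lam * T) ^ (1 + ε / 2) * (1 + T / lam)) := by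
    refine hd w lam T hw hl hT0 a b ha.1 hb.1 ha.2 e he hdet (gle_of_box heboxl) (gge_of_gau hw hg) _ ?_
    intro c hc
    rw [Finset.mem_filter] at hc
    exact ⟨(hH c hc.1).2.1, gle_of_box (hH c hc.1).1, hc.2⟩
  -- the other part
  have h2 : ((H.filter (fun h => ¬ pl h e ^ 2 = 4 * e.det * h.det)).card : ℝ) ≤
      (P.card : ℝ) * (C' * T ^ ε) := by
    set H2 := H.filter (fun h => ¬ pl h e ^ 2 = 4 * e.det * h.det) with hH2
    have hsub : H2 ⊆ P.biUnion (fun p => H2.filter (fun h => ∃ t : ℤ, h - p = t • e)) := by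
      intro h hh
      have hh' := Finset.mem_filter.1 hh
      obtain ⟨p, hp, ht⟩ := hcov h hh'.1
      exact Finset.mem_biUnion.2 ⟨p, hp, Finset.mem_filter.2 ⟨hh, ht⟩⟩
    have hfib : ∀ p ∈ P, ((H2.filter (fun h => ∃ t : ℤ, h - p = t • e)).card : ℝ) ≤ C' * T ^ ε := by
      intro p hp
      rcases Finset.eq_empty_or_nonempty (H2.filter (fun h => ∃ t : ℤ, h - p = t • e)) with h0 | ⟨h0, h0m⟩
      · rw [h0, Finset.card_empty, Nat.cast_zero]
        positivity
      · obtain ⟨h0a, t, ht⟩ := Finset.mem_filter.1 h0m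
        have h0b := (Finset.mem_filter.1 h0a).2
        have h3 := disc_line h0 p e t ht
        refine hlin w T a b e p _ hw hw1 hT ha hb hdet hebox (hH p (hPH hp)).1 ?_ ?_
        · intro h hh
          obtain ⟨hha, hht⟩ := Finset.mem_filter.1 hh
          have hhH := hH h (Finset.mem_filter.1 hha).1
          exact ⟨hhH.1, hhH.2.2, hht⟩
        · intro hc
          apply h0b
          linarith
    have h3 : (H2.card : ℝ) ≤ ∑ p ∈ P, ((H2.filter (fun h => ∃ t : ℤ, h - p = t • e)).card : ℝ) := by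
      have h4 := (Finset.card_le_card hsub).trans Finset.card_biUnion_le
      exact_mod_cast h4
    refine h3.trans ((Finset.sum_le_sum hfib).trans (le_of_eq ?_))
    rw [Finset.sum_const, nsmul_eq_mul]
  have h3 : (H.card : ℝ) = ((H.filter (fun h => pl h e ^ 2 = 4 * e.det * h.det)).card : ℝ) +
      ((H.filter (fun h => ¬ pl h e ^ 2 = 4 * e.det * h.det)).card : ℝ) := by
    have h4 := Finset.card_filter_add_card_filter_not (s := H) (fun h => pl h e ^ 2 = 4 * e.det * h.det)
    exact_mod_cast h4.symm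
  have h4 := deg_le hw hw1 hT hl hlT hε
  have h5 : B * (1 + (w * lam * T) ^ (1 + ε / 2) * (1 + T / lam)) ≤
      B * (T ^ ε + 2 * (w * T ^ 2) * T ^ ε) :=
    mul_le_mul_of_nonneg_left (by linarith) (by linarith)
  have hPc : (0 : ℝ) ≤ (P.card : ℝ) := Nat.cast_nonneg _
  have hwT : 0 < w * T ^ 2 := by positivity
  have hTe0 : 0 < T ^ ε := by linarith
  rw [h3]
  have h6 : 0 ≤ B * T ^ ε := by positivity
  have h7 : 0 ≤ C' * T ^ ε := by positivity
  have h8 : 0 ≤ B * T ^ ε * (P.card : ℝ) := by positivity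
  have h9 : 0 ≤ C' * T ^ ε * (w * T ^ 2) := by positivity
  nlinarith [h1, h2, h5, h6, h7, h8, h9]

end HSB
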