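import Pool.Agent.Lib.HS.Bd.C.Spec

/-!
PROJECT H* (MP_a54f13_nt), pair count: `S_Idx`, lattice points in a parallelepiped of dimension four.
The index of the lattice spanned by the rows of an integral `4 x 4` matrix, and the class map with the
four floors. Helper97 (after `card27` of `HS/L/Lat.lean`).
-/

set_option autoImplicit false

namespace HSB

open HSL HSL.Flp Matrix

namespace IdxM

/-- the index of the lattice spanned by the rows of `M` -/
lemma index4 (M : Matrix (Fin 4) (Fin 4) ℤ) (hD : M.det ≠ 0) :
    Nat.card ((Fin 4 → ℤ) ⧸ Submodule.span ℤ (Set.range (fun i => M i))) = M.det.natAbs := by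
  have hli : LinearIndependent ℤ (fun i => M i) := Matrix.linearIndependent_rows_of_det_ne_zero hD
  have h2 := Submodule.natAbs_det_basis_change (Pi.basisFun ℤ (Fin 4))
    (Submodule.span ℤ (Set.range (fun i => M i))) (Module.Basis.span hli)
  rw [← h2]
  congr 1
  have h3 : ((fun x : Submodule.span ℤ (Set.range (fun i => M i)) => (x : Fin 4 → ℤ)) ∘
      (Module.Basis.span hli)) = (fun i => M i) := by
    funext i
    simp [Module.Basis.span_apply]
  rw [h3, Pi.basisFun_det_apply]
  rfl

/-- a quotient of a number of absolute value at most `|D|` by `|D|` is `-1`, `0` or `1` -/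
lemma quo (D p : ℤ) (hD : 0 < |D|) (hp : |p| ≤ |D|) : p / |D| ∈ Finset.Icc (-1 : ℤ) 1 := by
  rw [Finset.mem_Icc]
  obtain ⟨ha, hb⟩ := abs_le.mp hp
  constructor
  · rw [Int.le_ediv_iff_mul_le hD]; linarith
  · have h5 : p / |D| < 2 := by
      rw [Int.ediv_lt_iff_lt_mul hD]; linarith
    omega

/-- equal quotients and a difference divisible by `D` -/
lemma small (D p q k : ℤ) (hD : 0 < |D|) (hpq : p / |D| = q / |D|) (hk : p - q = D * k) : k = 0 := by
  have ha := Int.emod_add_mul_ediv p |D|
  have hb := Int.emod_add_mul_ediv q |D|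
  have hm1 := Int.emod_nonneg p hD.ne'
  have hm2 := Int.emod_lt_of_pos p hD
  have hm3 := Int.emod_nonneg q hD.ne'
  have hm4 := Int.emod_lt_of_pos q hD
  have hpq' : |p - q| < |D| := by
    rw [abs_lt]
    rw [hpq] at ha
    constructor <;> linarith
  rw [hk, abs_mul] at hpq'
  by_contra hk0
  have : 1 ≤ |k| := Int.one_le_abs hk0
  nlinarith

theorem card81 (M : Matrix (Fin 4) (Fin 4) ℤ) (S : Finset (Fin 4 → ℤ)) (hD : M.det ≠ 0)
    (hS : ∀ s ∈ S, ∃ c : Fin 4 → ℤ, (∀ i, |c i| ≤ |M.det|) ∧ M.det • s = ∑ i, c i • M i) :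
    (S.card : ℤ) ≤ 81 * |M.det| := by
  classical
  set D := M.det with hDdef
  set N := Submodule.span ℤ (Set.range (fun i => M i)) with hN
  have hcard : Nat.card ((Fin 4 → ℤ) ⧸ N) = D.natAbs := index4 M hD
  have hDpos : 0 < |D| := abs_pos.mpr hD
  have hli : LinearIndependent ℤ (fun i => M i) := Matrix.linearIndependent_rows_of_det_ne_zero hD
  have hfin : Finite ((Fin 4 → ℤ) ⧸ N) := by
    apply Nat.finite_of_card_ne_zero
    rw [hcard]
    exact Int.natAbs_ne_zero.mpr hD
  let hft : Fintype ((Fin 4 → ℤ) ⧸ N) := Fintype.ofFinite _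
  have hch : ∀ s : Fin 4 → ℤ, ∃ c : Fin 4 → ℤ, s ∈ S →
      ((∀ i, |c i| ≤ |D|) ∧ D • s = ∑ i, c i • M i) := by
    intro s
    by_cases hs : s ∈ S
    · obtain ⟨c, hc⟩ := hS s hs
      exact ⟨c, fun _ => hc⟩
    · exact ⟨0, fun h => absurd h hs⟩
  choose c hc using hch
  have key : S.card ≤ 81 * (Finset.univ : Finset ((Fin 4 → ℤ) ⧸ N)).card := by
    apply Finset.card_le_mul_card_image_of_maps_to (f := fun v => Submodule.Quotient.mk (p := N) v)
    · intro a _; exact Finset.mem_univ _
    · intro b _
      have hT : (Fintype.piFinset (fun _ : Fin 4 => Finset.Icc (-1 : ℤ) 1)).card = 81 := by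
        rw [Fintype.card_piFinset]
        simp
      rw [← hT]
      apply Finset.card_le_card_of_injOn (fun v => fun i => c v i / |D|)
      · intro v hv
        have hvS : v ∈ S := (Finset.mem_filter.mp hv).1
        rw [Finset.mem_coe, Fintype.mem_piFinset]
        intro i
        exact quo D (c v i) hDpos ((hc v hvS).1 i)
      · intro v hv v' hv' he
        have hvS : v ∈ S := (Finset.mem_filter.mp hv).1
        have hvS' : v' ∈ S := (Finset.mem_filter.mp hv').1
        have hq : Submodule.Quotient.mk (p := N) v = Submodule.Quotient.mk (p := N) v' := by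
          rw [(Finset.mem_filter.mp hv).2, (Finset.mem_filter.mp hv').2]
        rw [Submodule.Quotient.eq, hN, Submodule.mem_span_range_iff_exists_fun] at hq
        obtain ⟨n, hn⟩ := hq
        have e1 := (hc v hvS).2
        have e2 := (hc v' hvS').2
        have e3 : ∑ i, (c v i - c v' i - D * n i) • M i = 0 := by
          have : ∑ i, (c v i - c v' i - D * n i) • M i
              = (∑ i, c v i • M i) - (∑ i, c v' i • M i) - D • ∑ i, n i • M i := by
            rw [Finset.smul_sum, ← Finset.sum_sub_distrib, ← Finset.sum_sub_distrib]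
            apply Finset.sum_congr rfl
            intro i _
            rw [sub_smul, sub_smul, mul_smul]
          rw [this, ← e1, ← e2, hn, smul_sub]
          abel
        have e4 : ∀ i, c v i - c v' i - D * n i = 0 :=
          Fintype.linearIndependent_iff.mp hli (fun i => c v i - c v' i - D * n i) e3
        have e5 : ∀ i, n i = 0 := fun i =>
          small D (c v i) (c v' i) (n i) hDpos (congrFun he i) (by linarith [e4 i])
        have e6 : v - v' = 0 := by
          rw [← hn]
          apply Finset.sum_eq_zero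
          intro i _
          rw [e5 i, zero_smul]
        exact sub_eq_zero.mp e6
  have hu : (Finset.univ : Finset ((Fin 4 → ℤ) ⧸ N)).card = D.natAbs := by
    rw [← hcard, Nat.card_eq_fintype_card, Finset.card_univ]
  rw [hu] at key
  have : (S.card : ℤ) ≤ ((81 * D.natAbs : ℕ) : ℤ) := by exact_mod_cast key
  rw [Nat.cast_mul, Int.natCast_natAbs] at this
  exact_mod_cast this

/-- the four entries of a matrix -/
def vec (s : MZ) : Fin 4 → ℤ := ![s 0 0, s 0 1, s 1 0, s 1 1]

lemma vec_inj : Function.Injective vec := by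
  intro s s' h
  have h0 := congrFun h 0
  have h1 := congrFun h 1
  have h2 := congrFun h 2
  have h3 := congrFun h 3
  simp only [vec] at h0 h1 h2 h3
  ext i j
  fin_cases i <;> fin_cases j
  · exact h0
  · exact h1
  · exact h2
  · exact h3

lemma det_vec (h : Fin 4 → MZ) :
    (Matrix.of (fun i => vec (h i))).det = pl (h 3) (nm (h 0) (h 1) (h 2)) := by
  rw [Matrix.det_succ_row_zero]
  simp only [Matrix.det_fin_three, Fin.sum_univ_four, vec, pl, nm, dt3]
  simp [Fin.succAbove]
  ring

end IdxM

theorem tIdx : S_Idx := by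
  intro h S hD hS
  have hdet := IdxM.det_vec h
  have hD' : (Matrix.of (fun i => IdxM.vec (h i))).det ≠ 0 := by rw [hdet]; exact hD
  have := IdxM.card81 (Matrix.of (fun i => IdxM.vec (h i))) (S.map ⟨IdxM.vec, IdxM.vec_inj⟩) hD' (by
    intro s hs
    rw [Finset.mem_map] at hs
    obtain ⟨s0, hs0, rfl⟩ := hs
    obtain ⟨c, hc1, hc2⟩ := hS s0 hs0
    rw [hdet]
    refine ⟨c, hc1, ?_⟩
    have a : ∀ i j : Fin 2, pl (h 3) (nm (h 0) (h 1) (h 2)) * s0 i j = ∑ k, c k * h k i j := by
      intro i j
      have := congrFun (congrFun hc2 i) j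
      rw [Matrix.smul_apply, smul_eq_mul, Matrix.sum_apply] at this
      rw [this]
      apply Finset.sum_congr rfl
      intro k _
      rw [Matrix.smul_apply, smul_eq_mul]
    funext j
    rw [Finset.sum_apply]
    simp only [Function.Embedding.coeFn_mk, Pi.smul_apply, smul_eq_mul, Matrix.of_apply]
    fin_cases j
    · exact a 0 0
    · exact a 0 1
    · exact a 1 0
    · exact a 1 1)
  rw [hdet, Finset.card_map] at this
  exact this

end HSB
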