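import Pool.Agent.Lib.HS.Bd.C.Spec
import Pool.Agent.Lib.HS.Bd.SqLine

/-!
PROJECT H* (MP_a54f13_nt), high bands, pair count, module Lin: squares on one line (helper1).
-/

set_option autoImplicit false

namespace HSB

open HSL HSL.Flp Matrix

theorem tLin (hB : S_Bas) : S_Lin := by
  obtain ⟨-, -, -, -, -, hent, -, -, hdet, -, -⟩ := hB
  intro R ε hR hε
  obtain ⟨C', hC', hmat⟩ := Pool.Agent.A54.HSBd.mat_card (ε / 2) (by positivity)
  refine ⟨C' * (8 * R ^ 2) ^ (ε / 2), ?_, ?_⟩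
  · have h1 : (1 : ℝ) ≤ 8 * R ^ 2 := by nlinarith
    have h2 : (1 : ℝ) ≤ (8 * R ^ 2) ^ (ε / 2) := Real.one_le_rpow h1 (by positivity)
    nlinarith
  intro w T a b e p H hw hw1 hT ha hb he0 he hp hH hdisc
  have hT0 : (0 : ℝ) < T := by linarith
  have hR2 : (1 : ℝ) ≤ R ^ 2 := by nlinarith
  have hT2 : T ≤ T ^ 2 := by nlinarith
  have hT21 : (1 : ℝ) ≤ T ^ 2 := by nlinarith
  set Z : ℝ := 8 * R ^ 2 * T ^ 2 with hZ
  have hZ1 : (1 : ℝ) ≤ Z := by
    rw [hZ]
    nlinarith
  have hZ4 : 4 * T * T ≤ Z := by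
    rw [hZ]
    nlinarith
  have hZ2 : 2 * T ^ 2 ≤ Z := by
    rw [hZ]
    nlinarith
  -- the parameter
  have hex : ∀ h : MZ, ∃ t : ℤ, h ∈ H → h - p = t • e := by
    intro h
    by_cases hh : h ∈ H
    · obtain ⟨t, ht⟩ := (hH h hh).2.2
      exact ⟨t, fun _ => ht⟩
    · exact ⟨0, fun h' => absurd h' hh⟩
  choose τ hτ using hex
  have hne : ∃ i j, e i j ≠ 0 := by
    by_contra hc
    push Not at hc
    apply he0
    rw [Matrix.det_fin_two, hc 0 0, hc 0 1]
    ring
  have hinj : Set.InjOn τ (H : Set MZ) := by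
    intro h hh h' hh' heq
    have h1 := hτ h (Finset.mem_coe.1 hh)
    have h2 := hτ h' (Finset.mem_coe.1 hh')
    rw [heq] at h1
    have h3 : h - p = h' - p := h1.trans h2.symm
    exact sub_left_injective h3
  have hcard : (H.card : ℝ) = ((H.image τ).card : ℝ) := by
    rw [Finset.card_image_of_injOn hinj]
  rw [hcard]
  have hmain : ((H.image τ).card : ℝ) ≤ C' * Z ^ (ε / 2) := by
    refine hmat Z hZ1 p e he0 (Or.inl ?_) ?_ ?_ ?_ (H.image τ) ?_
    · intro h0
      apply hdisc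
      have : Pool.Agent.A54.HSBd.mixd p e = pl p e := rfl
      rw [this] at h0
      linarith
    · exact ((hdet w T T a b e e hw hw1 ha.1 hb.1 hT0.le hT0.le he he).2).trans hZ2
    · have h1 := (hdet w T T a b p e hw hw1 ha.1 hb.1 hT0.le hT0.le hp he).1
      exact h1.trans hZ4
    · exact ((hdet w T T a b p p hw hw1 ha.1 hb.1 hT0.le hT0.le hp hp).2).trans hZ2
    · intro t ht
      obtain ⟨h, hh, rfl⟩ := Finset.mem_image.1 ht
      obtain ⟨hbox, hsq, -⟩ := hH h hh
      have h1 := hτ h hh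
      refine ⟨?_, ?_⟩
      · obtain ⟨i, j, hij⟩ := hne
        have h2 := congrFun (congrFun h1 i) j
        rw [Matrix.sub_apply, Matrix.smul_apply, smul_eq_mul] at h2
        have h3 := hent R w T a b h hw hw1 ha hb hbox i j
        have h4 := hent R w T a b p hw hw1 ha hb hp i j
        have h5 : ((h i j : ℤ) : ℝ) - ((p i j : ℤ) : ℝ) = (τ h : ℝ) * ((e i j : ℤ) : ℝ) := by
          exact_mod_cast h2
        have h6 : (1 : ℝ) ≤ |((e i j : ℤ) : ℝ)| := by
          have : (1 : ℤ) ≤ |e i j| := Int.one_le_abs hij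
          exact_mod_cast this
        have h7 : |(τ h : ℝ)| ≤ |(τ h : ℝ)| * |((e i j : ℤ) : ℝ)| :=
          le_mul_of_one_le_right (abs_nonneg _) h6
        rw [← abs_mul, ← h5] at h7
        have h8 := abs_sub ((h i j : ℤ) : ℝ) ((p i j : ℤ) : ℝ)
        have h9 : 8 * R ^ 2 * T ≤ Z := by
          rw [hZ]
          nlinarith
        linarith
      · have h2 : p + τ h • e = h := by
          rw [← h1]
          abel
        rw [h2]
        exact hsq
  refine hmain.trans (le_of_eq ?_)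
  have h1 : (0 : ℝ) ≤ 8 * R ^ 2 := by positivity
  have h2 : (T ^ 2) ^ (ε / 2) = T ^ ε := by
    rw [← Real.rpow_natCast, ← Real.rpow_mul hT0.le]
    congr 1
    push_cast
    ring
  rw [hZ, Real.mul_rpow h1 (by positivity), h2]
  ring

end HSB
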