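import Pool.Agent.Lib.HS.Bd.C.Spec

/-!
PROJECT H* (MP_a54f13_nt), high bands, PAIR COUNT, module PA: the pair alternative (helper51).
-/

set_option autoImplicit false

namespace HSB

open HSL HSL.Flp Matrix

namespace PAM

/-- geometric mean, exponent four -/
theorem gm4 {X U V : ℝ} (hX : 0 ≤ X) (hU : 0 ≤ U) (hV : 0 ≤ V) (h1 : X ≤ U) (h2 : X ≤ V ^ 4) :
    X ≤ U ^ (3 / 4 : ℝ) * V := by
  rcases hX.eq_or_lt with h0 | h0
  · rw [← h0]; positivity
  · have e : X = X ^ (3 / 4 : ℝ) * X ^ (1 / 4 : ℝ) := by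
      rw [← Real.rpow_add h0]; norm_num
    have h3 : X ^ (1 / 4 : ℝ) ≤ V := by
      calc X ^ (1 / 4 : ℝ) ≤ (V ^ 4) ^ (1 / 4 : ℝ) := Real.rpow_le_rpow hX h2 (by norm_num)
        _ = V := by
          rw [← Real.rpow_natCast V 4, ← Real.rpow_mul hV]; norm_num
    have h4 : X ^ (3 / 4 : ℝ) ≤ U ^ (3 / 4 : ℝ) := Real.rpow_le_rpow hX h1 (by norm_num)
    calc X = X ^ (3 / 4 : ℝ) * X ^ (1 / 4 : ℝ) := e
      _ ≤ U ^ (3 / 4 : ℝ) * V := mul_le_mul h4 h3 (by positivity) (by positivity)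

/-- geometric mean, exponent three -/
theorem gm3 {X U V : ℝ} (hX : 0 ≤ X) (hU : 0 ≤ U) (hV : 0 ≤ V) (h1 : X ≤ U) (h2 : X ≤ V ^ 3) :
    X ≤ U ^ (2 / 3 : ℝ) * V := by
  rcases hX.eq_or_lt with h0 | h0
  · rw [← h0]; positivity
  · have e : X = X ^ (2 / 3 : ℝ) * X ^ (1 / 3 : ℝ) := by
      rw [← Real.rpow_add h0]; norm_num
    have h3 : X ^ (1 / 3 : ℝ) ≤ V := by
      calc X ^ (1 / 3 : ℝ) ≤ (V ^ 3) ^ (1 / 3 : ℝ) := Real.rpow_le_rpow hX h2 (by norm_num)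
        _ = V := by
          rw [← Real.rpow_natCast V 3, ← Real.rpow_mul hV]; norm_num
    have h4 : X ^ (2 / 3 : ℝ) ≤ U ^ (2 / 3 : ℝ) := Real.rpow_le_rpow hX h1 (by norm_num)
    calc X = X ^ (2 / 3 : ℝ) * X ^ (1 / 3 : ℝ) := e
      _ ≤ U ^ (2 / 3 : ℝ) * V := mul_le_mul h4 h3 (by positivity) (by positivity)

/-- rank four -/
theorem bd4 {w T lam l ρ X P : ℝ} (hw : 0 < w) (hT : 0 < T) (hl : 0 < l) (hlam : 0 < lam) (hρ : 0 ≤ ρ)
    (hlr : lam ≤ ρ * l) (hX : 0 ≤ X) (h1 : X ≤ 1944 * w ^ 2 * (2 * T) ^ 4) (h2 : X ≤ (6 * (2 * T) / l) ^ 4)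
    (hP : P * T ≤ lam * X) : P ≤ 373248 * ρ * (w ^ (3 / 2 : ℝ) * T ^ 3) := by
  have h3 := gm4 hX (by positivity) (by positivity) h1 h2
  have e1 : (1944 * w ^ 2 * (2 * T) ^ 4 : ℝ) ^ (3 / 4 : ℝ) ≤ 31104 * (w ^ (3 / 2 : ℝ) * T ^ 3) := by
    have e2 : (1944 * w ^ 2 * (2 * T) ^ 4 : ℝ) = 31104 * (w ^ 2 * T ^ 4) := by ring
    rw [e2, Real.mul_rpow (by norm_num) (by positivity), Real.mul_rpow (by positivity) (by positivity)]
    have e3 : (w ^ 2 : ℝ) ^ (3 / 4 : ℝ) = w ^ (3 / 2 : ℝ) := by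
      rw [← Real.rpow_natCast w 2, ← Real.rpow_mul hw.le]; norm_num
    have e4 : (T ^ 4 : ℝ) ^ (3 / 4 : ℝ) = T ^ 3 := by
      rw [← Real.rpow_natCast T 4, ← Real.rpow_mul hT.le, ← Real.rpow_natCast T 3]; norm_num
    have e5 : (31104 : ℝ) ^ (3 / 4 : ℝ) ≤ 31104 := by
      calc (31104 : ℝ) ^ (3 / 4 : ℝ) ≤ (31104 : ℝ) ^ (1 : ℝ) :=
            Real.rpow_le_rpow_of_exponent_le (by norm_num) (by norm_num)
        _ = 31104 := Real.rpow_one _
    rw [e3, e4]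
    exact mul_le_mul_of_nonneg_right e5 (by positivity)
  have h4 : X ≤ 31104 * (w ^ (3 / 2 : ℝ) * T ^ 3) * (6 * (2 * T) / l) :=
    h3.trans (mul_le_mul_of_nonneg_right e1 (by positivity))
  have h5 : P * T ≤ 373248 * ρ * (w ^ (3 / 2 : ℝ) * T ^ 3) * T := by
    calc P * T ≤ lam * X := hP
      _ ≤ lam * (31104 * (w ^ (3 / 2 : ℝ) * T ^ 3) * (6 * (2 * T) / l)) :=
          mul_le_mul_of_nonneg_left h4 hlam.le
      _ = (373248 * (w ^ (3 / 2 : ℝ) * T ^ 3) * T) * (lam / l) := by field_simp; ring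
      _ ≤ (373248 * (w ^ (3 / 2 : ℝ) * T ^ 3) * T) * ρ := by
          refine mul_le_mul_of_nonneg_left ?_ (by positivity)
          rwa [div_le_iff₀ hl]
      _ = 373248 * ρ * (w ^ (3 / 2 : ℝ) * T ^ 3) * T := by ring
  exact le_of_mul_le_mul_right h5 hT

/-- rank three -/
theorem bd3 {w T lam l ρ X P Q : ℝ} (hw : 0 < w) (hT : 0 < T) (hl : 0 < l) (hlam : 0 < lam) (hρ : 0 ≤ ρ)
    (hQ : 0 < Q) (hlr : lam ≤ ρ * l) (hX : 0 ≤ X) (h1 : X * (w * Q ^ (3 / 2 : ℝ)) ≤ 486 * w * (2 * T) ^ 3)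
    (h2 : X ≤ (10 * (2 * T) / l) ^ 3) (hP : P * T ≤ lam * X) : P * Q ≤ 77760 * ρ * T ^ 2 := by
  have hQ2 : 0 < Q ^ (3 / 2 : ℝ) := Real.rpow_pos_of_pos hQ _
  have h1' : X ≤ 3888 * (T ^ 3 / Q ^ (3 / 2 : ℝ)) := by
    have h6 : X * Q ^ (3 / 2 : ℝ) ≤ 3888 * T ^ 3 := by
      have h7 : w * (X * Q ^ (3 / 2 : ℝ)) ≤ w * (3888 * T ^ 3) := by
        calc w * (X * Q ^ (3 / 2 : ℝ)) = X * (w * Q ^ (3 / 2 : ℝ)) := by ring
          _ ≤ 486 * w * (2 * T) ^ 3 := h1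
          _ = w * (3888 * T ^ 3) := by ring
      exact le_of_mul_le_mul_left h7 hw
    rw [mul_div_assoc', le_div_iff₀ hQ2]; exact h6
  have h3 := gm3 hX (by positivity) (by positivity) h1' h2
  have e1 : (3888 * (T ^ 3 / Q ^ (3 / 2 : ℝ)) : ℝ) ^ (2 / 3 : ℝ) ≤ 3888 * (T ^ 2 / Q) := by
    rw [Real.mul_rpow (by norm_num) (by positivity), Real.div_rpow (by positivity) (by positivity)]
    have e3 : (T ^ 3 : ℝ) ^ (2 / 3 : ℝ) = T ^ 2 := by
      rw [← Real.rpow_natCast T 3, ← Real.rpow_mul hT.le, ← Real.rpow_natCast T 2]; norm_num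
    have e4 : (Q ^ (3 / 2 : ℝ)) ^ (2 / 3 : ℝ) = Q := by
      rw [← Real.rpow_mul hQ.le]; norm_num
    have e5 : (3888 : ℝ) ^ (2 / 3 : ℝ) ≤ 3888 := by
      calc (3888 : ℝ) ^ (2 / 3 : ℝ) ≤ (3888 : ℝ) ^ (1 : ℝ) :=
            Real.rpow_le_rpow_of_exponent_le (by norm_num) (by norm_num)
        _ = 3888 := Real.rpow_one _
    rw [e3, e4]
    exact mul_le_mul_of_nonneg_right e5 (by positivity)
  have h4 : X ≤ 3888 * (T ^ 2 / Q) * (10 * (2 * T) / l) :=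
    h3.trans (mul_le_mul_of_nonneg_right e1 (by positivity))
  have h5 : P * Q * T ≤ 77760 * ρ * T ^ 2 * T := by
    calc P * Q * T = (P * T) * Q := by ring
      _ ≤ (lam * X) * Q := mul_le_mul_of_nonneg_right hP hQ.le
      _ ≤ (lam * (3888 * (T ^ 2 / Q) * (10 * (2 * T) / l))) * Q :=
          mul_le_mul_of_nonneg_right (mul_le_mul_of_nonneg_left h4 hlam.le) hQ.le
      _ = (77760 * T ^ 2 * T) * (lam / l) := by field_simp; ring
      _ ≤ (77760 * T ^ 2 * T) * ρ := by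
          refine mul_le_mul_of_nonneg_left ?_ (by positivity)
          rwa [div_le_iff₀ hl]
      _ = 77760 * ρ * T ^ 2 * T := by ring
  exact le_of_mul_le_mul_right h5 hT

/-- rank two -/
theorem bd2 {T lam l ρ X P : ℝ} (hT : 0 < T) (hl : 0 < l) (hlam : 0 < lam)
    (hlr : lam ≤ ρ * l) (h1 : X ≤ 144 * (2 * T / l) ^ 2) (hP : P * T ≤ lam * X) : P * l ≤ 576 * ρ * T := by
  have h5 : P * l * T ≤ 576 * ρ * T * T := by
    calc P * l * T = (P * T) * l := by ring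
      _ ≤ (lam * (144 * (2 * T / l) ^ 2)) * l :=
          mul_le_mul_of_nonneg_right (hP.trans (mul_le_mul_of_nonneg_left h1 hlam.le)) hl.le
      _ = (576 * T * T) * (lam / l) := by field_simp; ring
      _ ≤ (576 * T * T) * ρ := by
          refine mul_le_mul_of_nonneg_left ?_ (by positivity)
          rwa [div_le_iff₀ hl]
      _ = 576 * ρ * T * T := by ring
  exact le_of_mul_le_mul_right h5 hT

end PAM

open PAM in
/-- **the pair alternative** -/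
theorem tPA (hB : S_Bas) (hP : S_Prm) (hV4 : S_Vol4) (hV3 : S_Vol3) (hS : S_Shf) (hK : S_Pk) (hR : S_Rep)
    (hC : S_Cnt) : S_PA := by
  classical
  intro R C B ε hR1 hC1 hB1 hε
  obtain ⟨C0, hC0, hcnt⟩ := hC R ε hR1 hε
  obtain ⟨-, -, hbox, -, hgs, -, hlow, -, -, -, hfin⟩ := hB
  obtain ⟨hprim, -, -, -⟩ := hP
  set D : ℝ := C * B with hD
  have hD1 : 1 ≤ D := by rw [hD]; nlinarith
  have hD0 : 0 < D := by linarith
  have hDe : 1 ≤ D ^ ε := Real.one_le_rpow hD1 hε.le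
  have hC00 : 0 < C0 := by linarith
  set C1 : ℝ := 1000000 * C0 * (D ^ 3 * D ^ ε) with hC1def
  have hD3 : 1 ≤ D ^ 3 := one_le_pow₀ hD1
  have hD2 : 1 ≤ D ^ 2 := one_le_pow₀ hD1
  have hD32 : D ^ 2 ≤ D ^ 3 := pow_le_pow_right₀ hD1 (by norm_num)
  have hD31 : D ≤ D ^ 3 := by nlinarith
  have hDD : 1 ≤ D ^ 3 * D ^ ε := by nlinarith
  have hC1D : 1000000 * (C0 * (D ^ 3 * D ^ ε)) = C1 := by rw [hC1def]; ring
  have hCD : 1 ≤ C0 * (D ^ 3 * D ^ ε) := by nlinarith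
  have hC1one : 1 ≤ C1 := by rw [← hC1D]; linarith
  have hC10 : 0 < C1 := by linarith
  refine ⟨C1, hC1one, ?_⟩
  intro w K ρ N a b H hw hK1 hwK hρ hRa hRb hTy hH hN hNH
  have hK0 : 0 < K := by linarith
  have hρ0 : 0 < ρ := by linarith
  have hKe : 1 ≤ K ^ ε := Real.one_le_rpow hK1 hε.le
  have hw1 : w ≤ 1 := by
    have h1 : w * 1 ≤ C1 * w * K := by
      have : 1 ≤ C1 * K := by nlinarith
      nlinarith
    linarith
  -- the scale
  set T : ℝ := D * K with hT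
  have hT1 : 1 ≤ T := by rw [hT]; nlinarith
  have hT0 : 0 < T := by linarith
  have hTe : T ^ ε = D ^ ε * K ^ ε := Real.mul_rpow hD0.le hK0.le
  have hTe0 : 0 < T ^ ε := Real.rpow_pos_of_pos hT0 _
  have hTC : T ≤ C1 * K := by
    rw [hT]
    refine mul_le_mul_of_nonneg_right ?_ hK0.le
    rw [← hC1D]
    have : D ≤ C0 * (D ^ 3 * D ^ ε) := by
      calc D ≤ D ^ 3 := hD31
        _ = 1 * (D ^ 3 * 1) := by ring
        _ ≤ C0 * (D ^ 3 * D ^ ε) := by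
            refine mul_le_mul hC0 (mul_le_mul_of_nonneg_left hDe (by positivity)) (by positivity) hC00.le
    linarith
  have hρ4 : 1 ≤ ρ ^ 4 := one_le_pow₀ hρ
  have hρρ4 : ρ ≤ ρ ^ 4 := by
    have h1 := pow_le_pow_right₀ hρ (show 1 ≤ 4 by norm_num)
    simpa using h1
  set W : ℝ := 1 + w * K ^ 2 + w ^ (3 / 2 : ℝ) * K ^ 3 with hW
  have hw32 : 0 < w ^ (3 / 2 : ℝ) := Real.rpow_pos_of_pos hw _
  have hW1 : 1 ≤ W := by rw [hW]; have : 0 ≤ w * K ^ 2 := by positivity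
                         have : 0 ≤ w ^ (3 / 2 : ℝ) * K ^ 3 := by positivity
                         linarith
  have hN0 : C1 ≤ N := by
    calc C1 = C1 * 1 * 1 * 1 := by ring
      _ ≤ C1 * ρ ^ 4 * K ^ ε * W := by gcongr
      _ ≤ N := hN
  have hNpos : 0 < N := by linarith
  -- H lies in the box
  have hHb : ∀ h ∈ H, h ∈ Bx w T a b ∧ Prim h ∧ IsSquare h.det := by
    intro h hh
    obtain ⟨hp, m, -, hm, hdet, hm0, h00, h11, h01, h10⟩ := hH h hh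
    have hCm : C * (m : ℝ) ≤ T := by
      rw [hT, hD, mul_assoc]
      exact mul_le_mul_of_nonneg_left hm (by linarith)
    have hCwm : C * w * (m : ℝ) ≤ w * T := by
      calc C * w * (m : ℝ) = w * (C * m) := by ring
        _ ≤ w * T := mul_le_mul_of_nonneg_left hCm hw.le
    exact ⟨⟨h00.trans hCm, h11.trans hCm, h01.trans hCwm, h10.trans hCwm⟩, hp, (m : ℤ), by rw [hdet, sq]⟩
  have hHne : H.Nonempty := by
    rw [← Finset.card_pos]
    have : (0 : ℝ) < (H.card : ℝ) := by linarith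
    exact_mod_cast this
  -- the shortest vector
  have hfT := hfin R w T a b hw hw1 hRa hRb
  set G : Finset MZ := hfT.toFinset.filter (fun u => u ≠ 0) with hG
  have hGne : G.Nonempty := by
    obtain ⟨h0, hh0⟩ := hHne
    refine ⟨h0, Finset.mem_filter.2 ⟨hfT.mem_toFinset.2 (hHb h0 hh0).1, ?_⟩⟩
    obtain ⟨-, m, -, -, hdet, hm0, -⟩ := hH h0 hh0
    intro h00
    rw [h00] at hdet
    have h1 : (0 : ℤ) = (m : ℤ) ^ 2 := by
      rw [← hdet]; simp
    have h2 : (m : ℤ) ≠ 0 := by exact_mod_cast hm0.ne'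
    exact (pow_ne_zero 2 h2) h1.symm
  obtain ⟨u1, hu1G, hu1min⟩ := Finset.exists_min_image G (gau w a b) hGne
  obtain ⟨hu1b, hu10⟩ := Finset.mem_filter.1 hu1G
  rw [hfT.mem_toFinset] at hu1b
  set l : ℝ := gau w a b u1 with hl
  have hu1l : u1 ∈ Bx w l a b := (hbox w l a b u1 hw).2 le_rfl
  have hl0 : 0 < l := by
    have h1 := hlow R w l a b u1 hw hw1 hRa hRb hu10 hu1l
    by_contra hneg
    push Not at hneg
    have : 4 * R ^ 2 * l ≤ 0 := mul_nonpos_of_nonneg_of_nonpos (by positivity) hneg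
    linarith
  have hlT : l ≤ T := (hbox w T a b u1 hw).1 hu1b
  have hlmin : ∀ u : MZ, u ≠ 0 → l ≤ gau w a b u := by
    intro u hu
    by_cases hub : u ∈ Bx w T a b
    · exact hu1min u (Finset.mem_filter.2 ⟨hfT.mem_toFinset.2 hub, hu⟩)
    · rw [hbox w T a b u hw] at hub
      push Not at hub
      linarith
  -- the direction
  obtain ⟨u', hu'det, hu'b⟩ := hTy l hl0.le (hlT.trans hTC) ⟨u1, hu10, hu1l⟩
  have hu'0 : u' ≠ 0 := by
    intro h0; apply hu'det; rw [h0]; simp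
  obtain ⟨n, e, hn, -, heP, he0, hedet, heb⟩ := hprim u' hu'0
  have hedet' := hedet hu'det
  have heρ : e ∈ Bx w (ρ * l) a b := heb w (ρ * l) a b hw hu'b
  set lam : ℝ := gau w a b e with hlam
  have hlamρ : lam ≤ ρ * l := (hbox w (ρ * l) a b e hw).1 heρ
  have hllam : l ≤ lam := hlmin e he0
  have hlam0 : 0 < lam := by linarith
  have helam : e ∈ Bx w lam a b := (hbox w lam a b e hw).2 le_rfl
  rcases lt_or_ge T lam with hcase | hcase
  · -- few points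
    exfalso
    have h1 := (hK w T l a b H hw hl0 hlT hRa.1 hRb.1 (fun h hh => (hHb h hh).1) hlmin).1
    have h2 : 6 * T / l < 6 * ρ := by
      rw [div_lt_iff₀ hl0]
      nlinarith
    have h3 : (6 * T / l) ^ 4 < (6 * ρ) ^ 4 := pow_lt_pow_left₀ h2 (by positivity) (by norm_num)
    have h4 : (6 * ρ) ^ 4 ≤ C1 * ρ ^ 4 := by
      have : (6 * ρ) ^ 4 = 1296 * ρ ^ 4 := by ring
      rw [this]
      refine mul_le_mul_of_nonneg_right ?_ (by positivity)
      rw [← hC1D]; linarith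
    have h5 : C1 * ρ ^ 4 ≤ N := by
      calc C1 * ρ ^ 4 = C1 * ρ ^ 4 * 1 * 1 := by ring
        _ ≤ C1 * ρ ^ 4 * K ^ ε * W := by gcongr
        _ ≤ N := hN
    linarith
  · obtain ⟨P, hPH, hPs, hPr⟩ := hR e H
    have hfT2 := hfin R w (2 * T) a b hw hw1 hRa hRb
    set Bs : Finset MZ := hfT2.toFinset with hBs
    have hBsm : ∀ u, u ∈ Bs ↔ u ∈ Bx w (2 * T) a b := fun u => hfT2.mem_toFinset
    have hshf := hS w T lam a b e P Bs hw hlam0 hcase he0 helam (fun p hp => (hHb p (hPH hp)).1) hPs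
      (fun u hu => (hBsm u).2 hu)
    have hcount := hcnt w T lam a b e H P hw hw1 hT1 hlam0 hcase hRa hRb heP hedet' rfl hHb
      ⟨hPH, hPs, hPr⟩
    have hPc : (0 : ℝ) ≤ (P.card : ℝ) := Nat.cast_nonneg _
    have hXc : (0 : ℝ) ≤ (Bs.card : ℝ) := Nat.cast_nonneg _
    -- N ≤ 2 C0 T^ε card P
    have hT2 : w * T ^ 2 + 1 ≤ D ^ 2 * W := by
      have h1 : w * T ^ 2 + 1 ≤ D ^ 2 * (w * K ^ 2 + 1) := by
        rw [hT]; nlinarith
      have h2 : w * K ^ 2 + 1 ≤ W := by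
        rw [hW]
        have : 0 ≤ w ^ (3 / 2 : ℝ) * K ^ 3 := by positivity
        linarith
      exact h1.trans (mul_le_mul_of_nonneg_left h2 (by positivity))
    have hhalf : C0 * T ^ ε * (w * T ^ 2 + 1) ≤ N / 2 := by
      have h1 : C0 * T ^ ε * (w * T ^ 2 + 1) ≤ (C0 * (D ^ 3 * D ^ ε)) * (K ^ ε * W) := by
        calc C0 * T ^ ε * (w * T ^ 2 + 1) ≤ C0 * T ^ ε * (D ^ 2 * W) :=
              mul_le_mul_of_nonneg_left hT2 (by positivity)
          _ = (C0 * D ^ ε * (K ^ ε * W)) * D ^ 2 := by rw [hTe]; ring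
          _ ≤ (C0 * D ^ ε * (K ^ ε * W)) * D ^ 3 := mul_le_mul_of_nonneg_left hD32 (by positivity)
          _ = (C0 * (D ^ 3 * D ^ ε)) * (K ^ ε * W) := by ring
      have h2 : 2 * ((C0 * (D ^ 3 * D ^ ε)) * (K ^ ε * W)) ≤ N := by
        calc 2 * ((C0 * (D ^ 3 * D ^ ε)) * (K ^ ε * W)) ≤ C1 * (K ^ ε * W) := by
              rw [← hC1D]
              have : 0 ≤ (C0 * (D ^ 3 * D ^ ε)) * (K ^ ε * W) := by positivity
              nlinarith
          _ = C1 * 1 * K ^ ε * W := by ring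
          _ ≤ C1 * ρ ^ 4 * K ^ ε * W := by gcongr
          _ ≤ N := hN
      linarith
    have hNP : N ≤ 2 * C0 * T ^ ε * (P.card : ℝ) := by
      have h1 : (H.card : ℝ) ≤ C0 * T ^ ε * (P.card : ℝ) + C0 * T ^ ε * (w * T ^ 2 + 1) := by
        calc (H.card : ℝ) ≤ C0 * T ^ ε * ((P.card : ℝ) + w * T ^ 2 + 1) := hcount
          _ = _ := by ring
      linarith
    by_cases r4 : ∃ u ∈ Bs, ∃ v ∈ Bs, ∃ t ∈ Bs, ∃ x ∈ Bs, pl x (nm u v t) ≠ 0
    · -- rank four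
      exfalso
      have h1 := hV4 w (2 * T) a b Bs hw (by positivity) hRa.1 hRb.1 (fun u hu => (hBsm u).1 hu) r4
      have h2 := (hK w (2 * T) l a b Bs hw hl0 (by linarith) hRa.1 hRb.1 (fun u hu => (hBsm u).1 hu) hlmin).1
      have h3 := bd4 hw hT0 hl0 hlam0 hρ0.le hlamρ hXc h1 h2 hshf
      have h4 : N ≤ 746496 * (C0 * (D ^ 3 * D ^ ε)) * (ρ * K ^ ε * (w ^ (3 / 2 : ℝ) * K ^ 3)) := by
        calc N ≤ 2 * C0 * T ^ ε * (P.card : ℝ) := hNP
          _ ≤ 2 * C0 * T ^ ε * (373248 * ρ * (w ^ (3 / 2 : ℝ) * T ^ 3)) :=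
              mul_le_mul_of_nonneg_left h3 (by positivity)
          _ = 746496 * (C0 * (D ^ 3 * D ^ ε)) * (ρ * K ^ ε * (w ^ (3 / 2 : ℝ) * K ^ 3)) := by
              rw [hTe, hT]; ring
      have h5 : C1 * (ρ * K ^ ε * (w ^ (3 / 2 : ℝ) * K ^ 3)) ≤ N := by
        calc C1 * (ρ * K ^ ε * (w ^ (3 / 2 : ℝ) * K ^ 3)) = C1 * ρ * K ^ ε * (w ^ (3 / 2 : ℝ) * K ^ 3) := by
              ring
          _ ≤ C1 * ρ ^ 4 * K ^ ε * W := by
              have : w ^ (3 / 2 : ℝ) * K ^ 3 ≤ W := by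
                rw [hW]
                have : 0 ≤ w * K ^ 2 := by positivity
                linarith
              gcongr
          _ ≤ N := hN
      have h6 : 0 < (C0 * (D ^ 3 * D ^ ε)) * (ρ * K ^ ε * (w ^ (3 / 2 : ℝ) * K ^ 3)) := by positivity
      rw [← hC1D] at h5
      nlinarith
    · push Not at r4
      by_cases r3 : ∃ u ∈ Bs, ∃ v ∈ Bs, ∃ t ∈ Bs, nm u v t ≠ 0
      · -- rank three
        obtain ⟨u, hu, v, hv, t, ht, hnm⟩ := r3
        obtain ⟨n', r, hn', hnr, hrP, hr0, -, -⟩ := hprim (nm u v t) hnm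
        have horth : ∀ x ∈ Bs, pl x r = 0 := by
          intro x hx
          have h1 := r4 u hu v hv t ht x hx
          rw [hnr] at h1
          have h2 : pl x (n' • r) = n' * pl x r := by
            simp only [pl, Matrix.smul_apply, smul_eq_mul]; ring
          rw [h2] at h1
          rcases mul_eq_zero.1 h1 with h3 | h3
          · omega
          · exact h3
        set Q : ℝ := C1 * ρ * K ^ (2 + ε) / N with hQ
        have hK2e : K ^ (2 + ε) = K ^ 2 * K ^ ε := by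
          rw [Real.rpow_add hK0]; norm_num
        have hK2e0 : 0 < K ^ (2 + ε) := Real.rpow_pos_of_pos hK0 _
        have hQ0 : 0 < Q := by rw [hQ]; positivity
        right
        refine ⟨r, hrP, ?_, fun h hh => horth h ((hBsm h).2 (Bx_mono hw.le (by linarith) (hHb h hh).1))⟩
        by_contra hnot
        have h1 := hV3 w (2 * T) (w * Q ^ (3 / 2 : ℝ)) a b Bs r hw (by positivity) (by positivity) hRa.1 hRb.1 hrP
          (fun x hx => ⟨(hBsm x).1 hx, horth x hx⟩) ⟨u, hu, v, hv, t, ht, hnm⟩ hnot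
        have h2 := (hK w (2 * T) l a b Bs hw hl0 (by linarith) hRa.1 hRb.1
          (fun u hu => (hBsm u).1 hu) hlmin).2.1 ⟨r, hr0, horth⟩
        have h3 := bd3 hw hT0 hl0 hlam0 hρ0.le hQ0 hlamρ hXc h1 h2 hshf
        have h4 : N * Q ≤ 155520 * (C0 * (D ^ 3 * D ^ ε)) * (ρ * (K ^ 2 * K ^ ε)) := by
          calc N * Q ≤ (2 * C0 * T ^ ε * (P.card : ℝ)) * Q := mul_le_mul_of_nonneg_right hNP hQ0.le
            _ = 2 * C0 * T ^ ε * ((P.card : ℝ) * Q) := by ring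
            _ ≤ 2 * C0 * T ^ ε * (77760 * ρ * T ^ 2) := mul_le_mul_of_nonneg_left h3 (by positivity)
            _ = (155520 * C0 * D ^ ε * (ρ * (K ^ 2 * K ^ ε))) * D ^ 2 := by rw [hTe, hT]; ring
            _ ≤ (155520 * C0 * D ^ ε * (ρ * (K ^ 2 * K ^ ε))) * D ^ 3 :=
                mul_le_mul_of_nonneg_left hD32 (by positivity)
            _ = 155520 * (C0 * (D ^ 3 * D ^ ε)) * (ρ * (K ^ 2 * K ^ ε)) := by ring
        have h5 : N * Q = C1 * (ρ * (K ^ 2 * K ^ ε)) := by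
          rw [hQ, hK2e]; field_simp
        rw [h5, ← hC1D] at h4
        have h6 : 0 < (C0 * (D ^ 3 * D ^ ε)) * (ρ * (K ^ 2 * K ^ ε)) := by positivity
        nlinarith
      · -- rank two
        push Not at r3
        left
        have h2 := (hK w (2 * T) l a b Bs hw hl0 (by linarith) hRa.1 hRb.1
          (fun u hu => (hBsm u).1 hu) hlmin).2.2 r3
        have h3 := bd2 hT0 hl0 hlam0 hlamρ h2 hshf
        refine ⟨u1, hu10, Bx_mono hw.le ?_ hu1l⟩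
        rw [le_div_iff₀ hNpos]
        have hK1e : K ^ (1 + ε) = K * K ^ ε := by
          rw [Real.rpow_add hK0]; norm_num
        calc l * N ≤ l * (2 * C0 * T ^ ε * (P.card : ℝ)) := mul_le_mul_of_nonneg_left hNP hl0.le
          _ = 2 * C0 * T ^ ε * ((P.card : ℝ) * l) := by ring
          _ ≤ 2 * C0 * T ^ ε * (576 * ρ * T) := mul_le_mul_of_nonneg_left h3 (by positivity)
          _ = (1152 * C0 * D ^ ε * (ρ * (K * K ^ ε))) * D := by rw [hTe, hT]; ring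
          _ ≤ (1152 * C0 * D ^ ε * (ρ * (K * K ^ ε))) * D ^ 3 := mul_le_mul_of_nonneg_left hD31 (by positivity)
          _ = 1152 * ((C0 * (D ^ 3 * D ^ ε)) * (ρ * (K * K ^ ε))) := by ring
          _ ≤ 1000000 * ((C0 * (D ^ 3 * D ^ ε)) * (ρ * (K * K ^ ε))) := by
              have : 0 ≤ (C0 * (D ^ 3 * D ^ ε)) * (ρ * (K * K ^ ε)) := by positivity
              linarith
          _ = C1 * ρ * K ^ (1 + ε) := by rw [hK1e, ← hC1D]; ring

end HSB
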