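import Pool.Agent.Lib.HS.Bd.C.Spec
import Pool.Agent.Lib.HS.Bd.FPck
import Pool.Agent.Lib.HS.Bd.Pack

/-! PROJECT H* (MP_a54f13_nt), high bands, PAIR COUNT, module Pk: packing (helper16). -/

set_option autoImplicit false

namespace HSB

open HSL HSL.Flp Matrix

namespace PkM

open HSL.Flp.FPckAux (xx xx_sub en)

theorem xx_apply (w : ℝ) (a b : MR) (u : MZ) :
    xx w a b u 0 = fr a b u 0 0 ∧ xx w a b u 1 = fr a b u 1 1 ∧
      xx w a b u 2 = fr a b u 0 1 / w ∧ xx w a b u 3 = fr a b u 1 0 / w := by
  refine ⟨?_, ?_, ?_, ?_⟩ <;> simp [xx, en] <;> ring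

theorem norm_xx (w : ℝ) (hw : 0 < w) (a b : MR) (u : MZ) : ‖xx w a b u‖ = gau w a b u := by
  obtain ⟨h0, h1, h2, h3⟩ := xx_apply w a b u
  apply le_antisymm
  · have hg : 0 ≤ gau w a b u := le_max_of_le_left (le_max_of_le_left (abs_nonneg _))
    refine (pi_norm_le_iff_of_nonneg hg).mpr fun k => ?_
    rw [Real.norm_eq_abs]
    unfold gau
    fin_cases k
    · show |xx w a b u 0| ≤ _
      rw [h0]
      exact le_max_of_le_left (le_max_left _ _)
    · show |xx w a b u 1| ≤ _
      rw [h1]
      exact le_max_of_le_left (le_max_right _ _)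
    · show |xx w a b u 2| ≤ _
      rw [h2, abs_div, abs_of_pos hw]
      exact le_max_of_le_right (le_max_left _ _)
    · show |xx w a b u 3| ≤ _
      rw [h3, abs_div, abs_of_pos hw]
      exact le_max_of_le_right (le_max_right _ _)
  · unfold gau
    refine max_le (max_le ?_ ?_) (max_le ?_ ?_)
    · rw [← h0]; exact norm_le_pi_norm (xx w a b u) 0
    · rw [← h1]; exact norm_le_pi_norm (xx w a b u) 1
    · have := norm_le_pi_norm (xx w a b u) 2
      rw [h2, Real.norm_eq_abs, abs_div, abs_of_pos hw] at this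
      exact this
    · have := norm_le_pi_norm (xx w a b u) 3
      rw [h3, Real.norm_eq_abs, abs_div, abs_of_pos hw] at this
      exact this

theorem xx_sub' (w : ℝ) (a b : MR) (u v : MZ) : xx w a b u - xx w a b v = xx w a b (u - v) := by
  funext k
  exact (xx_sub w a b u v k).symm

/-- the packing bound through a linear map with a lower bound on differences -/
theorem pack {n : ℕ} (B : Finset MZ) (f : MZ → Fin n → ℝ) (l T : ℝ) (hl : 0 < l) (hT : 0 ≤ T)
    (h1 : ∀ u ∈ B, ‖f u‖ ≤ T) (h2 : ∀ u ∈ B, ∀ v ∈ B, u ≠ v → l ≤ ‖f u - f v‖) :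
    (B.card : ℝ) ≤ (1 + 2 * T / l) ^ n := by
  classical
  have hinj : Set.InjOn f B := by
    intro u hu v hv huv
    by_contra hne
    have := h2 u hu v hv hne
    rw [huv, sub_self, norm_zero] at this
    linarith
  have hc := Pool.Agent.A54.HSBd.card_sep (B.image f) l T hl hT
    (by
      intro x hx
      obtain ⟨u, hu, rfl⟩ := Finset.mem_image.mp hx
      exact h1 u hu)
    (by
      intro x hx y hy hxy
      obtain ⟨u, hu, rfl⟩ := Finset.mem_image.mp hx
      obtain ⟨v, hv, rfl⟩ := Finset.mem_image.mp hy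
      exact h2 u hu v hv fun h => hxy (by rw [h]))
  rw [Finset.card_image_of_injOn hinj] at hc
  simpa using hc

end PkM

open PkM in
theorem tPk (hB : S_Bas) (hK : HSL.Flp.S_Pck) : S_Pk := by
  intro w T l a b B hw hl hlT ha hb hBx hg
  have hT : 0 < T := lt_of_lt_of_le hl hlT
  have hTl : 1 ≤ T / l := (one_le_div hl).mpr hlT
  have hbox := hB.2.2.1
  have hnorm : ∀ u ∈ B, ‖FPckAux.xx w a b u‖ ≤ T := fun u hu => by
    rw [norm_xx w hw]
    exact (hbox w T a b u hw).mp (hBx u hu)
  have hsep : ∀ u ∈ B, ∀ v ∈ B, u ≠ v → l ≤ ‖FPckAux.xx w a b u - FPckAux.xx w a b v‖ := by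
    intro u _ v _ huv
    rw [xx_sub', norm_xx w hw]
    exact hg _ (sub_ne_zero.mpr huv)
  refine ⟨?_, ?_, ?_⟩
  · have h := pack B (FPckAux.xx w a b) l T hl hT.le hnorm hsep
    refine h.trans (pow_le_pow_left₀ (by positivity) ?_ 4)
    have e1 : 2 * T / l = 2 * (T / l) := by ring
    have e2 : 6 * T / l = 6 * (T / l) := by ring
    rw [e1, e2]
    linarith
  · rintro ⟨r, hr, hpl⟩
    -- the linear equation
    set R := fr a b r with hR
    let n : Fin 4 → ℝ := ![R 1 1, R 0 0, -(w * R 1 0), -(w * R 0 1)]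
    have hn : ∃ k, n k ≠ 0 := by
      by_contra hcon
      push Not at hcon
      have h0 : R 1 1 = 0 := hcon 0
      have h1 : R 0 0 = 0 := hcon 1
      have h2 : -(w * R 1 0) = 0 := hcon 2
      have h3 : -(w * R 0 1) = 0 := hcon 3
      have h2' : R 1 0 = 0 := by
        rcases mul_eq_zero.mp (neg_eq_zero.mp h2) with h | h
        · exact absurd h hw.ne'
        · exact h
      have h3' : R 0 1 = 0 := by
        rcases mul_eq_zero.mp (neg_eq_zero.mp h3) with h | h
        · exact absurd h hw.ne'
        · exact h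
      have := hg r hr
      unfold gau at this
      rw [← hR, h0, h1, h2', h3'] at this
      simp at this
      linarith
    obtain ⟨i, hi⟩ := Finite.exists_max (fun k => |n k|)
    have hni : 0 < |n i| := by
      obtain ⟨k, hk⟩ := hn
      exact lt_of_lt_of_le (abs_pos.mpr hk) (hi k)
    have hlin : ∀ u ∈ B, ∀ v ∈ B, ∑ k, n k * FPckAux.xx w a b (u - v) k = 0 := by
      intro u hu v hv
      have h1 : ∀ z : MZ, pl z r = 0 → ∑ k, n k * FPckAux.xx w a b z k = 0 := by
        intro z hz
        have h2 := hB.2.2.2.2.2.2.2.1 a b z r ha hb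
        rw [hz] at h2
        obtain ⟨x0, x1, x2, x3⟩ := xx_apply w a b z
        rw [Fin.sum_univ_four, x0, x1, x2, x3]
        show R 1 1 * fr a b z 0 0 + R 0 0 * fr a b z 1 1 + -(w * R 1 0) * (fr a b z 0 1 / w) +
          -(w * R 0 1) * (fr a b z 1 0 / w) = 0
        have h3 : -(w * R 1 0) * (fr a b z 0 1 / w) = -(R 1 0 * fr a b z 0 1) := by
          field_simp
        have h4 : -(w * R 0 1) * (fr a b z 1 0 / w) = -(R 0 1 * fr a b z 1 0) := by
          field_simp
        rw [h3, h4]
        simp only [plR, Int.cast_zero] at h2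
        linarith
      have h5 : pl (u - v) r = 0 := by
        have e1 := hpl u hu
        have e2 := hpl v hv
        simp only [pl, Matrix.sub_apply] at e1 e2 ⊢
        linear_combination e1 - e2
      exact h1 _ h5
    let f : MZ → Fin 3 → ℝ := fun u k => FPckAux.xx w a b u (i.succAbove k)
    have hfn : ∀ u, ‖f u‖ ≤ ‖FPckAux.xx w a b u‖ := fun u =>
      (pi_norm_le_iff_of_nonneg (norm_nonneg _)).mpr fun k =>
        norm_le_pi_norm (FPckAux.xx w a b u) (i.succAbove k)
    have hkey : ∀ u ∈ B, ∀ v ∈ B, ‖FPckAux.xx w a b (u - v)‖ ≤ 3 * ‖f u - f v‖ := by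
      intro u hu v hv
      have hf : ∀ k, |FPckAux.xx w a b (u - v) (i.succAbove k)| ≤ ‖f u - f v‖ := by
        intro k
        have := norm_le_pi_norm (f u - f v) k
        rw [Real.norm_eq_abs] at this
        rw [FPckAux.xx_sub]
        exact this
      have h0 : 0 ≤ ‖f u - f v‖ := norm_nonneg _
      refine (pi_norm_le_iff_of_nonneg (by positivity)).mpr fun j => ?_
      rw [Real.norm_eq_abs]
      rcases Fin.eq_self_or_eq_succAbove i j with hj | ⟨k, hk⟩
      · rw [hj]
        have h1 := hlin u hu v hv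
        rw [Fin.sum_univ_succAbove _ i] at h1
        have h2 : n i * FPckAux.xx w a b (u - v) i =
            -∑ k, n (i.succAbove k) * FPckAux.xx w a b (u - v) (i.succAbove k) := by linarith
        have h3 : |n i| * |FPckAux.xx w a b (u - v) i| ≤ |n i| * (3 * ‖f u - f v‖) := by
          rw [← abs_mul, h2, abs_neg]
          calc |∑ k, n (i.succAbove k) * FPckAux.xx w a b (u - v) (i.succAbove k)|
              ≤ ∑ k, |n (i.succAbove k) * FPckAux.xx w a b (u - v) (i.succAbove k)| :=
                Finset.abs_sum_le_sum_abs _ _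
            _ ≤ ∑ _k : Fin 3, |n i| * ‖f u - f v‖ := by
                refine Finset.sum_le_sum fun k _ => ?_
                rw [abs_mul]
                exact mul_le_mul (hi _) (hf k) (abs_nonneg _) (abs_nonneg _)
            _ = |n i| * (3 * ‖f u - f v‖) := by
                rw [Finset.sum_const, Finset.card_univ, Fintype.card_fin, nsmul_eq_mul]
                push_cast
                ring
        exact le_of_mul_le_mul_left h3 hni
      · rw [hk]
        exact (hf k).trans (by linarith)
    have h := pack B f (l / 3) T (by positivity) hT.le (fun u hu => (hfn u).trans (hnorm u hu)) (by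
      intro u hu v hv huv
      have h1 := hsep u hu v hv huv
      rw [xx_sub'] at h1
      have h2 := hkey u hu v hv
      linarith)
    refine h.trans (pow_le_pow_left₀ (by positivity) ?_ 3)
    have e1 : 2 * T / (l / 3) = 6 * (T / l) := by field_simp; ring
    have e2 : 10 * T / l = 10 * (T / l) := by ring
    rw [e1, e2]
    linarith
  · intro hnm
    have h := hK a b w T (l / 2) B ha hb hw (by positivity) (by linarith) (fun u hu => hBx u hu) hnm (by
      intro u hu hd
      have h1 : gau w a b u ≤ l / 2 := (hbox w (l / 2) a b u hw).mp hd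
      have h2 := hg u hu
      linarith)
    refine h.trans (le_of_eq ?_)
    field_simp
    ring

end HSB
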