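import Pool.Agent.Lib.HS.Bd.C.Spec

/-!
PROJECT H* (MP_a54f13_nt), high bands, PAIR COUNT: representatives of the lines (`S_Rep`), helper73.
-/

set_option autoImplicit false

namespace HSB

open HSL HSL.Flp Matrix

theorem tRep : S_Rep := by
  classical
  intro e H
  obtain ⟨P, hP, hmax⟩ := Finset.exists_max_image
    (H.powerset.filter (fun P => Sep e P)) (fun P => P.card) ⟨∅, by simp [Sep]⟩
  rw [Finset.mem_filter, Finset.mem_powerset] at hP
  refine ⟨P, hP.1, hP.2, ?_⟩
  intro h hh
  by_contra hcon
  push Not at hcon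
  have hnot : h ∉ P := fun hp => hcon h hp 0 (by simp)
  have hsep : Sep e (insert h P) := by
    intro x hx y hy hxy
    rw [Finset.mem_insert] at hx hy
    obtain ⟨t, ht⟩ := hxy
    rcases hx with rfl | hx
    · rcases hy with rfl | hy
      · rfl
      · exact absurd ht (hcon y hy t)
    · rcases hy with rfl | hy
      · have h2 : y - x = (-t) • e := by rw [neg_smul, ← ht, neg_sub]
        exact absurd h2 (hcon x hx (-t))
      · exact hP.2 x hx y hy ⟨t, ht⟩
  have h1 := hmax (insert h P) (by
    rw [Finset.mem_filter, Finset.mem_powerset]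
    exact ⟨Finset.insert_subset hh hP.1, hsep⟩)
  rw [Finset.card_insert_of_notMem hnot] at h1
  omega

end HSB
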