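import Pool.Agent.Lib.HS.Bd.C.Spec
import Pool.Agent.Lib.MP_640417_ag.All.Divisor

/-!
PROJECT H* (MP_a54f13_nt), high bands, PAIR COUNT, module SN: singular normal (helper80).
-/

set_option autoImplicit false

namespace HSB

open HSL HSL.Flp Matrix

namespace SNM

/-- two parallel integral vectors are multiples of a primitive one -/
lemma aux (x0 x1 y0 y1 : ℤ) (h : x0 ≠ 0 ∨ x1 ≠ 0) (hp : x0 * y1 = x1 * y0) :
    ∃ g k q0 q1 : ℤ, IsCoprime q0 q1 ∧ x0 = g * q0 ∧ x1 = g * q1 ∧ y0 = k * q0 ∧ y1 = k * q1 := by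
  have hg : 0 < Int.gcd x0 x1 := Int.gcd_pos_iff.2 h
  obtain ⟨q0, q1, h1, h2, h3⟩ := Int.exists_gcd_one hg
  have hc : IsCoprime q0 q1 := Int.isCoprime_iff_gcd_eq_one.2 h1
  have hg0 : ((Int.gcd x0 x1 : ℕ) : ℤ) ≠ 0 := by exact_mod_cast hg.ne'
  have h4 : q0 * y1 = q1 * y0 := by
    have : ((Int.gcd x0 x1 : ℕ) : ℤ) * (q0 * y1) = ((Int.gcd x0 x1 : ℕ) : ℤ) * (q1 * y0) := by
      calc ((Int.gcd x0 x1 : ℕ) : ℤ) * (q0 * y1) = (q0 * ((Int.gcd x0 x1 : ℕ) : ℤ)) * y1 := by ring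
        _ = x0 * y1 := by rw [← h2]
        _ = x1 * y0 := hp
        _ = (q1 * ((Int.gcd x0 x1 : ℕ) : ℤ)) * y0 := by rw [← h3]
        _ = ((Int.gcd x0 x1 : ℕ) : ℤ) * (q1 * y0) := by ring
    exact mul_left_cancel₀ hg0 this
  obtain ⟨s, t, hst⟩ := hc
  refine ⟨((Int.gcd x0 x1 : ℕ) : ℤ), s * y0 + t * y1, q0, q1, ⟨s, t, hst⟩, by rw [mul_comm]; exact h2,
    by rw [mul_comm]; exact h3, ?_, ?_⟩
  · have : (s * y0 + t * y1) * q0 = (s * q0 + t * q1) * y0 := by linear_combination t * h4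
    rw [this, hst, one_mul]
  · have : (s * y0 + t * y1) * q1 = (s * q0 + t * q1) * y1 := by linear_combination (-s) * h4
    rw [this, hst, one_mul]

/-- a vector parallel to a primitive one is a multiple -/
lemma par (x0 x1 q0 q1 : ℤ) (hc : IsCoprime q0 q1) (h : x0 * q1 = x1 * q0) :
    ∃ k : ℤ, x0 = k * q0 ∧ x1 = k * q1 := by
  obtain ⟨s, t, hst⟩ := hc
  refine ⟨s * x0 + t * x1, ?_, ?_⟩
  · have : (s * x0 + t * x1) * q0 = (s * q0 + t * q1) * x0 := by linear_combination (-t) * h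
    rw [this, hst, one_mul]
  · have : (s * x0 + t * x1) * q1 = (s * q0 + t * q1) * x1 := by linear_combination s * h
    rw [this, hst, one_mul]

lemma ne_zero {r : MZ} (hr : Prim r) : r ≠ 0 := by
  intro h
  have h2 := hr 2 (fun i j => by rw [h]; simp)
  rw [Int.isUnit_iff] at h2
  omega

/-- a primitive singular matrix is a product of two primitive vectors -/
lemma fac (r : MZ) (hr : Prim r) (hd : r.det = 0) : ∃ p q : Fin 2 → ℤ,
    IsCoprime (p 0) (p 1) ∧ IsCoprime (q 0) (q 1) ∧ ∀ i j, r i j = p i * q j := by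
  rw [Matrix.det_fin_two] at hd
  have key : ∃ g k q0 q1 : ℤ, IsCoprime q0 q1 ∧ r 0 0 = g * q0 ∧ r 0 1 = g * q1 ∧
      r 1 0 = k * q0 ∧ r 1 1 = k * q1 := by
    by_cases h : r 0 0 ≠ 0 ∨ r 0 1 ≠ 0
    · exact aux _ _ _ _ h (by linarith)
    · have h' : r 0 0 = 0 ∧ r 0 1 = 0 := by
        constructor
        · by_contra h3; exact h (Or.inl h3)
        · by_contra h3; exact h (Or.inr h3)
      have h2 : r 1 0 ≠ 0 ∨ r 1 1 ≠ 0 := by
        by_contra h3
        have h4 : r 1 0 = 0 ∧ r 1 1 = 0 := by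
          constructor
          · by_contra h5; exact h3 (Or.inl h5)
          · by_contra h5; exact h3 (Or.inr h5)
        apply ne_zero hr
        ext i j
        fin_cases i <;> fin_cases j
        · exact h'.1
        · exact h'.2
        · exact h4.1
        · exact h4.2
      obtain ⟨g, k, q0, q1, hc, e1, e2, e3, e4⟩ := aux (r 1 0) (r 1 1) (r 0 0) (r 0 1) h2
        (by rw [h'.1, h'.2]; ring)
      exact ⟨k, g, q0, q1, hc, e3, e4, e1, e2⟩
  obtain ⟨g, k, q0, q1, hc, e1, e2, e3, e4⟩ := key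
  refine ⟨![g, k], ![q0, q1], ?_, by simpa using hc, ?_⟩
  · have h5 : IsUnit ((Int.gcd g k : ℕ) : ℤ) := by
      apply hr
      have hg1 : ((Int.gcd g k : ℕ) : ℤ) ∣ g := Int.gcd_dvd_left ..
      have hg2 : ((Int.gcd g k : ℕ) : ℤ) ∣ k := Int.gcd_dvd_right ..
      intro i j
      fin_cases i <;> fin_cases j
      · show _ ∣ r 0 0
        rw [e1]; exact hg1.mul_right _
      · show _ ∣ r 0 1
        rw [e2]; exact hg1.mul_right _
      · show _ ∣ r 1 0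
        rw [e3]; exact hg2.mul_right _
      · show _ ∣ r 1 1
        rw [e4]; exact hg2.mul_right _
    have h6 : Int.gcd g k = 1 := by
      rw [Int.isUnit_iff] at h5
      omega
    simpa using Int.isCoprime_iff_gcd_eq_one.2 h6
  · intro i j
    fin_cases i <;> fin_cases j
    · simpa using e1
    · simpa using e2
    · simpa using e3
    · simpa using e4

/-- the real inequality behind part (a) -/
lemma rl (C w m a0 a1 a2 a3 s0 s1 s2 s3 om : ℝ) (hC : 1 ≤ C) (hw : 0 < w) (hw1 : 2 * C * w ≤ 1)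
    (hm : 0 < m) (h0 : |a0| ≤ C * m) (h2 : |a2| ≤ C * w * m) (h3 : |a3| ≤ C * w * m)
    (hd : a0 * a1 - a2 * a3 = m ^ 2) (hs : s0 * s1 = s2 * s3) (hp : a0 * s1 + a1 * s0 = a2 * s3 + a3 * s2)
    (e2 : |s2| ≤ om) (e3 : |s3| ≤ om) : |s0| ≤ 6 * C ^ 2 * om := by
  have hC0 : 0 < C := by linarith
  have hom : 0 ≤ om := (abs_nonneg _).trans e2
  -- lower bound for `a1`
  have k1 : |a2 * a3| ≤ (C * w * m) * (C * w * m) := by
    rw [abs_mul]; exact mul_le_mul h2 h3 (abs_nonneg _) (by positivity)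
  have k2 : (C * w * m) * (C * w * m) ≤ m ^ 2 / 2 := by
    have h1 : C * w ≤ 1 / 2 := by linarith
    have h4 : 0 ≤ C * w := by positivity
    have h5 : (C * w) * (C * w) ≤ (1 / 2) * (1 / 2) := mul_le_mul h1 h1 h4 (by norm_num)
    have h6 : (C * w * m) * (C * w * m) = ((C * w) * (C * w)) * m ^ 2 := by ring
    rw [h6]
    have h7 : 0 < m ^ 2 := by positivity
    nlinarith
  have k3 : m ^ 2 / 2 ≤ |a0| * |a1| := by
    rw [← abs_mul]
    have h1 := neg_abs_le (a2 * a3)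
    have h4 := le_abs_self (a0 * a1)
    linarith
  have k4 : m ≤ 2 * C * |a1| := by
    have h1 : |a0| * |a1| ≤ (C * m) * |a1| := mul_le_mul_of_nonneg_right h0 (abs_nonneg _)
    have h4 : m * m ≤ m * (2 * C * |a1|) := by nlinarith
    exact le_of_mul_le_mul_left h4 hm
  by_contra hcon
  rw [not_le] at hcon
  have hx : 0 < |s0| := lt_of_le_of_lt (by positivity) hcon
  have hC2 : 1 ≤ C ^ 2 := one_le_pow₀ hC
  have homx : om ≤ |s0| := by nlinarith
  -- the main inequality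
  have j1 : |a1| * |s0| ≤ (C * m) * |s1| + 2 * (C * w * m) * om := by
    have e : a1 * s0 = a2 * s3 + a3 * s2 - a0 * s1 := by linarith
    have h1 : |a1 * s0| ≤ |a2| * |s3| + |a3| * |s2| + |a0| * |s1| := by
      rw [e]
      calc |a2 * s3 + a3 * s2 - a0 * s1| ≤ |a2 * s3 + a3 * s2| + |a0 * s1| := abs_sub _ _
        _ ≤ |a2 * s3| + |a3 * s2| + |a0 * s1| := by linarith [abs_add_le (a2 * s3) (a3 * s2)]
        _ = _ := by rw [abs_mul, abs_mul, abs_mul]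
    rw [abs_mul] at h1
    have h4 : |a2| * |s3| ≤ (C * w * m) * om := mul_le_mul h2 e3 (abs_nonneg _) (by positivity)
    have h5 : |a3| * |s2| ≤ (C * w * m) * om := mul_le_mul h3 e2 (abs_nonneg _) (by positivity)
    have h6 : |a0| * |s1| ≤ (C * m) * |s1| := mul_le_mul_of_nonneg_right h0 (abs_nonneg _)
    linarith
  have j2 : |s1| * |s0| ≤ om ^ 2 := by
    rw [← abs_mul, mul_comm s1 s0, hs, abs_mul, sq]
    exact mul_le_mul e2 e3 (abs_nonneg _) hom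
  have j3 : |a1| * |s0| * |s0| ≤ C * m * om ^ 2 + m * om * |s0| := by
    have h1 := mul_le_mul_of_nonneg_right j1 hx.le
    have h4 : (C * m) * (|s1| * |s0|) ≤ (C * m) * om ^ 2 := mul_le_mul_of_nonneg_left j2 (by positivity)
    have h5 : (2 * C * w) * (m * om * |s0|) ≤ 1 * (m * om * |s0|) :=
      mul_le_mul_of_nonneg_right hw1 (by positivity)
    nlinarith
  have j4 : m * (|s0| * |s0|) ≤ m * (2 * C ^ 2 * om ^ 2 + 2 * C * om * |s0|) := by
    have h1 : m * (|s0| * |s0|) ≤ (2 * C * |a1|) * (|s0| * |s0|) :=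
      mul_le_mul_of_nonneg_right k4 (by positivity)
    have h4 := mul_le_mul_of_nonneg_left j3 (by positivity : (0 : ℝ) ≤ 2 * C)
    nlinarith
  have j5 : |s0| * |s0| ≤ 2 * C ^ 2 * om ^ 2 + 2 * C * om * |s0| := le_of_mul_le_mul_left j4 hm
  have j6 : 2 * C ^ 2 * om ^ 2 ≤ 2 * C ^ 2 * (om * |s0|) := by
    have : om ^ 2 ≤ om * |s0| := by rw [sq]; exact mul_le_mul_of_nonneg_left homx hom
    exact mul_le_mul_of_nonneg_left this (by positivity)
  have j7 : 2 * C * om * |s0| ≤ 2 * C ^ 2 * (om * |s0|) := by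
    have h1 : C ≤ C ^ 2 := by nlinarith
    have h4 : 0 ≤ om * |s0| := by positivity
    nlinarith [mul_le_mul_of_nonneg_right h1 h4]
  have j8 : 6 * C ^ 2 * om * |s0| < |s0| * |s0| := mul_lt_mul_of_pos_right hcon hx
  have j9 : 0 ≤ C ^ 2 * (om * |s0|) := by positivity
  nlinarith

/-- part (a) -/
lemma low (hB : S_Bas) {R C w m : ℝ} {a b : MR} {h r : MZ} (hC : 1 ≤ C) (hw : 0 < w)
    (hw1 : 2 * C * w ≤ 1) (ha : Um R a) (hb : Um R b) (hr0 : r ≠ 0) (hrd : r.det = 0)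
    (hdet : ((h.det : ℤ) : ℝ) = m ^ 2) (hm : 0 < m) (hN : Near C w m (fr a b h)) (hpl : pl h r = 0) :
    1 ≤ 24 * C ^ 2 * R ^ 2 * max |fr a b r 0 1| |fr a b r 1 0| := by
  obtain ⟨b1, b2, b3, b4, b5, b6, b7, b8, b9, b10, b11⟩ := hB
  obtain ⟨n1, n2, n3, n4⟩ := hN
  have e1 := b8 a b h h ha.1 hb.1
  have e2 := b8 a b r r ha.1 hb.1
  have e3 := b8 a b h r ha.1 hb.1
  rw [pl_self, Int.cast_mul, hdet, Int.cast_ofNat] at e1
  rw [pl_self, hrd, mul_zero, Int.cast_zero] at e2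
  rw [hpl, Int.cast_zero] at e3
  simp only [plR] at e1 e2 e3
  set om := max |fr a b r 0 1| |fr a b r 1 0| with hom
  have o1 : |fr a b r 0 1| ≤ om := le_max_left _ _
  have o2 : |fr a b r 1 0| ≤ om := le_max_right _ _
  have hom0 : 0 ≤ om := (abs_nonneg _).trans o1
  have d0 : |fr a b r 0 0| ≤ 6 * C ^ 2 * om :=
    rl C w m (fr a b h 0 0) (fr a b h 1 1) (fr a b h 0 1) (fr a b h 1 0) (fr a b r 0 0) (fr a b r 1 1)
      (fr a b r 0 1) (fr a b r 1 0) om hC hw hw1 hm n1 n3 n4 (by linarith) (by linarith) (by linarith) o1 o2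
  have d1 : |fr a b r 1 1| ≤ 6 * C ^ 2 * om :=
    rl C w m (fr a b h 1 1) (fr a b h 0 0) (fr a b h 0 1) (fr a b h 1 0) (fr a b r 1 1) (fr a b r 0 0)
      (fr a b r 0 1) (fr a b r 1 0) om hC hw hw1 hm n2 n3 n4 (by linarith) (by linarith) (by linarith) o1 o2
  have hC2 : 1 ≤ C ^ 2 := one_le_pow₀ hC
  have o3 : om ≤ 6 * C ^ 2 * om := by nlinarith
  have hmem : r ∈ Bx 1 (6 * C ^ 2 * om) a b :=
    ⟨d0, d1, by rw [one_mul]; exact o1.trans o3, by rw [one_mul]; exact o2.trans o3⟩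
  have h7 := b7 R 1 (6 * C ^ 2 * om) a b r one_pos le_rfl ha hb hr0 hmem
  linarith

/-- part (b) -/
lemma tz (hB : S_Bas) {R C B w K : ℝ} {a b : MR} {h h' r : MZ} (t : ℤ) (hC : 1 ≤ C)
    (hw : 0 < w) (hwK : 100 * C ^ 3 * R ^ 2 * B * (w * K) ≤ 1)
    (hlow : 1 ≤ 24 * C ^ 2 * R ^ 2 * max |fr a b r 0 1| |fr a b r 1 0|)
    (hh : SqR C B w K a b h) (hh' : SqR C B w K a b h') (ht : h - h' = t • r) : h = h' := by
  obtain ⟨b1, b2, b3, b4, b5, b6, b7, b8, b9, b10, b11⟩ := hB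
  have hbox : ∀ x : MZ, SqR C B w K a b x → x ∈ Bx w (C * B * K) a b := by
    rintro x ⟨_, m, _, hm2, _, _, n1, n2, n3, n4⟩
    have hc : C * (m : ℝ) ≤ C * B * K := by
      calc C * (m : ℝ) ≤ C * (B * K) := mul_le_mul_of_nonneg_left hm2 (by linarith)
        _ = _ := by ring
    have hc2 : C * w * (m : ℝ) ≤ w * (C * B * K) := by
      calc C * w * (m : ℝ) = w * (C * (m : ℝ)) := by ring
        _ ≤ _ := mul_le_mul_of_nonneg_left hc hw.le
    exact ⟨n1.trans hc, n2.trans hc, n3.trans hc2, n4.trans hc2⟩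
  have h1 := (b4 w (C * B * K) (C * B * K) a b h h' (hbox h hh) (hbox h' hh')).2
  rw [ht] at h1
  obtain ⟨_, _, h2, h3⟩ := h1
  rw [b2 a b t r] at h2 h3
  simp only [Matrix.smul_apply, smul_eq_mul, abs_mul] at h2 h3
  by_cases ht0 : t = 0
  · rw [ht0, zero_smul] at ht
    exact sub_eq_zero.1 ht
  · exfalso
    have ht1 : (1 : ℝ) ≤ |(t : ℝ)| := by
      have : (1 : ℤ) ≤ |t| := Int.one_le_abs ht0
      rw [← Int.cast_abs]
      exact_mod_cast this
    have h4 : max |fr a b r 0 1| |fr a b r 1 0| ≤ w * (C * B * K + C * B * K) := by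
      apply max_le
      · have := mul_le_mul_of_nonneg_right ht1 (abs_nonneg (fr a b r 0 1))
        linarith
      · have := mul_le_mul_of_nonneg_right ht1 (abs_nonneg (fr a b r 1 0))
        linarith
    have h5 : 24 * C ^ 2 * R ^ 2 * max |fr a b r 0 1| |fr a b r 1 0| ≤
        24 * C ^ 2 * R ^ 2 * (w * (C * B * K + C * B * K)) :=
      mul_le_mul_of_nonneg_left h4 (by positivity)
    have h6 : 24 * C ^ 2 * R ^ 2 * (w * (C * B * K + C * B * K)) =
        48 / 100 * (100 * C ^ 3 * R ^ 2 * B * (w * K)) := by ring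
    rw [h6] at h5
    linarith

/-- part (c) -/
lemma cc {h r : MZ} {m : ℕ} {p q : Fin 2 → ℤ} (hm : 0 < m) (hd : h.det = (m : ℤ) ^ 2)
    (hp : IsCoprime (p 0) (p 1)) (hq : IsCoprime (q 0) (q 1)) (hr : ∀ i j, r i j = p i * q j)
    (hpl : pl h r = 0) : ∃ c : ℤ, h 0 1 * q 0 - h 0 0 * q 1 = c * p 0 ∧
      h 1 1 * q 0 - h 1 0 * q 1 = c * p 1 ∧ c ≠ 0 ∧ c ∣ (m : ℤ) ^ 2 := by
  simp only [pl, hr] at hpl
  rw [Matrix.det_fin_two] at hd
  obtain ⟨c, h1, h2⟩ := par (h 0 1 * q 0 - h 0 0 * q 1) (h 1 1 * q 0 - h 1 0 * q 1) (p 0) (p 1) hp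
    (by linear_combination (-1) * hpl)
  have h3 : (m : ℤ) ^ 2 * q 1 = c * (-(h 1 1 * p 0 - h 0 1 * p 1)) := by
    linear_combination (-q 1) * hd - h 1 1 * h1 + h 0 1 * h2
  have h4 : (m : ℤ) ^ 2 * q 0 = c * (-(h 1 0 * p 0) + h 0 0 * p 1) := by
    linear_combination (-q 0) * hd - h 1 0 * h1 + h 0 0 * h2
  obtain ⟨s, t, hst⟩ := hq
  have h5 : (m : ℤ) ^ 2 = c * (s * (-(h 1 0 * p 0) + h 0 0 * p 1) + t * (-(h 1 1 * p 0 - h 0 1 * p 1))) := by
    calc (m : ℤ) ^ 2 = (m : ℤ) ^ 2 * (s * q 0 + t * q 1) := by rw [hst, mul_one]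
      _ = s * ((m : ℤ) ^ 2 * q 0) + t * ((m : ℤ) ^ 2 * q 1) := by ring
      _ = _ := by rw [h3, h4]; ring
  have hm2 : (m : ℤ) ^ 2 ≠ 0 := by positivity
  refine ⟨c, h1, h2, ?_, ⟨_, h5⟩⟩
  intro hc
  rw [hc, zero_mul] at h5
  exact hm2 h5

/-- part (d) -/
lemma dd {h h' r : MZ} {m : ℕ} {p q : Fin 2 → ℤ} {c : ℤ} (hd : h.det = (m : ℤ) ^ 2)
    (hd' : h'.det = (m : ℤ) ^ 2)
    (hp : IsCoprime (p 0) (p 1)) (hq : IsCoprime (q 0) (q 1)) (hr : ∀ i j, r i j = p i * q j) (hc : c ≠ 0)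
    (h1 : h 0 1 * q 0 - h 0 0 * q 1 = c * p 0) (h2 : h 1 1 * q 0 - h 1 0 * q 1 = c * p 1)
    (h1' : h' 0 1 * q 0 - h' 0 0 * q 1 = c * p 0) (h2' : h' 1 1 * q 0 - h' 1 0 * q 1 = c * p 1) :
    ∃ t : ℤ, h - h' = t • r := by
  rw [Matrix.det_fin_two] at hd hd'
  obtain ⟨s0, a1, a2⟩ := par (h 0 0 - h' 0 0) (h 0 1 - h' 0 1) (q 0) (q 1) hq (by linarith)
  obtain ⟨s1, a3, a4⟩ := par (h 1 0 - h' 1 0) (h 1 1 - h' 1 1) (q 0) (q 1) hq (by linarith)
  have h3 : (m : ℤ) ^ 2 * q 1 = c * (-(h 1 1 * p 0 - h 0 1 * p 1)) := by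
    linear_combination (-q 1) * hd - h 1 1 * h1 + h 0 1 * h2
  have h4 : (m : ℤ) ^ 2 * q 0 = c * (-(h 1 0 * p 0) + h 0 0 * p 1) := by
    linear_combination (-q 0) * hd - h 1 0 * h1 + h 0 0 * h2
  have h3' : (m : ℤ) ^ 2 * q 1 = c * (-(h' 1 1 * p 0 - h' 0 1 * p 1)) := by
    linear_combination (-q 1) * hd' - h' 1 1 * h1' + h' 0 1 * h2'
  have h4' : (m : ℤ) ^ 2 * q 0 = c * (-(h' 1 0 * p 0) + h' 0 0 * p 1) := by
    linear_combination (-q 0) * hd' - h' 1 0 * h1' + h' 0 0 * h2'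
  have e1 : (h 1 1 - h' 1 1) * p 0 = (h 0 1 - h' 0 1) * p 1 := by
    have := mul_left_cancel₀ hc (h3.symm.trans h3')
    linarith
  have e2 : (h 1 0 - h' 1 0) * p 0 = (h 0 0 - h' 0 0) * p 1 := by
    have := mul_left_cancel₀ hc (h4.symm.trans h4')
    linarith
  rw [a2, a4] at e1
  rw [a1, a3] at e2
  have e3 : s0 * p 1 = s1 * p 0 := by
    obtain ⟨s, t, hst⟩ := hq
    calc s0 * p 1 = (s * q 0 + t * q 1) * (s0 * p 1) := by rw [hst, one_mul]
      _ = (s * q 0 + t * q 1) * (s1 * p 0) := by linear_combination (-s) * e2 - t * e1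
      _ = s1 * p 0 := by rw [hst, one_mul]
  obtain ⟨t, b1, b2⟩ := par s0 s1 (p 0) (p 1) hp e3
  refine ⟨t, ?_⟩
  ext i j
  rw [Matrix.sub_apply, Matrix.smul_apply, smul_eq_mul, hr]
  fin_cases i <;> fin_cases j
  · show h 0 0 - h' 0 0 = t * (p 0 * q 0)
    rw [a1, b1]; ring
  · show h 0 1 - h' 0 1 = t * (p 0 * q 1)
    rw [a2, b1]; ring
  · show h 1 0 - h' 1 0 = t * (p 1 * q 0)
    rw [a3, b2]; ring
  · show h 1 1 - h' 1 1 = t * (p 1 * q 1)
    rw [a4, b2]; ring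

end SNM

open SNM in
/-- SN. Singular normal. -/
theorem tSN (hB : S_Bas) (hP : S_Prm) : S_SN := by
  intro R C B ε hR hC hB1 hε
  obtain ⟨C2, hC2, hdiv⟩ := Pool.Agent.Lib.MP_640417_ag.All.divisor_bound (ε / 2) (by positivity)
  have hBp : (0 : ℝ) < B ^ (1 + ε) := Real.rpow_pos_of_pos (by linarith) _
  have hCR : 1 ≤ C ^ 3 * R ^ 2 * B := by
    have h1 : 1 ≤ C ^ 3 := one_le_pow₀ hC
    have h2 : 1 ≤ R ^ 2 := one_le_pow₀ hR
    exact one_le_mul_of_one_le_of_one_le (one_le_mul_of_one_le_of_one_le h1 h2) hB1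
  have hCC : C ≤ C ^ 3 * R ^ 2 * B := by
    have h1 : C ≤ C ^ 3 := by
      calc C = C ^ 1 := (pow_one C).symm
        _ ≤ C ^ 3 := pow_le_pow_right₀ hC (by norm_num)
    have h2 : 1 ≤ R ^ 2 := one_le_pow₀ hR
    have h3 : C ^ 3 ≤ C ^ 3 * R ^ 2 := le_mul_of_one_le_right (by positivity) h2
    have h4 : C ^ 3 * R ^ 2 ≤ C ^ 3 * R ^ 2 * B := le_mul_of_one_le_right (by positivity) hB1
    linarith
  refine ⟨100 * (C ^ 3 * R ^ 2 * B) + 2 * C2 * B ^ (1 + ε), ?_, ?_⟩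
  · have : 0 < 2 * C2 * B ^ (1 + ε) := by positivity
    linarith
  intro w K a b r H hw hK hwK ha hb hr hrd hH
  have hK0 : 0 < K := by linarith
  have hwK0 : 0 < w * K := by positivity
  have hwK1 : 100 * C ^ 3 * R ^ 2 * B * (w * K) ≤ 1 := by
    have h1 : 0 ≤ 2 * C2 * B ^ (1 + ε) * (w * K) := by positivity
    have h2 : (100 * (C ^ 3 * R ^ 2 * B) + 2 * C2 * B ^ (1 + ε)) * w * K =
        100 * C ^ 3 * R ^ 2 * B * (w * K) + 2 * C2 * B ^ (1 + ε) * (w * K) := by ring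
    linarith
  have hw1 : 2 * C * w ≤ 1 := by
    have h1 : w ≤ w * K := le_mul_of_one_le_right hw.le hK
    have h2 : 2 * C * w ≤ 100 * (C ^ 3 * R ^ 2 * B) * (w * K) :=
      mul_le_mul (by linarith) h1 hw.le (by positivity)
    linarith
  rcases H.eq_empty_or_nonempty with hem | ⟨h0, hh0⟩
  · rw [hem]
    simp only [Finset.card_empty, Nat.cast_zero]
    positivity
  have hlow : 1 ≤ 24 * C ^ 2 * R ^ 2 * max |fr a b r 0 1| |fr a b r 1 0| := by
    obtain ⟨⟨_, m, _, _, hd, hm, hN⟩, hpl⟩ := hH h0 hh0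
    exact low hB hC hw hw1 ha hb (ne_zero hr) hrd (by rw [hd]; push_cast; ring)
      (by exact_mod_cast hm) hN hpl
  obtain ⟨p, q, hp, hq, hpq⟩ := fac r hr hrd
  -- the data of the elements
  have hdat : ∀ h : MZ, ∃ mc : ℕ × ℤ, h ∈ H → 0 < mc.1 ∧ (mc.1 : ℝ) ≤ B * K ∧ h.det = (mc.1 : ℤ) ^ 2 ∧
      h 0 1 * q 0 - h 0 0 * q 1 = mc.2 * p 0 ∧ h 1 1 * q 0 - h 1 0 * q 1 = mc.2 * p 1 ∧ mc.2 ≠ 0 ∧
      mc.2 ∣ (mc.1 : ℤ) ^ 2 := by
    intro h
    by_cases hh : h ∈ H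
    · obtain ⟨⟨_, m, _, hm2, hd, hm, hN⟩, hpl⟩ := hH h hh
      obtain ⟨c, c1, c2, c3, c4⟩ := cc hm hd hp hq hpq hpl
      exact ⟨(m, c), fun _ => ⟨hm, hm2, hd, c1, c2, c3, c4⟩⟩
    · exact ⟨(0, 0), fun h1 => absurd h1 hh⟩
  choose f hf using hdat
  have hinj : ∀ h ∈ H, ∀ h' ∈ H, f h = f h' → h = h' := by
    intro h hh h' hh' he
    obtain ⟨_, _, d1, c1, c2, c3, _⟩ := hf h hh
    obtain ⟨_, _, d1', c1', c2', _, _⟩ := hf h' hh'
    rw [← he] at d1' c1' c2'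
    obtain ⟨t, ht⟩ := dd d1 d1' hp hq hpq c3 c1 c2 c1' c2'
    exact tz hB t hC hw hwK1 hlow (hH h hh).1 (hH h' hh').1 ht
  -- fibres
  have hfib : ∀ h0 ∈ H, ((H.filter (fun h => (f h).1 = (f h0).1)).card : ℝ) ≤ 2 * C2 * (B * K) ^ ε := by
    intro h0 hh0
    obtain ⟨m1, m2, _, _, _, _, _⟩ := hf h0 hh0
    set n : ℕ := (f h0).1 ^ 2 with hn
    have hnpos : 0 < n := by positivity
    have hc0 : (H.filter (fun h => (f h).1 = (f h0).1)).card =
        ((H.filter (fun h => (f h).1 = (f h0).1)).image (fun h => (f h).2)).card := by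
      rw [Finset.card_image_of_injOn]
      intro x hx y hy hxy
      have hx' := Finset.mem_filter.1 hx
      have hy' := Finset.mem_filter.1 hy
      exact hinj x hx'.1 y hy'.1 (Prod.ext (hx'.2.trans hy'.2.symm) hxy)
    have hsub : ((H.filter (fun h => (f h).1 = (f h0).1)).image (fun h => (f h).2)) ⊆
        (n.divisors.image (fun d : ℕ => (d : ℤ))) ∪ (n.divisors.image (fun d : ℕ => -(d : ℤ))) := by
      intro c hc
      obtain ⟨h, hh, rfl⟩ := Finset.mem_image.1 hc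
      have hh' := Finset.mem_filter.1 hh
      obtain ⟨_, _, _, _, _, _, c4⟩ := hf h hh'.1
      rw [hh'.2] at c4
      have hd2 : (f h).2.natAbs ∣ n := Int.natCast_dvd_natCast.1 (by
        rw [Int.natCast_natAbs, hn]
        push_cast
        exact (abs_dvd _ _).2 c4)
      have hm : (f h).2.natAbs ∈ n.divisors := Nat.mem_divisors.2 ⟨hd2, hnpos.ne'⟩
      rw [Finset.mem_union]
      rcases Int.natAbs_eq (f h).2 with h1 | h1
      · left
        exact Finset.mem_image.2 ⟨_, hm, h1.symm⟩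
      · right
        exact Finset.mem_image.2 ⟨_, hm, h1.symm⟩
    have hc1 := (Finset.card_le_card hsub).trans (Finset.card_union_le _ _)
    have a1 : (n.divisors.image (fun d : ℕ => (d : ℤ))).card ≤ n.divisors.card := Finset.card_image_le
    have a2 : (n.divisors.image (fun d : ℕ => -(d : ℤ))).card ≤ n.divisors.card := Finset.card_image_le
    have hc2 : (H.filter (fun h => (f h).1 = (f h0).1)).card ≤ 2 * n.divisors.card := by
      rw [hc0]; omega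
    have hc3 : ((H.filter (fun h => (f h).1 = (f h0).1)).card : ℝ) ≤ 2 * (n.divisors.card : ℝ) := by
      exact_mod_cast hc2
    have hc4 := hdiv n hnpos
    have hm0 : (0 : ℝ) ≤ ((f h0).1 : ℝ) := Nat.cast_nonneg _
    have hc5 : (n : ℝ) ^ (ε / 2) ≤ (B * K) ^ ε := by
      calc (n : ℝ) ^ (ε / 2) ≤ ((B * K) ^ 2) ^ (ε / 2) := by
            apply Real.rpow_le_rpow (by positivity) _ (by positivity)
            rw [hn]
            push_cast
            exact pow_le_pow_left₀ hm0 m2 2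
        _ = (B * K) ^ ε := by
            rw [← Real.rpow_natCast, ← Real.rpow_mul (by positivity)]
            congr 1
            push_cast
            ring
    calc ((H.filter (fun h => (f h).1 = (f h0).1)).card : ℝ) ≤ 2 * (n.divisors.card : ℝ) := hc3
      _ ≤ 2 * (C2 * (n : ℝ) ^ (ε / 2)) := by linarith
      _ ≤ 2 * (C2 * (B * K) ^ ε) := by
          have := mul_le_mul_of_nonneg_left hc5 hC2.le
          linarith
      _ = _ := by ring
  -- the number of fibres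
  have him : ((H.image (fun h => (f h).1)).card : ℝ) ≤ B * K := by
    have hs : H.image (fun h => (f h).1) ⊆ Finset.Icc 1 ⌊B * K⌋₊ := by
      intro m hm
      obtain ⟨h, hh, rfl⟩ := Finset.mem_image.1 hm
      obtain ⟨m1, m2, _⟩ := hf h hh
      exact Finset.mem_Icc.2 ⟨m1, Nat.le_floor m2⟩
    have h1 := Finset.card_le_card hs
    rw [Nat.card_Icc, Nat.add_sub_cancel] at h1
    have h2 : ((H.image (fun h => (f h).1)).card : ℝ) ≤ (⌊B * K⌋₊ : ℝ) := by exact_mod_cast h1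
    exact h2.trans (Nat.floor_le (by positivity))
  have hfib2 : ∀ m ∈ H.image (fun h => (f h).1),
      (H.filter (fun h => (f h).1 = m)).card ≤ ⌊2 * C2 * (B * K) ^ ε⌋₊ := by
    intro m hm
    obtain ⟨h, hh, rfl⟩ := Finset.mem_image.1 hm
    exact Nat.le_floor (hfib h hh)
  have hcard := Finset.card_le_mul_card_image (f := fun h : MZ => (f h).1) H _ hfib2
  have hBK : (B * K) ^ ε * (B * K) = B ^ (1 + ε) * K ^ (1 + ε) := by
    rw [← Real.mul_rpow (by linarith) hK0.le, Real.rpow_add (by positivity), Real.rpow_one, mul_comm]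
  calc (H.card : ℝ) ≤ ((⌊2 * C2 * (B * K) ^ ε⌋₊ * (H.image (fun h => (f h).1)).card : ℕ) : ℝ) := by
        exact_mod_cast hcard
    _ = (⌊2 * C2 * (B * K) ^ ε⌋₊ : ℝ) * ((H.image (fun h => (f h).1)).card : ℝ) := by push_cast; ring
    _ ≤ (2 * C2 * (B * K) ^ ε) * (B * K) :=
        mul_le_mul (Nat.floor_le (by positivity)) him (Nat.cast_nonneg _) (by positivity)
    _ = 2 * C2 * ((B * K) ^ ε * (B * K)) := by ring
    _ = 2 * C2 * (B ^ (1 + ε) * K ^ (1 + ε)) := by rw [hBK]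
    _ ≤ (100 * (C ^ 3 * R ^ 2 * B) + 2 * C2 * B ^ (1 + ε)) * K ^ (1 + ε) := by
        have h1 : 0 ≤ 100 * (C ^ 3 * R ^ 2 * B) * K ^ (1 + ε) := by positivity
        linarith

end HSB
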