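import Pool.Agent.Lib.HS.Bd.C.Spec

/-!
PROJECT H* (MP_a54f13_nt), high bands, module SNq (helper65): a common pair of rational directions.
-/

set_option autoImplicit false

namespace HSB

open HSL HSL.Flp Matrix

namespace SNqM

/-- the rank one matrix of a pair of directions -/
def r0 (qa qb : Fin 2 → ℤ) : MZ :=
  !![qb 0 * qa 1, - (qb 0 * qa 0); qb 1 * qa 1, - (qb 1 * qa 0)]

theorem r0_det (qa qb : Fin 2 → ℤ) : (r0 qa qb).det = 0 := by
  rw [Matrix.det_fin_two]
  simp only [r0, Matrix.of_apply, Matrix.cons_val', Matrix.cons_val_zero, Matrix.cons_val_one,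
    Matrix.cons_val_fin_one]
  ring

theorem pl_r0 (qa qb : Fin 2 → ℤ) (h : MZ) (hh : (h *ᵥ qa) 0 * qb 1 = (h *ᵥ qa) 1 * qb 0) :
    pl h (r0 qa qb) = 0 := by
  have h1 : (h *ᵥ qa) 0 = h 0 0 * qa 0 + h 0 1 * qa 1 := by
    simp [Matrix.mulVec, dotProduct, Fin.sum_univ_two]
  have h2 : (h *ᵥ qa) 1 = h 1 0 * qa 0 + h 1 1 * qa 1 := by
    simp [Matrix.mulVec, dotProduct, Fin.sum_univ_two]
  rw [h1, h2] at hh
  unfold pl
  simp only [r0, Matrix.of_apply, Matrix.cons_val', Matrix.cons_val_zero, Matrix.cons_val_one,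
    Matrix.cons_val_fin_one]
  linear_combination (-1 : ℤ) * hh

theorem r0_ne (qa qb : Fin 2 → ℤ) (ha : qa ≠ 0) (hb : qb ≠ 0) : r0 qa qb ≠ 0 := by
  intro h0
  obtain ⟨i, hi⟩ := Function.ne_iff.mp ha
  obtain ⟨j, hj⟩ := Function.ne_iff.mp hb
  simp only [Pi.zero_apply] at hi hj
  have e00 : qb 0 * qa 1 = 0 := by
    have := congrFun (congrFun h0 0) 0
    simpa [r0] using this
  have e01 : qb 0 * qa 0 = 0 := by
    have := congrFun (congrFun h0 0) 1
    simpa [r0] using this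
  have e10 : qb 1 * qa 1 = 0 := by
    have := congrFun (congrFun h0 1) 0
    simpa [r0] using this
  have e11 : qb 1 * qa 0 = 0 := by
    have := congrFun (congrFun h0 1) 1
    simpa [r0] using this
  have hprod : qb j * qa i = 0 := by
    fin_cases i <;> fin_cases j
    · exact e01
    · exact e11
    · exact e00
    · exact e10
  exact mul_ne_zero hj hi hprod

theorem pl_smul (h u : MZ) (n : ℤ) : pl h (n • u) = n * pl h u := by
  unfold pl
  simp only [Matrix.smul_apply, smul_eq_mul]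
  ring

end SNqM

theorem tSNq (hP : S_Prm) (hS : S_SN) : S_SNq := by
  intro R C B ε hR hC hB hε
  obtain ⟨C1, hC1, h1⟩ := hS R C B ε hR hC hB hε
  refine ⟨C1, hC1, ?_⟩
  intro w K a b qa qb H hw hK hwK ha hb hqa hqb hH
  obtain ⟨n, u', hn, hu, hprim, _, _, _⟩ := hP.1 (SNqM.r0 qa qb) (SNqM.r0_ne qa qb hqa hqb)
  have hdet : u'.det = 0 := by
    have h2 := SNqM.r0_det qa qb
    rw [hu, Matrix.det_smul, Fintype.card_fin] at h2
    rcases mul_eq_zero.mp h2 with h3 | h3
    · have h4 : n = 0 := by simpa using h3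
      omega
    · exact h3
  refine h1 w K a b u' H hw hK hwK ha hb hprim hdet ?_
  intro h hh
  refine ⟨(hH h hh).1, ?_⟩
  have h2 := SNqM.pl_r0 qa qb h (hH h hh).2
  rw [hu, SNqM.pl_smul] at h2
  rcases mul_eq_zero.mp h2 with h3 | h3
  · omega
  · exact h3

end HSB
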