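import Pool.Agent.Lib.HS.Bd.C.Spec

/-!
PROJECT H* (MP_a54f13_nt), high bands, PAIR COUNT, module Shf: lines against points.
-/

set_option autoImplicit false

namespace HSB

open HSL HSL.Flp Matrix

namespace ShfM

/-- a multiple of an element of the box -/
theorem smul_box (hB : S_Bas) {w T lam : ℝ} {a b : MR} {e : MZ} (hw : 0 < w) (he : e ∈ Bx w lam a b)
    {t : ℕ} (ht : (t : ℝ) * lam ≤ T) : (t : ℤ) • e ∈ Bx w T a b := by
  have h1 := hB.2.1 a b (t : ℤ) e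
  have h2 : ∀ i j, |fr a b ((t : ℤ) • e) i j| = (t : ℝ) * |fr a b e i j| := by
    intro i j
    rw [h1, Matrix.smul_apply, smul_eq_mul, Int.cast_natCast, abs_mul, abs_of_nonneg (Nat.cast_nonneg t)]
  have ht0 : (0 : ℝ) ≤ (t : ℝ) := Nat.cast_nonneg t
  obtain ⟨h3, h4, h5, h6⟩ := he
  have h7 : (t : ℝ) * (w * lam) ≤ w * T := by
    calc (t : ℝ) * (w * lam) = w * ((t : ℝ) * lam) := by ring
      _ ≤ w * T := mul_le_mul_of_nonneg_left ht hw.le
  refine ⟨?_, ?_, ?_, ?_⟩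
  · rw [h2]
    exact (mul_le_mul_of_nonneg_left h3 ht0).trans ht
  · rw [h2]
    exact (mul_le_mul_of_nonneg_left h4 ht0).trans ht
  · rw [h2]
    exact (mul_le_mul_of_nonneg_left h5 ht0).trans h7
  · rw [h2]
    exact (mul_le_mul_of_nonneg_left h6 ht0).trans h7

end ShfM

open ShfM in
theorem tShf (hB : S_Bas) : S_Shf := by
  intro w T lam a b e P B hw hlam hlT he heB hP hS hBB
  have hn1 : T / lam ≤ ((⌊T / lam⌋₊ + 1 : ℕ) : ℝ) := by
    push_cast
    exact (Nat.lt_floor_add_one _).le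
  have hT0 : 0 ≤ T / lam := div_nonneg (hlam.le.trans hlT) hlam.le
  have hcard : (P ×ˢ Finset.range (⌊T / lam⌋₊ + 1)).card ≤ B.card := by
    refine Finset.card_le_card_of_injOn (fun v => v.1 + (v.2 : ℤ) • e) ?_ ?_
    · intro v hv
      obtain ⟨hv1, hv2⟩ := Finset.mem_product.1 (Finset.mem_coe.1 hv)
      rw [Finset.mem_range, Nat.lt_succ_iff] at hv2
      have h1 : (v.2 : ℝ) ≤ T / lam := (Nat.cast_le.2 hv2).trans (Nat.floor_le hT0)
      have h2 : (v.2 : ℝ) * lam ≤ T := (le_div_iff₀ hlam).1 h1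
      have h3 := (hB.2.2.2.1 w T T a b v.1 ((v.2 : ℤ) • e) (hP v.1 hv1) (smul_box hB hw heB h2)).1
      rw [← two_mul] at h3
      exact Finset.mem_coe.2 (hBB _ h3)
    · intro v hv v' hv' hvv
      obtain ⟨hv1, -⟩ := Finset.mem_product.1 (Finset.mem_coe.1 hv)
      obtain ⟨hv1', -⟩ := Finset.mem_product.1 (Finset.mem_coe.1 hv')
      have hvv' : v.1 + (v.2 : ℤ) • e = v'.1 + (v'.2 : ℤ) • e := hvv
      have h1 : v.1 = v'.1 := by
        refine hS v.1 hv1 v'.1 hv1' ⟨(v'.2 : ℤ) - (v.2 : ℤ), ?_⟩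
        rw [sub_smul]
        exact sub_eq_sub_iff_add_eq_add.2 (by rw [hvv']; exact add_comm _ _)
      have h2 : (v.2 : ℤ) • e = (v'.2 : ℤ) • e := by
        rw [h1] at hvv'
        exact add_left_cancel hvv'
      have h3 : (v.2 : ℤ) = (v'.2 : ℤ) := smul_left_injective ℤ he h2
      exact Prod.ext h1 (by exact_mod_cast h3)
  rw [Finset.card_product, Finset.card_range] at hcard
  have h4 : (P.card : ℝ) * ((⌊T / lam⌋₊ + 1 : ℕ) : ℝ) ≤ (B.card : ℝ) := by exact_mod_cast hcard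
  have h5 : (P.card : ℝ) * (T / lam) ≤ (B.card : ℝ) :=
    (mul_le_mul_of_nonneg_left hn1 (Nat.cast_nonneg _)).trans h4
  calc (P.card : ℝ) * T = lam * ((P.card : ℝ) * (T / lam)) := by
        field_simp
    _ ≤ lam * (B.card : ℝ) := mul_le_mul_of_nonneg_left h5 hlam.le

end HSB
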