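import Pool.Agent.Lib.HS.Bd.C.Spec

/-!
PROJECT H* (MP_a54f13_nt), high bands, PAIR COUNT, module Vol3 (spec helper51): the number of integral matrices in a
gauge box which lie in a hyperplane orthogonal to a primitive matrix and span it.
-/

set_option autoImplicit false

namespace HSB

open HSL HSL.Flp Matrix

namespace Vol3M

/-- Cramer's rule for the four-linear form `pl x (nm u v t)` -/
lemma cramer (u v t x s : MZ) :
    pl x (nm u v t) • s = pl x (nm s v t) • u + pl x (nm u s t) • v + pl x (nm u v s) • t + pl s (nm u v t) • x := by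
  ext i j
  simp only [Matrix.add_apply, Matrix.smul_apply, smul_eq_mul]
  fin_cases i <;> fin_cases j <;> simp [nm, pl, dt3] <;> ring

lemma pl_smul_right (s r : MZ) (k : ℤ) : pl s (k • r) = k * pl s r := by
  simp only [pl, Matrix.smul_apply, smul_eq_mul]
  ring

lemma size_aux {w T Z j R : ℝ} (hw : 0 < w) (hj : 0 ≤ j) (hR : w * Z < |R|) (h : j * |R| ≤ 6 * w ^ 2 * T ^ 3) :
    j * Z ≤ 6 * w * T ^ 3 := by
  have h1 : j * (w * Z) ≤ j * |R| := mul_le_mul_of_nonneg_left hR.le hj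
  have h2 : w * (j * Z) ≤ w * (6 * w * T ^ 3) := by
    calc w * (j * Z) = j * (w * Z) := by ring
      _ ≤ j * |R| := h1
      _ ≤ 6 * w ^ 2 * T ^ 3 := h
      _ = w * (6 * w * T ^ 3) := by ring
  exact le_of_mul_le_mul_left h2 hw

end Vol3M

open Vol3M

theorem tVol3 (hB : S_Bas) (hP : S_Prm) (hI : S_Idx) : S_Vol3 := by
  intro w T Z a b B r hw hT hZ ha hb hr hbox hex hrA
  obtain ⟨u0, hu0, v0, hv0, t0, ht0, hne⟩ := hex
  obtain ⟨_, hsm, _, _, _, _, _, _, _, hnm, _⟩ := hB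
  obtain ⟨_, hbez, hpar, _⟩ := hP
  obtain ⟨x0, hx0⟩ := hbez r hr
  have hj : ∀ u ∈ B, ∀ v ∈ B, ∀ t ∈ B, nm u v t = pl x0 (nm u v t) • r := fun u hu v hv t ht =>
    hpar u v t r x0 (hbox u hu).2 (hbox v hv).2 (hbox t ht).2 hx0
  -- a triple with maximal j
  obtain ⟨⟨u, v, t⟩, hm, hmax⟩ := Finset.exists_max_image (B ×ˢ B ×ˢ B)
    (fun q : MZ × MZ × MZ => |pl x0 (nm q.1 q.2.1 q.2.2)|)
    ⟨(u0, v0, t0), by simp only [Finset.mem_product]; exact ⟨hu0, hv0, ht0⟩⟩
  simp only [Finset.mem_product] at hm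
  obtain ⟨hu, hv, ht⟩ := hm
  have hmax' : ∀ u' ∈ B, ∀ v' ∈ B, ∀ t' ∈ B, |pl x0 (nm u' v' t')| ≤ |pl x0 (nm u v t)| := by
    intro u' hu' v' hv' t' ht'
    have := hmax (u', v', t') (by simp only [Finset.mem_product]; exact ⟨hu', hv', ht'⟩)
    simpa using this
  have hD : pl x0 (nm u v t) ≠ 0 := by
    intro h0
    have h1 := hmax' u0 hu0 v0 hv0 t0 ht0
    rw [h0, abs_zero] at h1
    have h2 : pl x0 (nm u0 v0 t0) = 0 := abs_eq_zero.1 (le_antisymm h1 (abs_nonneg _))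
    apply hne
    rw [hj u0 hu0 v0 hv0 t0 ht0, h2, zero_smul]
  have hlast : ∀ s ∈ B, pl s (nm u v t) = 0 := by
    intro s hs
    rw [hj u hu v hv t ht, pl_smul_right, (hbox s hs).2, mul_zero]
  have hcard : (B.card : ℤ) ≤ 81 * |pl x0 (nm u v t)| := by
    have := hI ![u, v, t, x0] B (by simpa using hD) (fun s hs =>
      ⟨![pl x0 (nm s v t), pl x0 (nm u s t), pl x0 (nm u v s), pl s (nm u v t)], by
        intro i
        fin_cases i
        · simpa using hmax' s hs v hv t ht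
        · simpa using hmax' u hu s hs t ht
        · simpa using hmax' u hu v hv s hs
        · simp [hlast s hs], by
        have := cramer u v t x0 s
        simpa [Fin.sum_univ_four] using this⟩)
    simpa using this
  -- the size of j
  obtain ⟨n00, n11, n01, n10⟩ := hnm w T a b u v t hw hT.le ha hb (hbox u hu).1 (hbox v hv).1 (hbox t ht).1
  have hfr : fr a b (nm u v t) = ((pl x0 (nm u v t) : ℤ) : ℝ) • fr a b r := by
    conv_lhs => rw [hj u hu v hv t ht]
    exact hsm a b _ r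
  rw [hfr] at n00 n11 n01 n10
  simp only [Matrix.smul_apply, smul_eq_mul, abs_mul] at n00 n11 n01 n10
  have hjn : (0 : ℝ) ≤ |((pl x0 (nm u v t) : ℤ) : ℝ)| := abs_nonneg _
  have hsize : |((pl x0 (nm u v t) : ℤ) : ℝ)| * Z ≤ 6 * w * T ^ 3 := by
    by_cases h00 : |fr a b r 0 0| ≤ w * Z
    · by_cases h11 : |fr a b r 1 1| ≤ w * Z
      · by_cases h01 : |fr a b r 0 1| ≤ Z
        · by_cases h10 : |fr a b r 1 0| ≤ Z
          · exact absurd ⟨h00, h11, h01, h10⟩ hrA
          · exact (mul_le_mul_of_nonneg_left (not_le.1 h10).le hjn).trans n10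
        · exact (mul_le_mul_of_nonneg_left (not_le.1 h01).le hjn).trans n01
      · exact size_aux hw hjn (not_le.1 h11) n11
    · exact size_aux hw hjn (not_le.1 h00) n00
  have hcardR : (B.card : ℝ) ≤ 81 * |((pl x0 (nm u v t) : ℤ) : ℝ)| := by
    have : ((B.card : ℤ) : ℝ) ≤ ((81 * |pl x0 (nm u v t)| : ℤ) : ℝ) := by exact_mod_cast hcard
    rw [Int.cast_natCast, Int.cast_mul, Int.cast_abs] at this
    simpa using this
  calc (B.card : ℝ) * Z ≤ 81 * |((pl x0 (nm u v t) : ℤ) : ℝ)| * Z := mul_le_mul_of_nonneg_right hcardR hZ.le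
    _ = 81 * (|((pl x0 (nm u v t) : ℤ) : ℝ)| * Z) := by ring
    _ ≤ 81 * (6 * w * T ^ 3) := mul_le_mul_of_nonneg_left hsize (by norm_num)
    _ = 486 * w * T ^ 3 := by ring

end HSB
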