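import Pool.Agent.Lib.HS.Bd.C.Spec

/-!
PROJECT H* (MP_a54f13_nt), high bands, PAIR COUNT, module Vol4 (spec helper51): the number of integral matrices in a
gauge box which contains four independent ones.
-/

set_option autoImplicit false

namespace HSB

open HSL HSL.Flp Matrix

namespace Vol4M

/-- Cramer's rule for the four-linear form `pl x (nm u v t)` -/
lemma cramer (u v t x s : MZ) :
    pl x (nm u v t) • s = pl x (nm s v t) • u + pl x (nm u s t) • v + pl x (nm u v s) • t + pl s (nm u v t) • x := by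
  ext i j
  simp only [Matrix.add_apply, Matrix.smul_apply, smul_eq_mul]
  fin_cases i <;> fin_cases j <;> simp [nm, pl, dt3] <;> ring

lemma abs_plR (X N : MR) (p q r s : ℝ) (hp : 0 ≤ p) (hq : 0 ≤ q) (h00 : |X 0 0| ≤ p) (h11 : |X 1 1| ≤ p)
    (h01 : |X 0 1| ≤ q) (h10 : |X 1 0| ≤ q) (g00 : |N 0 0| ≤ r) (g11 : |N 1 1| ≤ r) (g01 : |N 0 1| ≤ s)
    (g10 : |N 1 0| ≤ s) : |plR X N| ≤ 2 * (p * r) + 2 * (q * s) := by
  have e1 : |X 0 0 * N 1 1| ≤ p * r := by
    rw [abs_mul]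
    exact mul_le_mul h00 g11 (abs_nonneg _) hp
  have e2 : |X 1 1 * N 0 0| ≤ p * r := by
    rw [abs_mul]
    exact mul_le_mul h11 g00 (abs_nonneg _) hp
  have e3 : |X 0 1 * N 1 0| ≤ q * s := by
    rw [abs_mul]
    exact mul_le_mul h01 g10 (abs_nonneg _) hq
  have e4 : |X 1 0 * N 0 1| ≤ q * s := by
    rw [abs_mul]
    exact mul_le_mul h10 g01 (abs_nonneg _) hq
  rw [abs_le] at e1 e2 e3 e4
  have e : plR X N = X 0 0 * N 1 1 + X 1 1 * N 0 0 - X 0 1 * N 1 0 - X 1 0 * N 0 1 := rfl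
  rw [e, abs_le]
  constructor <;> linarith [e1.1, e1.2, e2.1, e2.2, e3.1, e3.2, e4.1, e4.2]

end Vol4M

open Vol4M

theorem tVol4 (hB : S_Bas) (hI : S_Idx) : S_Vol4 := by
  intro w T a b B hw hT ha hb hbox hex
  obtain ⟨u0, hu0, v0, hv0, t0, ht0, x0, hx0, hne⟩ := hex
  obtain ⟨_, _, _, _, _, _, _, hpl, _, hnm, _⟩ := hB
  -- a quadruple with maximal determinant
  obtain ⟨⟨u, v, t, x⟩, hm, hmax⟩ := Finset.exists_max_image (B ×ˢ B ×ˢ B ×ˢ B)
    (fun q : MZ × MZ × MZ × MZ => |pl q.2.2.2 (nm q.1 q.2.1 q.2.2.1)|)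
    ⟨(u0, v0, t0, x0), by simp only [Finset.mem_product]; exact ⟨hu0, hv0, ht0, hx0⟩⟩
  simp only [Finset.mem_product] at hm
  obtain ⟨hu, hv, ht, hx⟩ := hm
  have hmax' : ∀ u' ∈ B, ∀ v' ∈ B, ∀ t' ∈ B, ∀ x' ∈ B, |pl x' (nm u' v' t')| ≤ |pl x (nm u v t)| := by
    intro u' hu' v' hv' t' ht' x' hx'
    have := hmax (u', v', t', x') (by simp only [Finset.mem_product]; exact ⟨hu', hv', ht', hx'⟩)
    simpa using this
  have hD : pl x (nm u v t) ≠ 0 := by
    intro h0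
    have := hmax' u0 hu0 v0 hv0 t0 ht0 x0 hx0
    rw [h0, abs_zero] at this
    exact hne (abs_eq_zero.1 (le_antisymm this (abs_nonneg _)))
  have hcard : (B.card : ℤ) ≤ 81 * |pl x (nm u v t)| := by
    have := hI ![u, v, t, x] B (by simpa using hD) (fun s hs =>
      ⟨![pl x (nm s v t), pl x (nm u s t), pl x (nm u v s), pl s (nm u v t)], by
        intro i
        fin_cases i
        · simpa using hmax' s hs v hv t ht x hx
        · simpa using hmax' u hu s hs t ht x hx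
        · simpa using hmax' u hu v hv s hs x hx
        · simpa using hmax' u hu v hv t ht s hs, by
        have := cramer u v t x s
        simpa [Fin.sum_univ_four] using this⟩)
    simpa using this
  -- the size of the determinant
  obtain ⟨n00, n11, n01, n10⟩ := hnm w T a b u v t hw hT.le ha hb (hbox u hu) (hbox v hv) (hbox t ht)
  obtain ⟨b00, b11, b01, b10⟩ := hbox x hx
  have hsize : |((pl x (nm u v t) : ℤ) : ℝ)| ≤ 2 * (T * (6 * w ^ 2 * T ^ 3)) + 2 * (w * T * (6 * w * T ^ 3)) := by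
    rw [hpl a b x (nm u v t) ha hb]
    exact abs_plR _ _ T (w * T) _ _ hT.le (by positivity) b00 b11 b01 b10 n00 n11 n01 n10
  have hcardR : (B.card : ℝ) ≤ 81 * |((pl x (nm u v t) : ℤ) : ℝ)| := by
    have : ((B.card : ℤ) : ℝ) ≤ ((81 * |pl x (nm u v t)| : ℤ) : ℝ) := by exact_mod_cast hcard
    rw [Int.cast_natCast, Int.cast_mul, Int.cast_abs] at this
    simpa using this
  calc (B.card : ℝ) ≤ 81 * |((pl x (nm u v t) : ℤ) : ℝ)| := hcardR
    _ ≤ 81 * (2 * (T * (6 * w ^ 2 * T ^ 3)) + 2 * (w * T * (6 * w * T ^ 3))) :=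
      mul_le_mul_of_nonneg_left hsize (by norm_num)
    _ = 1944 * w ^ 2 * T ^ 4 := by ring

end HSB
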