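import Pool.Agent.Lib.HS.Bd.FFrm
import Pool.Agent.Lib.HS.Bd.FPck
import Pool.Agent.Lib.HS.Bd.C.Bas
import Pool.Agent.Lib.HS.Bd.C.Idx
import Pool.Agent.Lib.HS.Bd.C.Lin
import Pool.Agent.Lib.HS.Bd.C.PA
import Pool.Agent.Lib.HS.Bd.C.Pk
import Pool.Agent.Lib.HS.Bd.C.Rep
import Pool.Agent.Lib.HS.Bd.C.SN
import Pool.Agent.Lib.HS.Bd.C.SNq
import Pool.Agent.Lib.HS.Bd.C.Shf
import Pool.Agent.Lib.HS.Bd.C.Vol4
import Pool.Agent.Lib.HS.Bd.C.Prm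
import Pool.Agent.Lib.HS.Bd.C.Vol3
import Pool.Agent.Lib.HS.Bd.C.Cnt

/-!
PROJECT H* (MP_a54f13_nt), high bands, PAIR COUNT: assembly (helper51). `aPA : S_PA`, `aSN : S_SN`,
`aSNq : S_SNq`, no hypotheses.
-/

set_option autoImplicit false

namespace HSB

open HSL HSL.Flp Matrix

theorem aBas : S_Bas := tBas tFrm

theorem aPrm : S_Prm := tPrm

theorem aIdx : S_Idx := tIdx

theorem aVol4 : S_Vol4 := tVol4 aBas aIdx

theorem aVol3 : S_Vol3 := tVol3 aBas aPrm aIdx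

theorem aPk : S_Pk := tPk aBas tPck

theorem aCnt : S_Cnt := tCnt aBas (tLin aBas)

theorem aPA : S_PA := tPA aBas aPrm aVol4 aVol3 (tShf aBas) aPk tRep aCnt

theorem aSN : S_SN := tSN aBas aPrm

theorem aSNq : S_SNq := tSNq aPrm aSN

end HSB
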