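import Pool.Agent.Lib.HS.Bd.C.Spec

/-!
PROJECT H* (MP_a54f13_nt), high bands, PAIR COUNT, module Prm (helper51).
-/

set_option autoImplicit false

namespace HSB

open HSL HSL.Flp Matrix

namespace PrmM

/-- gcd of four integers with Bezout -/
lemma gcd4 (a b c d : ℤ) : ∃ g x y z w : ℤ, 0 ≤ g ∧ g ∣ a ∧ g ∣ b ∧ g ∣ c ∧ g ∣ d ∧
    g = a * x + b * y + c * z + d * w := by
  refine ⟨((Int.gcd (Int.gcd a b) (Int.gcd c d) : ℕ) : ℤ),
    Int.gcdA a b * Int.gcdA (Int.gcd a b) (Int.gcd c d), Int.gcdB a b * Int.gcdA (Int.gcd a b) (Int.gcd c d),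
    Int.gcdA c d * Int.gcdB (Int.gcd a b) (Int.gcd c d), Int.gcdB c d * Int.gcdB (Int.gcd a b) (Int.gcd c d),
    Int.natCast_nonneg _, ?_, ?_, ?_, ?_, ?_⟩
  · exact (Int.gcd_dvd_left _ _).trans (Int.gcd_dvd_left _ _)
  · exact (Int.gcd_dvd_left _ _).trans (Int.gcd_dvd_right _ _)
  · exact (Int.gcd_dvd_right _ _).trans (Int.gcd_dvd_left _ _)
  · exact (Int.gcd_dvd_right _ _).trans (Int.gcd_dvd_right _ _)
  · have h1 := Int.gcd_eq_gcd_ab a b
    have h2 := Int.gcd_eq_gcd_ab c d
    have h3 := Int.gcd_eq_gcd_ab (Int.gcd a b) (Int.gcd c d)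
    linear_combination h3 + (Int.gcdA (Int.gcd a b) (Int.gcd c d)) * h1 + (Int.gcdB (Int.gcd a b) (Int.gcd c d)) * h2

lemma bez (r : MZ) (hr : Prim r) : ∃ x : MZ, pl x r = 1 := by
  obtain ⟨g, x, y, z, w, hg, ha, hb, hc, hd, he⟩ := gcd4 (r 0 0) (r 0 1) (r 1 0) (r 1 1)
  have hu : IsUnit g := by
    refine hr g fun i j => ?_
    fin_cases i <;> fin_cases j <;> simp <;> assumption
  have h1 : g = 1 := by
    rcases Int.isUnit_iff.1 hu with h | h
    · exact h
    · omega
  refine ⟨!![w, -z; -y, x], ?_⟩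
  simp only [pl, Matrix.of_apply, Matrix.cons_val', Matrix.cons_val_zero, Matrix.cons_val_one, Matrix.cons_val_fin_one]
  rw [h1] at he
  linarith

lemma prt (u : MZ) (hu : u ≠ 0) : ∃ (n : ℤ) (u' : MZ), 1 ≤ n ∧ u = n • u' ∧ Prim u' := by
  obtain ⟨g, x, y, z, w, hg, ha, hb, hc, hd, he⟩ := gcd4 (u 0 0) (u 0 1) (u 1 0) (u 1 1)
  obtain ⟨a', ha⟩ := ha
  obtain ⟨b', hb⟩ := hb
  obtain ⟨c', hc⟩ := hc
  obtain ⟨d', hd⟩ := hd
  have hg0 : g ≠ 0 := by
    intro h0
    apply hu
    rw [h0, zero_mul] at ha hb hc hd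
    ext i j
    fin_cases i <;> fin_cases j <;> simp [ha, hb, hc, hd]
  have hg1 : 1 ≤ g := by omega
  have hone : 1 = a' * x + b' * y + c' * z + d' * w := by
    have : g * 1 = g * (a' * x + b' * y + c' * z + d' * w) := by
      rw [ha, hb, hc, hd] at he
      linear_combination he
    exact mul_left_cancel₀ hg0 this
  refine ⟨g, !![a', b'; c', d'], hg1, ?_, ?_⟩
  · ext i j
    fin_cases i <;> fin_cases j <;> simp [ha, hb, hc, hd]
  · intro r hr
    have h00 := hr 0 0
    have h01 := hr 0 1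
    have h10 := hr 1 0
    have h11 := hr 1 1
    simp at h00 h01 h10 h11
    have : r ∣ 1 := by
      rw [hone]
      exact dvd_add (dvd_add (dvd_add (h00.mul_right _) (h01.mul_right _)) (h10.mul_right _)) (h11.mul_right _)
    exact isUnit_of_dvd_one this

/-- dual Cramer identity -/
lemma dual0 (u v t r x : MZ) : pl x (nm u v t) • r = pl x r • nm u v t - pl u r • nm v t x + pl v r • nm u t x -
    pl t r • nm u v x := by
  ext i j
  simp only [Matrix.add_apply, Matrix.sub_apply, Matrix.smul_apply, smul_eq_mul]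
  fin_cases i <;> fin_cases j <;> simp [nm, pl, dt3] <;> ring

lemma dual (u v t r x : MZ) (hu : pl u r = 0) (hv : pl v r = 0) (ht : pl t r = 0) (hx : pl x r = 1) :
    nm u v t = pl x (nm u v t) • r := by
  rw [dual0 u v t r x, hu, hv, ht, hx]
  simp

/-- multiples of a primitive matrix -/
lemma mult (n m : ℤ) (x e : MZ) (hn : n ≠ 0) (he : Prim e) (h : n • x = m • e) : ∃ k : ℤ, x = k • e := by
  obtain ⟨y, hy⟩ := bez e he
  have h1 : n * pl y x = m * pl y e := by
    have := congrArg (pl y) h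
    simp only [pl, Matrix.smul_apply, smul_eq_mul] at this ⊢
    linear_combination this
  rw [hy, mul_one] at h1
  refine ⟨pl y x, ?_⟩
  ext i j
  have h2 := congrFun (congrFun h i) j
  rw [Matrix.smul_apply, Matrix.smul_apply, smul_eq_mul, smul_eq_mul] at h2
  rw [Matrix.smul_apply, smul_eq_mul]
  rw [← h1] at h2
  have : n * x i j = n * (pl y x * e i j) := by rw [h2]; ring
  exact mul_left_cancel₀ hn this

end PrmM

open PrmM

theorem tPrm : S_Prm := by
  refine ⟨?_, bez, fun u v t r x => dual u v t r x, fun n m x e => mult n m x e⟩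
  intro u hu
  obtain ⟨n, u', hn, he, hp⟩ := prt u hu
  have hu' : u' ≠ 0 := by
    rintro rfl
    exact hu (by rw [he, smul_zero])
  refine ⟨n, u', hn, he, hp, hu', ?_, ?_⟩
  · intro h h0
    apply h
    rw [he]
    rw [Matrix.det_fin_two] at h0 ⊢
    simp only [Matrix.smul_apply, smul_eq_mul]
    linear_combination n ^ 2 * h0
  · intro w T a b hw hbx
    have hfr : ∀ i j, fr a b u i j = (n : ℝ) * fr a b u' i j := by
      intro i j
      have e : toR u = (n : ℝ) • toR u' := by
        ext i j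
        have e1 : u i j = n * u' i j := by
          rw [he, Matrix.smul_apply, smul_eq_mul]
        simp only [toR, Matrix.map_apply, Matrix.smul_apply, smul_eq_mul]
        rw [e1]
        push_cast
        ring
      have : fr a b u = (n : ℝ) • fr a b u' := by
        rw [fr, fr, e, Matrix.mul_smul, Matrix.smul_mul]
      rw [this, Matrix.smul_apply, smul_eq_mul]
    have hn' : (1 : ℝ) ≤ n := by exact_mod_cast hn
    have hle : ∀ i j, |fr a b u' i j| ≤ |fr a b u i j| := by
      intro i j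
      rw [hfr, abs_mul, abs_of_pos (by linarith : (0 : ℝ) < n)]
      nlinarith [abs_nonneg (fr a b u' i j)]
    exact ⟨(hle _ _).trans hbx.1, (hle _ _).trans hbx.2.1, (hle _ _).trans hbx.2.2.1, (hle _ _).trans hbx.2.2.2⟩

end HSB
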