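import Pool.Agent.Lib.HS.Bd.Defs
import Pool.Agent.Lib.HS.Bd.SpecFlip

/-!
PROJECT H* (MP_a54f13_nt), high bands, PAIR COUNT (helper51, notes 4718, 4719, 4734; helper75, helper1, helper66).

Every `S_...` is a statement with a COMPLETE proof in its docstring; the module for `S_X` is
`Pool/Agent/Lib/HS/Bd/C/X.lean` with `theorem tX : ... → S_X` in the namespace `HSB`.

Conventions: `fr a b h = adj b * toR h * a` (`= b⁻¹ h a`), `Bx w T a b` = gauge box, `Ab w Z a b` = antidiagonal box,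
`pl` = polar form of the determinant, `nm u v t` = normal of three matrices (`HSL.Flp.nm`), so that
`pl x (nm u v t)` is the 4x4 determinant of `u, v, t, x` (up to sign). `Um R a`: `det a = 1`, entries at most `R`.
Order: Bas, Prm, Idx, Vol4, Vol3, Shf, Pk, Rep, Lin, Cnt, PA; SN, SNq. Degenerate lines: `HSBd.dsz` (HS/Bd/Dsz.lean,
helper1); squares on a line: `Pool.Agent.A54.HSBd.mat_card` (HS/Bd/SqLine.lean, helper26); types: helper75.
-/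

set_option autoImplicit false

namespace HSB

open HSL HSL.Flp Matrix

/-- polar form of the determinant over the reals -/
def plR (X N : MR) : ℝ := X 0 0 * N 1 1 + X 1 1 * N 0 0 - X 0 1 * N 1 0 - X 1 0 * N 0 1

/-- the gauge of `h` -/
noncomputable def gau (w : ℝ) (a b : MR) (h : MZ) : ℝ :=
  max (max |fr a b h 0 0| |fr a b h 1 1|) (max (|fr a b h 0 1| / w) (|fr a b h 1 0| / w))

/-- the elements of `P` lie on different lines of direction `e` -/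
def Sep (e : MZ) (P : Finset MZ) : Prop := ∀ x ∈ P, ∀ y ∈ P, (∃ t : ℤ, x - y = t • e) → x = y

/-- `P` meets every line `h + Z e`, `h ∈ H` -/
def Reps (e : MZ) (H P : Finset MZ) : Prop := P ⊆ H ∧ Sep e P ∧ ∀ h ∈ H, ∃ p ∈ P, ∃ t : ℤ, h - p = t • e

/-- Bas. Basic facts. PROOF. (1) `fr` is linear in `h` (matrix products). (2) `h ∈ Bx w T a b` iff `gau w a b h <= T`
(`0 < w`, `div_le_iff`). (3) sub/add: triangle inequality entry by entry. (4) `gau (t • h) = |t| gau h`.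
(5) `toR u = b * fr a b u * adj a` (S_Frm (8) of SpecFlip; `b * adj b = 1`, `a * adj a = 1`), `|adj a|` entries at most
`R`, entries of `fr` at most `T` (`w <= 1`): four products. (6) an entry of `u` is at least 1 in absolute value.
(7) `plR (adj b * X * a) (adj b * N * a) = det b * det a * plR X N` (ring after expanding) and the cast of `pl`.
(8) `|A00 B11| + |A11 B00| + |A01 B10| + |A10 B01| <= 2 T T' + 2 w^2 T T'` by (7). (9) `fr a b (nm u v t) =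
nm (fr a b u) (fr a b v) (fr a b t)` (the two identities in the docstring of `nm`, `det a = det (adj b) = 1`), the
entries 00 and 11 of `nm` are `dt3` of three rows with one diagonal and two off-diagonal entries (`<= 6 w^2 T^3`), the
entries 01, 10 with two diagonal and one off-diagonal entries (`<= 6 w T^3`). (10) by (5) the box is contained in a finite
set of integral matrices. -/
def S_Bas : Prop :=
  (∀ (a b : MR) (u v : MZ), fr a b (u + v) = fr a b u + fr a b v ∧ fr a b (u - v) = fr a b u - fr a b v) ∧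
  (∀ (a b : MR) (t : ℤ) (u : MZ), fr a b (t • u) = (t : ℝ) • fr a b u) ∧
  (∀ (w T : ℝ) (a b : MR) (u : MZ), 0 < w → (u ∈ Bx w T a b ↔ gau w a b u ≤ T)) ∧
  (∀ (w T T' : ℝ) (a b : MR) (u v : MZ), u ∈ Bx w T a b → v ∈ Bx w T' a b →
    u + v ∈ Bx w (T + T') a b ∧ u - v ∈ Bx w (T + T') a b) ∧
  (∀ (w : ℝ) (a b : MR) (t : ℤ) (u : MZ), 0 < w → gau w a b (t • u) = |(t : ℝ)| * gau w a b u) ∧
  (∀ (R w T : ℝ) (a b : MR) (u : MZ), 0 < w → w ≤ 1 → Um R a → Um R b → u ∈ Bx w T a b →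
    ∀ i j, |((u i j : ℤ) : ℝ)| ≤ 4 * R ^ 2 * T) ∧
  (∀ (R w T : ℝ) (a b : MR) (u : MZ), 0 < w → w ≤ 1 → Um R a → Um R b → u ≠ 0 → u ∈ Bx w T a b →
    1 ≤ 4 * R ^ 2 * T) ∧
  (∀ (a b : MR) (u v : MZ), a.det = 1 → b.det = 1 → ((pl u v : ℤ) : ℝ) = plR (fr a b u) (fr a b v)) ∧
  (∀ (w T T' : ℝ) (a b : MR) (u v : MZ), 0 < w → w ≤ 1 → a.det = 1 → b.det = 1 → 0 ≤ T → 0 ≤ T' →
    u ∈ Bx w T a b → v ∈ Bx w T' a b → |((pl u v : ℤ) : ℝ)| ≤ 4 * T * T' ∧ |((u.det : ℤ) : ℝ)| ≤ 2 * T ^ 2) ∧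
  (∀ (w T : ℝ) (a b : MR) (u v t : MZ), 0 < w → 0 ≤ T → a.det = 1 → b.det = 1 → u ∈ Bx w T a b →
    v ∈ Bx w T a b → t ∈ Bx w T a b →
    |fr a b (nm u v t) 0 0| ≤ 6 * w ^ 2 * T ^ 3 ∧ |fr a b (nm u v t) 1 1| ≤ 6 * w ^ 2 * T ^ 3 ∧
    |fr a b (nm u v t) 0 1| ≤ 6 * w * T ^ 3 ∧ |fr a b (nm u v t) 1 0| ≤ 6 * w * T ^ 3) ∧
  (∀ (R w T : ℝ) (a b : MR), 0 < w → w ≤ 1 → Um R a → Um R b → (Bx w T a b).Finite)

/-- Prm. Primitive parts and Bezout. PROOF. (1) `n` = gcd of the four entries (`HSL.Flp.cont`), `u' = u / n`.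
`gau (n • u') = n * gau u' >= gau u'` gives the box; `det u = n^2 det u'`. (2) the gcd of the four entries of `r` is 1, so
some integral combination of `r 1 1, r 0 0, - r 1 0, - r 0 1` is 1. (3) `r` is orthogonal to `u, v, t`, `pl x0 r = 1`:
the identity `(pl x0 (nm u v t)) • r = (pl x0 r) • nm u v t - (pl t r) • nm u v x0 + (pl v r) • nm u t x0 -
(pl u r) • nm v t x0` (signs to be fixed; `ext i j; fin_cases i <;> fin_cases j <;> simp [nm, dt3, pl] <;> ring`).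
(4) if `x = s • e` with `s` rational, i.e. `n • x = m • e`, `n <> 0`, `e` primitive, then `n` divides `m` times every
entry of `e`, so `n` divides `m` (Bezout (2)), `x = (m/n) • e`. -/
def S_Prm : Prop :=
  (∀ u : MZ, u ≠ 0 → ∃ (n : ℤ) (u' : MZ), 1 ≤ n ∧ u = n • u' ∧ Prim u' ∧ u' ≠ 0 ∧ (u.det ≠ 0 → u'.det ≠ 0) ∧
    ∀ (w T : ℝ) (a b : MR), 0 < w → u ∈ Bx w T a b → u' ∈ Bx w T a b) ∧
  (∀ r : MZ, Prim r → ∃ x : MZ, pl x r = 1) ∧
  (∀ (u v t r x : MZ), pl u r = 0 → pl v r = 0 → pl t r = 0 → pl x r = 1 →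
    nm u v t = pl x (nm u v t) • r) ∧
  (∀ (n m : ℤ) (x e : MZ), n ≠ 0 → Prim e → n • x = m • e → ∃ k : ℤ, x = k • e)

/-- Idx. Lattice points in a parallelepiped. PROOF. As `card27` and `index_eq` in HS/L/Lat.lean, dimension 4 instead
of 3: the sublattice spanned by the `h i` has index `|D|` in `MZ` (`Submodule.natAbs_det_basis_change` with the basis
`Matrix.stdBasis`, or transport to `Fin 4 → ℤ`; the 4x4 determinant is `± D`). Map `s ∈ S` to its class modulo the span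
and the four numbers `⌊c i / D⌋ ∈ {-1, 0, 1}`. Injective: for `s, s'` with the same image, `s - s' = sum n_i h i` with
integers `n_i`, and `D • (s - s') = sum (c i - c' i) • h i`, so `c i - c' i = D n_i` (independence), and
`|c i - c' i| < |D|` (same floor of the quotient), `n_i = 0`. So `card S <= |D| * 3^4`. -/
def S_Idx : Prop :=
  ∀ (h : Fin 4 → MZ) (S : Finset MZ), pl (h 3) (nm (h 0) (h 1) (h 2)) ≠ 0 →
    (∀ s ∈ S, ∃ c : Fin 4 → ℤ, (∀ i, |c i| ≤ |pl (h 3) (nm (h 0) (h 1) (h 2))|) ∧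
      pl (h 3) (nm (h 0) (h 1) (h 2)) • s = ∑ i, c i • h i) →
    (S.card : ℤ) ≤ 81 * |pl (h 3) (nm (h 0) (h 1) (h 2))|

/-- Vol4. Volume bound, rank four. PROOF. Let `D(u,v,t,x) = pl x (nm u v t)` and choose `u, v, t, x ∈ B` with
`|D|` maximal, `D <> 0`. For `s ∈ B`: `D • s = D(s,v,t,x) • u + D(u,s,t,x) • v + D(u,v,s,x) • t + D(u,v,t,s) • x`
(polynomial identity, `ext i j; fin_cases ..; simp; ring`), all coefficients at most `|D|`: S_Idx gives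
`card B <= 81 |D|`. By S_Bas (9) and (7): `|D| = |plR (fr x) (fr (nm u v t))| <= 2 T (6 w^2 T^3) + 2 (w T)(6 w T^3) =
24 w^2 T^4`. `81 * 24 = 1944`. -/
def S_Vol4 : Prop :=
  ∀ (w T : ℝ) (a b : MR) (B : Finset MZ), 0 < w → 0 < T → a.det = 1 → b.det = 1 → (∀ u ∈ B, u ∈ Bx w T a b) →
    (∃ u ∈ B, ∃ v ∈ B, ∃ t ∈ B, ∃ x ∈ B, pl x (nm u v t) ≠ 0) → (B.card : ℝ) ≤ 1944 * w ^ 2 * T ^ 4

/-- Vol3. Volume bound, rank three. PROOF. Let `pl x0 r = 1` (S_Prm (2)), so `nm u v t = j(u,v,t) • r`,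
`j(u,v,t) = pl x0 (nm u v t)` for `u, v, t ∈ B` (S_Prm (3)). Choose `u, v, t ∈ B` with `|j|` maximal; `j <> 0`.
For `s ∈ B`: the identity of S_Vol4 with `x = x0`: `j • s = j(s,v,t) • u + j(u,s,t) • v + j(u,v,s) • t +
(pl s (nm u v t)) • x0` and the last coefficient is `j * pl s r = 0`. S_Idx with `h = (u, v, t, x0)`: `card B <= 81 |j|`.
The frame of `nm u v t` is `j` times the frame of `r`; as `r ∉ Ab w Z a b` one of `|R01| > Z`, `|R10| > Z`,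
`|R00| > w Z`, `|R11| > w Z` holds, and S_Bas (9) gives `|j| Z <= 6 w T^3` in all cases. `81 * 6 = 486`. -/
def S_Vol3 : Prop :=
  ∀ (w T Z : ℝ) (a b : MR) (B : Finset MZ) (r : MZ), 0 < w → 0 < T → 0 < Z → a.det = 1 → b.det = 1 → Prim r →
    (∀ u ∈ B, u ∈ Bx w T a b ∧ pl u r = 0) → (∃ u ∈ B, ∃ v ∈ B, ∃ t ∈ B, nm u v t ≠ 0) → r ∉ Ab w Z a b →
    (B.card : ℝ) * Z ≤ 486 * w * T ^ 3

/-- Shf. Lines against points. PROOF. `n = ⌊T/lam⌋ + 1 >= T/lam`. The map `(p, t) ↦ p + t • e` from `P × {0..n-1}` to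
`B` is well defined (`gau (p + t e) <= T + (n-1) lam <= 2 T`, S_Bas) and injective: `p - p' = (t' - t) • e` gives
`p = p'` (Sep), `(t - t') • e = 0`, `t = t'` (`e <> 0`). So `card P * n <= card B`. -/
def S_Shf : Prop :=
  ∀ (w T lam : ℝ) (a b : MR) (e : MZ) (P B : Finset MZ), 0 < w → 0 < lam → lam ≤ T → e ≠ 0 → e ∈ Bx w lam a b →
    (∀ p ∈ P, p ∈ Bx w T a b) → Sep e P → (∀ u, u ∈ Bx w (2 * T) a b → u ∈ B) →
    (P.card : ℝ) * T ≤ lam * (B.card : ℝ)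

/-- Pk. Packing; `l` is a lower bound of the gauge of all non-zero integral matrices. Put
`x(u) = (A00, A11, A01/w, A10/w)`, `A = fr a b u`: additive, `gau u = max |x_k(u)|`. PROOF. (4) the map
`u ↦ (⌊2 x_k(u)/l⌋)_k` is injective on `B` (equal floors give `gau (u - v) < l`, so `u = v`), every coordinate takes at
most `4 T/l + 2 <= 6 T/l` values. (3) `pl u r = 0` is the linear equation `sum n_k x_k(u) = 0` with
`n = (R11, R00, - w R10, - w R01)` (S_Bas (7)), `n <> 0`. Let `|n_i|` be maximal: `|x_i(z)| <= 3 max_(k <> i) |x_k(z)|`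
for `z = u - v`. The map `u ↦ (⌊4 x_k(u)/l⌋)_(k <> i)` is injective: equal floors give `|x_k(z)| < l/4`, `k <> i`,
`gau z < l`. Every coordinate takes at most `8 T/l + 2 <= 10 T/l` values. (2) is `S_Pck` of SpecFlip with `lam = l/2`
(`Dg lam w a b u` is `u ∈ Bx w lam a b`): `36 (2T/l)^2 = 144 (T/l)^2`. -/
def S_Pk : Prop :=
  ∀ (w T l : ℝ) (a b : MR) (B : Finset MZ), 0 < w → 0 < l → l ≤ T → a.det = 1 → b.det = 1 →
    (∀ u ∈ B, u ∈ Bx w T a b) → (∀ u : MZ, u ≠ 0 → l ≤ gau w a b u) →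
    (B.card : ℝ) ≤ (6 * T / l) ^ 4 ∧
    ((∃ r : MZ, r ≠ 0 ∧ ∀ u ∈ B, pl u r = 0) → (B.card : ℝ) ≤ (10 * T / l) ^ 3) ∧
    ((∀ u ∈ B, ∀ v ∈ B, ∀ t ∈ B, nm u v t = 0) → (B.card : ℝ) ≤ 144 * (T / l) ^ 2)

/-- Rep. Representatives of the lines. PROOF. A subset `P` of `H` with `Sep e P` and `card P` maximal (the empty set has
`Sep`); if `h ∈ H` were on no line of `P`, then `insert h P` would still have `Sep`. -/
def S_Rep : Prop := ∀ (e : MZ) (H : Finset MZ), ∃ P : Finset MZ, Reps e H P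

/-- Lin. Squares on one line. PROOF. `h = p + t • e`, `|t| <= 8 R^2 T` (some entry of `e` is at least 1 in absolute
value, S_Bas (6) for `h`, `p`), `det h` is a square; `mat_card` of HS/Bd/SqLine.lean with `s = p`, `r = e` and
`Z = 8 R^2 T^2` (`|det e|, |det p| <= 2 T^2`, `|mixd p e| = |pl p e| <= 4 T^2`, S_Bas (9)) bounds the number of `t` by
`C' (8 R^2 T^2)^(ε/2)`. -/
def S_Lin : Prop :=
  ∀ R ε : ℝ, 1 ≤ R → 0 < ε → ∃ C : ℝ, 1 ≤ C ∧ ∀ (w T : ℝ) (a b : MR) (e p : MZ) (H : Finset MZ),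
    0 < w → w ≤ 1 → 1 ≤ T → Um R a → Um R b → e.det ≠ 0 → e ∈ Bx w T a b → p ∈ Bx w T a b →
    (∀ h ∈ H, h ∈ Bx w T a b ∧ IsSquare h.det ∧ ∃ t : ℤ, h - p = t • e) →
    pl p e ^ 2 ≠ 4 * e.det * p.det → (H.card : ℝ) ≤ C * T ^ ε

/-- Cnt. Points against lines; `lam` is the gauge of `e`. PROOF. `H1` = the `h ∈ H` with `pl h e ^ 2 = 4 det e det h`:
`HSBd.dsz` with `l = lam`, `K = T`, exponent `ε/4` (`HSBd.mx c e = pl c e` up to the form; `Gle`, `Gge` from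
`gau w a b e = lam`): `card H1 <= B (1 + (w lam T)^(1+ε/4) (1 + T/lam)) <= B (1 + 2 T^(ε/2) w T^2)` (`lam <= T`, `w <= 1`,
so `w lam T <= T^2`). `H2` = the others: `pl h e ^ 2 - 4 det e det h` is constant on the lines `p + Z e` (it is the
discriminant of `det (p + t e)`), so every `p ∈ P` whose line meets `H2` satisfies `pl p e ^ 2 <> 4 det e det p` and S_Lin
bounds the number of points of `H2` on the line of `p` by `C' T^ε`: `card H2 <= C' T^ε card P`. -/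
def S_Cnt : Prop :=
  ∀ R ε : ℝ, 1 ≤ R → 0 < ε → ∃ C : ℝ, 1 ≤ C ∧ ∀ (w T lam : ℝ) (a b : MR) (e : MZ) (H P : Finset MZ),
    0 < w → w ≤ 1 → 1 ≤ T → 0 < lam → lam ≤ T → Um R a → Um R b → Prim e → e.det ≠ 0 → gau w a b e = lam →
    (∀ h ∈ H, h ∈ Bx w T a b ∧ Prim h ∧ IsSquare h.det) → Reps e H P →
    (H.card : ℝ) ≤ C * T ^ ε * ((P.card : ℝ) + w * T ^ 2 + 1)

/-- **PAIR ALTERNATIVE**. PROOF. `T = C B K >= 1`: `H ⊆ Bx w T a b` (`|A00| <= C m <= C B K` etc.), `det h = m^2`.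
`C1 w K <= 1` and `w <= 1`. `H` is not empty (`N >= 1`). Let `u1` be a non-zero element of smallest gauge `l` of the finite
set `Bx w T a b` (S_Bas (10)); all non-zero `u` have `l <= gau u` (those outside of the box have `gau u > T >= l`);
`l > 0`. By `Ty` (`0 <= l <= T <= C1 K`) and S_Prm (1) there is `e` primitive, `det e <> 0`, `lam := gau e <= ρ l`, `l <= lam`.
CASE `lam > T`: `l > T/ρ`, S_Pk (4): `card H <= (6 T/l)^4 <= (6 ρ)^4 < C1 ρ^4 <= N`, contradiction.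
CASE `lam <= T`: `P` from S_Rep, `Bset` = the finite set `Bx w (2T) a b` (contains `e`, `P`, `H`). S_Shf:
`card P <= (lam/T) card Bset`. S_Cnt with `ε' = ε`: `N <= card H <= C0 T^ε (card P + w T^2 + 1)`, and
`C0 T^ε (w T^2 + 1) <= N/2` if `C1` is large, so `N <= 2 C0 T^ε card P`.
(i) there are `u, v, t, x ∈ Bset` with `pl x (nm u v t) <> 0`: S_Vol4: `card Bset <= 31104 w^2 T^4`, S_Pk (4):
`card Bset <= (12 T/l)^4`. So `card Bset = (card Bset)^(3/4) (card Bset)^(1/4) <= (31104 w^2 T^4)^(3/4) (12 T/l)` and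
`card P <= 12 * 31104^(3/4) w^(3/2) T^3 (lam/l) <= C' ρ w^(3/2) T^3`: `N <= 2 C0 C' ρ T^ε w^(3/2) T^3`, contradiction to
`N >= C1 ρ^4 K^ε w^(3/2) K^3` for large `C1` (`N > 0`).
(ii) not (i), but `u, v, t ∈ Bset` with `nm u v t <> 0`: let `r` be the primitive part of `nm u v t` (S_Prm (1)); `pl x r = 0`
for all `x ∈ Bset` (as `pl x (nm u v t) = 0 = n pl x r`). Put `Z = w (C1 ρ K^(2+ε)/N)^(3/2)`. If `r ∈ Ab w Z a b` we are
done (`H ⊆ Bset`). Otherwise S_Vol3: `card Bset <= 3888 w T^3/Z`, S_Pk (3): `card Bset <= (20 T/l)^3`, so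
`card P <= (lam/T) (3888 w T^3/Z)^(2/3) (20 T/l) <= C' ρ T^2 (w/Z)^(2/3)` and
`N <= 2 C0 C' ρ T^(2+ε) (w/Z)^(2/3) = (2 C0 C' ρ T^(2+ε)/(C1 ρ K^(2+ε))) N < N` for large `C1`: contradiction.
(iii) all `nm u v t = 0` in `Bset`: S_Pk (2): `card Bset <= 144 (2T/l)^2`, `card P <= 576 (lam/T)(T/l)^2 <= 576 ρ T/l`,
`N <= 1152 C0 ρ T^(1+ε)/l`: `l <= C1 ρ K^(1+ε)/N`, and `u1` is as wanted. -/
def S_PA : Prop :=
  ∀ R C B ε : ℝ, 1 ≤ R → 1 ≤ C → 1 ≤ B → 0 < ε → ∃ C1 : ℝ, 1 ≤ C1 ∧ ∀ (w K ρ N : ℝ) (a b : MR) (H : Finset MZ),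
    0 < w → 1 ≤ K → C1 * w * K ≤ 1 → 1 ≤ ρ → Um R a → Um R b → Ty w ρ (C1 * K) a b →
    (∀ h ∈ H, SqR C B w K a b h) →
    C1 * ρ ^ 4 * K ^ ε * (1 + w * K ^ 2 + w ^ (3 / 2 : ℝ) * K ^ 3) ≤ N → N ≤ (H.card : ℝ) →
    (∃ u : MZ, u ≠ 0 ∧ u ∈ Bx w (C1 * ρ * K ^ (1 + ε) / N) a b) ∨
    (∃ r : MZ, Prim r ∧ r ∈ Ab w (w * (C1 * ρ * K ^ (2 + ε) / N) ^ (3 / 2 : ℝ)) a b ∧ ∀ h ∈ H, pl h r = 0)

/-- SN. Singular normal. PROOF. (a) `h ∈ H`, `A = fr a b h`, `det A = m^2`, `|A01 A10| <= C^2 w^2 m^2 <= m^2/2`, so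
`|A00|, |A11| >= m/(2C)`. `R' = fr a b r`, `R00 R11 = R01 R10`, `A00 R11 + A11 R00 = A01 R10 + A10 R01`
(S_Bas (7)). Put `ω = max(|R01|,|R10|)`, `D = max(|R00|,|R11|)`, say `D = |R00|` (the other case is symmetric). If
`D > 0`: `|R11| <= ω^2/D`, so `(m/(2C)) D <= C m ω^2/D + 2 C w m ω`, `D^2 <= 2 C^2 ω^2 + 4 C^2 ω D`, `D <= 6 C^2 ω`.
An entry of `r` is at least 1: `1 <= 4 R^2 max(D, ω) <= 24 C^2 R^2 ω`, so `gau w a b r >= ω/w >= 1/(24 C^2 R^2 w)`.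
(b) if `h, h' ∈ H` and `h - h' = t • r` then `|t| gau r <= 2 C B K`, so `t = 0` by `C1 w K <= 1`.
(c) `r` is primitive of determinant zero: `r = p ⊗ q` (`r i j = p i * q j`) with `p, q` primitive in `Z^2`. Put
`q' = (- q 1, q 0)`, so `r q' = 0`. `pl h r = q · (adj h p) = 0`, so `adj h * p = c • q'` (`q` primitive), hence
`m^2 p = h (adj h p) = c • h q'`; `c <> 0`, and as `p` is primitive `h q' = c' • p`, `c c' = m^2`.
(d) `(m, c')` determines `h`: if `h, h'` have the same `m`, `c'` (so the same `c`), `x = h - h'` satisfies `x q' = 0` and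
`adj x p = 0`: the rows of `x` are multiples of `q`, `x i j = s i * q j`, and `adj x p = 0` gives `s` parallel to `p`,
`x = t • r` (`p` primitive), `t = 0` by (b). (e) number of `(m, c')`: `m <= B K`, `c'` divides `m^2`, two signs: at most
`B K * 2 C_ε (B K)^ε` (divisor bound). -/
def S_SN : Prop :=
  ∀ R C B ε : ℝ, 1 ≤ R → 1 ≤ C → 1 ≤ B → 0 < ε → ∃ C1 : ℝ, 1 ≤ C1 ∧ ∀ (w K : ℝ) (a b : MR) (r : MZ) (H : Finset MZ),
    0 < w → 1 ≤ K → C1 * w * K ≤ 1 → Um R a → Um R b → Prim r → r.det = 0 →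
    (∀ h ∈ H, SqR C B w K a b h ∧ pl h r = 0) → (H.card : ℝ) ≤ C1 * K ^ (1 + ε)

/-- SNq. The same for a common pair of rational directions. PROOF. `r0 = !![qb 0 * qa 1, - qb 0 * qa 0; qb 1 * qa 1,
- qb 1 * qa 0]`, `r0 <> 0`, `det r0 = 0`, `pl h r0 = qb 0 (h qa) 1 - qb 1 (h qa) 0 = 0`; `r` = the primitive part of `r0`
(S_Prm (1)), S_SN. -/
def S_SNq : Prop :=
  ∀ R C B ε : ℝ, 1 ≤ R → 1 ≤ C → 1 ≤ B → 0 < ε → ∃ C1 : ℝ, 1 ≤ C1 ∧ ∀ (w K : ℝ) (a b : MR) (qa qb : Fin 2 → ℤ)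
    (H : Finset MZ), 0 < w → 1 ≤ K → C1 * w * K ≤ 1 → Um R a → Um R b → qa ≠ 0 → qb ≠ 0 →
    (∀ h ∈ H, SqR C B w K a b h ∧ (h *ᵥ qa) 0 * qb 1 = (h *ᵥ qa) 1 * qb 0) → (H.card : ℝ) ≤ C1 * K ^ (1 + ε)

end HSB
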