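import Pool.Agent.Lib.HS.Bd.Defs

/-!
# HS/Bd/C, module Ty: the TYPE LEMMA

Cells of the same type: if the gauge box of size `T` from `a` to `b` contains a non-zero vector, the box of size
`C w^(-2 δ) T` contains a non-singular one (a singular vector is `p ⊗ q`, `p` a rational near one axis at `b`, `q` orthogonal to a
rational `r` near the other axis at `a`; the same type gives such rationals with exchanged axes, and the sum of the two
singular matrices is non-singular).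
-/

set_option autoImplicit false

namespace HSB

open HSL Matrix

/-- there is a rational near the axis `s` with these two exponents -/
def TyS (w δ : ℝ) (s : Fin 2) (i j : ℕ) (a : MR) : Prop :=
  ∃ q : Fin 2 → ℤ, q ≠ 0 ∧ |co a q s| ≤ w ^ (-((i : ℝ) * δ)) ∧ |co a q (1 - s)| ≤ w ^ ((j : ℝ) * δ)

/-- the same type (up to `n`) -/
def SameTy (w δ : ℝ) (n : ℕ) (a b : MR) : Prop :=
  ∀ s : Fin 2, ∀ i ≤ n, ∀ j ≤ n, (TyS w δ s i j a ↔ TyS w δ s i j b)

namespace TyM

lemma adj00 (a : MR) : a.adjugate 0 0 = a 1 1 := by rw [Matrix.adjugate_fin_two]; rfl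
lemma adj01 (a : MR) : a.adjugate 0 1 = -a 0 1 := by rw [Matrix.adjugate_fin_two]; rfl
lemma adj10 (a : MR) : a.adjugate 1 0 = -a 1 0 := by rw [Matrix.adjugate_fin_two]; rfl
lemma adj11 (a : MR) : a.adjugate 1 1 = a 0 0 := by rw [Matrix.adjugate_fin_two]; rfl

lemma coE (a : MR) (q : Fin 2 → ℤ) (i : Fin 2) : co a q i = a.adjugate i 0 * q 0 + a.adjugate i 1 * q 1 := by
  simp only [co, Matrix.mulVec, dotProduct, Fin.sum_univ_two]
lemma co0 (a : MR) (q : Fin 2 → ℤ) : co a q 0 = a 1 1 * q 0 - a 0 1 * q 1 := by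
  rw [coE, adj00, adj01]; ring
lemma co1 (a : MR) (q : Fin 2 → ℤ) : co a q 1 = a 0 0 * q 1 - a 1 0 * q 0 := by
  rw [coE, adj10, adj11]; ring

/-- a non-zero integral vector has a coordinate of size at least `1/(2R)` -/
lemma low {R : ℝ} {a : MR} (ha : Um R a) (hR : 1 ≤ R) {q : Fin 2 → ℤ} (hq : q ≠ 0) (s : Fin 2)
    (h : |co a q (1 - s)| < 1 / (2 * R)) : 1 / (2 * R) ≤ |co a q s| := by
  by_contra hc
  have hc := not_lt.1 (fun hh => hc (le_of_lt hh)) |>.lt_of_ne (fun he => hc he.ge)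
  have h0 : |co a q 0| < 1 / (2 * R) := by
    fin_cases s
    · exact hc
    · exact h
  have h1 : |co a q 1| < 1 / (2 * R) := by
    fin_cases s
    · exact h
    · exact hc
  have hdet : a 0 0 * a 1 1 - a 0 1 * a 1 0 = 1 := by rw [← Matrix.det_fin_two]; exact ha.1
  have e0 : (q 0 : ℝ) = a 0 0 * co a q 0 + a 0 1 * co a q 1 := by
    rw [co0, co1]; linear_combination (-(q 0 : ℝ)) * hdet
  have e1 : (q 1 : ℝ) = a 1 0 * co a q 0 + a 1 1 * co a q 1 := by
    rw [co0, co1]; linear_combination (-(q 1 : ℝ)) * hdet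
  have hR0 : 0 < R := by linarith
  have key : ∀ x y : ℝ, |x| ≤ R → |y| ≤ R → |x * co a q 0 + y * co a q 1| < 1 := by
    intro x y hx hy
    have a1 : |x * co a q 0| < R * (1 / (2 * R)) := by
      rw [abs_mul]
      exact lt_of_le_of_lt (mul_le_mul_of_nonneg_right hx (abs_nonneg _)) (mul_lt_mul_of_pos_left h0 hR0)
    have a2 : |y * co a q 1| < R * (1 / (2 * R)) := by
      rw [abs_mul]
      exact lt_of_le_of_lt (mul_le_mul_of_nonneg_right hy (abs_nonneg _)) (mul_lt_mul_of_pos_left h1 hR0)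
    have a3 : R * (1 / (2 * R)) = 1 / 2 := by field_simp
    have a4 := abs_add_le (x * co a q 0) (y * co a q 1)
    rw [a3] at a1 a2
    linarith
  have z0 : q 0 = 0 := by
    have := key _ _ (ha.2 0 0) (ha.2 0 1)
    rw [← e0] at this
    have h' : |q 0| < 1 := by exact_mod_cast this
    exact Int.abs_lt_one_iff.1 h'
  have z1 : q 1 = 0 := by
    have := key _ _ (ha.2 1 0) (ha.2 1 1)
    rw [← e1] at this
    have h' : |q 1| < 1 := by exact_mod_cast this
    exact Int.abs_lt_one_iff.1 h'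
  apply hq
  funext i
  fin_cases i
  · exact z0
  · exact z1

/-- the exponent of a large coordinate -/
lemma E1 {w δ R x : ℝ} {n : ℕ} (hw : 0 < w) (hw1 : w ≤ 1) (hδ : 0 < δ) (hR : 1 ≤ R) (hx : 1 / (2 * R) ≤ x)
    (hxn : x ≤ w ^ (-((n : ℝ) * δ))) :
    ∃ i ≤ n, x ≤ w ^ (-((i : ℝ) * δ)) ∧ w ^ (-((i : ℝ) * δ)) ≤ 2 * R * (w ^ (-δ) * x) := by
  classical
  have hex : ∃ i : ℕ, x ≤ w ^ (-((i : ℝ) * δ)) := ⟨n, hxn⟩
  refine ⟨Nat.find hex, Nat.find_min' hex hxn, Nat.find_spec hex, ?_⟩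
  have hx0 : 0 < x := lt_of_lt_of_le (by positivity) hx
  have h1 : 1 ≤ 2 * R * x := by
    have := mul_le_mul_of_nonneg_left hx (by linarith : (0 : ℝ) ≤ 2 * R)
    rwa [mul_one_div_cancel (by linarith : (2 * R : ℝ) ≠ 0)] at this
  have hd : 1 ≤ w ^ (-δ) := Real.one_le_rpow_of_pos_of_le_one_of_nonpos hw hw1 (by linarith)
  rcases Nat.eq_zero_or_pos (Nat.find hex) with h0 | h0
  · rw [h0]
    simp only [Nat.cast_zero, zero_mul, neg_zero, Real.rpow_zero]
    have h5 : 2 * R * x ≤ 2 * R * (w ^ (-δ) * x) :=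
      mul_le_mul_of_nonneg_left (le_mul_of_one_le_left hx0.le hd) (by linarith)
    exact h1.trans h5
  · obtain ⟨k, hk⟩ : ∃ k, Nat.find hex = k + 1 := ⟨Nat.find hex - 1, by omega⟩
    have hm : ¬ x ≤ w ^ (-((k : ℝ) * δ)) := Nat.find_min hex (by omega)
    rw [hk]
    have he : w ^ (-(((k + 1 : ℕ) : ℝ) * δ)) = w ^ (-δ) * w ^ (-((k : ℝ) * δ)) := by
      rw [← Real.rpow_add hw]
      congr 1
      push_cast
      ring
    rw [he]
    have h2 := (not_le.1 hm).le
    have h3 : w ^ (-δ) * w ^ (-((k : ℝ) * δ)) ≤ w ^ (-δ) * x := mul_le_mul_of_nonneg_left h2 (by linarith)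
    have h4 : 0 ≤ w ^ (-δ) * x := by positivity
    exact h3.trans (le_mul_of_one_le_left h4 (by linarith))

/-- the exponent of a small coordinate -/
lemma E2 {w δ y : ℝ} {n : ℕ} (hw : 0 < w) (hw1 : w ≤ 1) (hn : 1 ≤ n) (hnδ : 4 ≤ (n : ℝ) * δ)
    (hy : 0 ≤ y) (hy1 : y ≤ w ^ δ) :
    ∃ j ≤ n, 1 ≤ j ∧ y ≤ w ^ ((j : ℝ) * δ) ∧ w ^ ((j : ℝ) * δ) ≤ w ^ (-δ) * y + w ^ (4 : ℝ) := by
  classical
  have hp4 : 0 < w ^ (4 : ℝ) := Real.rpow_pos_of_pos hw _
  have hpd : 0 < w ^ (-δ) := Real.rpow_pos_of_pos hw _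
  by_cases hfin : y ≤ w ^ ((n : ℝ) * δ)
  · refine ⟨n, le_rfl, hn, hfin, ?_⟩
    have := Real.rpow_le_rpow_of_exponent_ge hw hw1 hnδ
    have h2 : 0 ≤ w ^ (-δ) * y := mul_nonneg hpd.le hy
    linarith
  · have hex : ∃ j : ℕ, ¬ y ≤ w ^ (((j + 1 : ℕ) : ℝ) * δ) := ⟨n - 1, by
      rw [Nat.sub_add_cancel hn]; exact hfin⟩
    obtain ⟨k, hk, hmin⟩ : ∃ k : ℕ, (¬ y ≤ w ^ (((k + 1 : ℕ) : ℝ) * δ)) ∧ ∀ m < k, y ≤ w ^ (((m + 1 : ℕ) : ℝ) * δ) :=
      ⟨Nat.find hex, Nat.find_spec hex, fun m hm => not_not.1 (Nat.find_min hex hm)⟩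
    have hk0 : 1 ≤ k := by
      rcases Nat.eq_zero_or_pos k with h0 | h0
      · exfalso
        apply hk
        rw [h0]
        simpa using hy1
      · exact h0
    have hkn : k ≤ n := by
      by_contra hc
      push Not at hc
      have := hmin (n - 1) (by omega)
      rw [Nat.sub_add_cancel hn] at this
      exact hfin this
    refine ⟨k, hkn, hk0, ?_, ?_⟩
    · have := hmin (k - 1) (by omega)
      rwa [Nat.sub_add_cancel hk0] at this
    · have h2 := (not_le.1 hk).le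
      have he : w ^ ((k : ℝ) * δ) = w ^ (-δ) * w ^ (((k + 1 : ℕ) : ℝ) * δ) := by
        rw [← Real.rpow_add hw]
        congr 1
        push_cast
        ring
      rw [he]
      have := mul_le_mul_of_nonneg_left h2 hpd.le
      linarith

lemma ss (s : Fin 2) : 1 - (1 - s) = s := by
  fin_cases s <;> rfl

/-- `x` large, `y` small: the difference does not vanish -/
lemma ne_of_big {c x1 x2 y1 y2 : ℝ} (hc : 0 < c) (h1 : c ≤ |x1|) (h2 : c ≤ |x2|) (h3 : |y1| < c) (h4 : |y2| < c) :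
    x1 * x2 - y1 * y2 ≠ 0 := by
  intro h
  have e : |x1| * |x2| = |y1| * |y2| := by
    rw [← abs_mul, ← abs_mul, sub_eq_zero.1 h]
  have a : c * c ≤ |x1| * |x2| := mul_le_mul h1 h2 hc.le (hc.le.trans h1)
  have b : |y1| * |y2| < c * c := mul_lt_mul'' h3 h4 (abs_nonneg _) (abs_nonneg _)
  linarith

lemma wle {R δ w : ℝ} (hR : 1 ≤ R) (hδ : 0 < δ) (hwδ : 20 * R ^ 2 * w ^ δ ≤ 1) : w ≤ 1 := by
  by_contra hc
  push Not at hc
  have h1 := Real.one_lt_rpow hc hδ
  have h2 : 1 ≤ R ^ 2 := one_le_pow₀ hR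
  have h3 : 1 ≤ R ^ 2 * w ^ δ := one_le_mul_of_one_le_of_one_le h2 h1.le
  linarith

/-- the core of the type lemma, for one axis `s` -/
lemma core {R δ w T : ℝ} {n : ℕ} {a b : MR} (hR : 1 ≤ R) (hδ : 0 < δ) (hw : 0 < w) (hn : 4 ≤ (n : ℝ) * δ)
    (hwδ : 20 * R ^ 2 * w ^ δ ≤ 1) (hT : 20 * R ^ 2 * (w ^ (1 - δ) * T) ≤ 1)
    (ha : Um R a) (hb : Um R b) (hty : SameTy w δ n a b) (s : Fin 2)
    {p r : Fin 2 → ℤ} (hp : p ≠ 0) (hr : r ≠ 0)
    (h1 : |co b p s| * |co a r s| ≤ w * T) (h2 : |co b p (1 - s)| * |co a r (1 - s)| ≤ w * T)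
    (h3 : |co b p s| * |co a r (1 - s)| ≤ T) (h5 : |co b p (1 - s)| ≤ |co b p s|) :
    ∃ r' p' : Fin 2 → ℤ,
      |co b r' (1 - s)| * |co a p' s| ≤ 6 * R ^ 2 * (w ^ (-(2 * δ)) * T) ∧
      |co b r' s| * |co a p' (1 - s)| ≤ 6 * R ^ 2 * (w ^ (-(2 * δ)) * T) ∧
      |co b r' s| * |co a p' s| ≤ 6 * R ^ 2 * (w ^ (-(2 * δ)) * (w * T)) ∧
      |co b r' (1 - s)| * |co a p' (1 - s)| ≤ 6 * R ^ 2 * (w ^ (-(2 * δ)) * (w * T)) ∧
      co b p s * co b r' (1 - s) - co b p (1 - s) * co b r' s ≠ 0 ∧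
      co a r (1 - s) * co a p' s - co a r s * co a p' (1 - s) ≠ 0 := by
  have hR0 : 0 < R := by linarith
  have hRR : R ≤ R ^ 2 := by
    rw [sq]
    exact le_mul_of_one_le_left hR0.le hR
  have hR2 : 1 ≤ R ^ 2 := hR.trans hRR
  have hw1 : w ≤ 1 := wle hR hδ hwδ
  have hn1 : 1 ≤ n := by
    rcases Nat.eq_zero_or_pos n with h0 | h0
    · rw [h0] at hn
      norm_num at hn
    · exact h0
  obtain ⟨D, hD⟩ : ∃ D, D = w ^ δ := ⟨_, rfl⟩
  obtain ⟨U, hU⟩ : ∃ U, U = w ^ (-δ) := ⟨_, rfl⟩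
  have hD0 : 0 < D := hD ▸ Real.rpow_pos_of_pos hw _
  have hU0 : 0 < U := hU ▸ Real.rpow_pos_of_pos hw _
  have hU1 : 1 ≤ U := hU ▸ Real.one_le_rpow_of_pos_of_le_one_of_nonpos hw hw1 (by linarith)
  have hU2 : w ^ (-(2 * δ)) = U * U := by
    rw [hU, ← Real.rpow_add hw]; congr 1; ring
  rw [← hD] at hwδ
  obtain ⟨c, hc⟩ : ∃ c, c = 1 / (2 * R) := ⟨_, rfl⟩
  have hc0 : 0 < c := hc ▸ by positivity
  have hcR : 2 * R * c = 1 := by rw [hc]; field_simp
  have hDR : D * (2 * R) ≤ 1 / 10 := by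
    have e1 : D * R ≤ D * R ^ 2 := mul_le_mul_of_nonneg_left hRR hD0.le
    linarith
  have hDc : D < c := by
    rw [hc, lt_div_iff₀ (by positivity)]
    linarith
  have hD1 : D ≤ 1 := by
    have e1 : D * 1 ≤ D * R := mul_le_mul_of_nonneg_left hR hD0.le
    linarith
  have hwT : 20 * R ^ 2 * (w * T) ≤ D := by
    have e : w * T = D * (w ^ (1 - δ) * T) := by
      have : D * w ^ (1 - δ) = w := by
        rw [hD, ← Real.rpow_add hw]
        norm_num
      rw [← mul_assoc, this]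
    rw [e]
    calc 20 * R ^ 2 * (D * (w ^ (1 - δ) * T)) = D * (20 * R ^ 2 * (w ^ (1 - δ) * T)) := by ring
      _ ≤ D * 1 := mul_le_mul_of_nonneg_left hT hD0.le
      _ = D := mul_one D
  have hT2 : 20 * R ^ 2 * T ≤ w ^ (-(1 - δ)) := by
    have e : T = w ^ (-(1 - δ)) * (w ^ (1 - δ) * T) := by
      rw [← mul_assoc, ← Real.rpow_add hw]
      norm_num
    have hp0 : 0 < w ^ (-(1 - δ)) := Real.rpow_pos_of_pos hw _
    calc 20 * R ^ 2 * T = w ^ (-(1 - δ)) * (20 * R ^ 2 * (w ^ (1 - δ) * T)) := by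
          conv_lhs => rw [e]
          ring
      _ ≤ w ^ (-(1 - δ)) * 1 := mul_le_mul_of_nonneg_left hT hp0.le
      _ = _ := mul_one _
  -- lower bounds
  have hPc : c ≤ |co b p s| := by
    by_contra hcon
    push Not at hcon
    have h' : |co b p (1 - (1 - s))| < 1 / (2 * R) := by rw [ss, ← hc]; exact hcon
    have := low hb hR hp (1 - s) h'
    rw [← hc] at this
    linarith
  have hA : |co a r s| ≤ 2 * R * (w * T) := by
    have : c * |co a r s| ≤ w * T := (mul_le_mul_of_nonneg_right hPc (abs_nonneg _)).trans h1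
    calc |co a r s| = 2 * R * (c * |co a r s|) := by rw [← mul_assoc, hcR, one_mul]
      _ ≤ 2 * R * (w * T) := mul_le_mul_of_nonneg_left this (by linarith)
  have hwT0 : 0 ≤ w * T := le_trans (mul_nonneg (abs_nonneg _) (abs_nonneg _)) h1
  have h2R : 2 * R * (w * T) ≤ 20 * R ^ 2 * (w * T) := mul_le_mul_of_nonneg_right (by linarith) hwT0
  have hAD : |co a r s| ≤ D := by linarith
  have hBc : c ≤ |co a r (1 - s)| := by
    have h' : |co a r (1 - (1 - s))| < 1 / (2 * R) := by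
      rw [ss, ← hc]; exact lt_of_le_of_lt hAD hDc
    have := low ha hR hr (1 - s) h'
    rwa [← hc] at this
  have hP1 : |co b p (1 - s)| ≤ 2 * R * (w * T) := by
    have : c * |co b p (1 - s)| ≤ w * T := by
      refine le_trans ?_ h2
      rw [mul_comm]
      exact mul_le_mul_of_nonneg_left hBc (abs_nonneg _)
    calc |co b p (1 - s)| = 2 * R * (c * |co b p (1 - s)|) := by rw [← mul_assoc, hcR, one_mul]
      _ ≤ 2 * R * (w * T) := mul_le_mul_of_nonneg_left this (by linarith)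
  have hP1D : |co b p (1 - s)| ≤ D := by linarith
  have hcc : c * c ≤ T := (mul_le_mul hPc hBc hc0.le (abs_nonneg _)).trans h3
  have hT0 : 0 < T := lt_of_lt_of_le (mul_pos hc0 hc0) hcc
  have hT1 : 1 ≤ 4 * R ^ 2 * T := by
    have : 4 * R ^ 2 * (c * c) = 1 := by
      calc 4 * R ^ 2 * (c * c) = (2 * R * c) * (2 * R * c) := by ring
        _ = 1 := by rw [hcR]; norm_num
    calc (1 : ℝ) = 4 * R ^ 2 * (c * c) := this.symm
      _ ≤ 4 * R ^ 2 * T := mul_le_mul_of_nonneg_left hcc (by positivity)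
  have hPT : |co b p s| ≤ 2 * R * T := by
    have : c * |co b p s| ≤ T := by
      refine le_trans ?_ h3
      rw [mul_comm]
      exact mul_le_mul_of_nonneg_left hBc (abs_nonneg _)
    calc |co b p s| = 2 * R * (c * |co b p s|) := by rw [← mul_assoc, hcR, one_mul]
      _ ≤ 2 * R * T := mul_le_mul_of_nonneg_left this (by linarith)
  have hBT : |co a r (1 - s)| ≤ 2 * R * T := by
    have : c * |co a r (1 - s)| ≤ T := (mul_le_mul_of_nonneg_right hPc (abs_nonneg _)).trans h3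
    calc |co a r (1 - s)| = 2 * R * (c * |co a r (1 - s)|) := by rw [← mul_assoc, hcR, one_mul]
      _ ≤ 2 * R * T := mul_le_mul_of_nonneg_left this (by linarith)
  have hbig : 2 * R * T ≤ w ^ (-((n : ℝ) * δ)) := by
    have e1 : w ^ (-(1 - δ)) ≤ w ^ (-((n : ℝ) * δ)) :=
      Real.rpow_le_rpow_of_exponent_ge hw hw1 (by linarith)
    have e2 : 2 * R * T ≤ 20 * R ^ 2 * T := mul_le_mul_of_nonneg_right (by linarith) hT0.le
    linarith
  -- exponents
  obtain ⟨i, hi, hi1, hi2⟩ := E1 (n := n) hw hw1 hδ hR (hc ▸ hPc) (hPT.trans hbig)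
  obtain ⟨i', hi', hi1', hi2'⟩ := E1 (n := n) hw hw1 hδ hR (hc ▸ hBc) (hBT.trans hbig)
  obtain ⟨j, hj, hj0, hj1, hj2⟩ := E2 hw hw1 hn1 hn (abs_nonneg (co b p (1 - s))) (hD ▸ hP1D)
  obtain ⟨j', hj', hj0', hj1', hj2'⟩ := E2 hw hw1 hn1 hn (abs_nonneg (co a r s)) (hD ▸ hAD)
  rw [← hU] at hi2 hi2' hj2 hj2'
  obtain ⟨p', hp'0, hp'1, hp'2⟩ := (hty s i hi j hj).2 ⟨p, hp, hi1, hj1⟩
  obtain ⟨r', hr'0, hr'1, hr'2⟩ := (hty (1 - s) i' hi' j' hj').1 ⟨r, hr, hi1', by rw [ss]; exact hj1'⟩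
  rw [ss] at hr'2
  have hjD : w ^ ((j : ℝ) * δ) ≤ D := by
    rw [hD]
    refine Real.rpow_le_rpow_of_exponent_ge hw hw1 ?_
    have : (1 : ℝ) ≤ j := by exact_mod_cast hj0
    exact le_mul_of_one_le_left hδ.le this
  have hjD' : w ^ ((j' : ℝ) * δ) ≤ D := by
    rw [hD]
    refine Real.rpow_le_rpow_of_exponent_ge hw hw1 ?_
    have : (1 : ℝ) ≤ j' := by exact_mod_cast hj0'
    exact le_mul_of_one_le_left hδ.le this
  have hw4 : w ^ (4 : ℝ) ≤ w * U := by
    have e : w ^ (4 : ℝ) ≤ w ^ (1 : ℝ) := Real.rpow_le_rpow_of_exponent_ge hw hw1 (by norm_num)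
    rw [Real.rpow_one] at e
    exact e.trans (le_mul_of_one_le_right hw.le hU1)
  have hw40 : 0 < w ^ (4 : ℝ) := Real.rpow_pos_of_pos hw _
  have hUU : 1 ≤ U * U := one_le_mul_of_one_le_of_one_le hU1 hU1
  refine ⟨r', p', ?_, ?_, ?_, ?_, ?_, ?_⟩
  · rw [hU2]
    calc |co b r' (1 - s)| * |co a p' s|
        ≤ (2 * R * (U * |co a r (1 - s)|)) * (2 * R * (U * |co b p s|)) :=
          mul_le_mul (hr'1.trans hi2') (hp'1.trans hi2) (abs_nonneg _) (by positivity)
      _ = 4 * R ^ 2 * (U * U * (|co b p s| * |co a r (1 - s)|)) := by ring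
      _ ≤ 4 * R ^ 2 * (U * U * T) :=
          mul_le_mul_of_nonneg_left (mul_le_mul_of_nonneg_left h3 (by positivity)) (by positivity)
      _ ≤ 6 * R ^ 2 * (U * U * T) :=
          mul_le_mul_of_nonneg_right (by linarith) (by positivity)
  · rw [hU2]
    calc |co b r' s| * |co a p' (1 - s)| ≤ 1 * 1 :=
          mul_le_mul (hr'2.trans (hjD'.trans hD1)) (hp'2.trans (hjD.trans hD1)) (abs_nonneg _) (by norm_num)
      _ ≤ (4 * R ^ 2 * T) * (U * U) := mul_le_mul hT1 hUU (by norm_num) (by positivity)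
      _ = 4 * R ^ 2 * (U * U * T) := by ring
      _ ≤ 6 * R ^ 2 * (U * U * T) := mul_le_mul_of_nonneg_right (by linarith) (by positivity)
  · rw [hU2]
    have k1 : |co b r' s| ≤ U * |co a r s| + w * U := (hr'2.trans hj2').trans (by linarith)
    calc |co b r' s| * |co a p' s|
        ≤ (U * |co a r s| + w * U) * (2 * R * (U * |co b p s|)) :=
          mul_le_mul k1 (hp'1.trans hi2) (abs_nonneg _) (by positivity)
      _ = 2 * R * (U * U) * (|co b p s| * |co a r s|) + 2 * R * (U * U) * w * |co b p s| := by ring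
      _ ≤ 2 * R * (U * U) * (w * T) + 2 * R * (U * U) * w * (2 * R * T) :=
          add_le_add (mul_le_mul_of_nonneg_left h1 (by positivity)) (mul_le_mul_of_nonneg_left hPT (by positivity))
      _ = (2 * R + 4 * R ^ 2) * (U * U * (w * T)) := by ring
      _ ≤ 6 * R ^ 2 * (U * U * (w * T)) :=
          mul_le_mul_of_nonneg_right (by linarith) (by positivity)
  · rw [hU2]
    have k1 : |co a p' (1 - s)| ≤ U * |co b p (1 - s)| + w * U := (hp'2.trans hj2).trans (by linarith)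
    calc |co b r' (1 - s)| * |co a p' (1 - s)|
        ≤ (2 * R * (U * |co a r (1 - s)|)) * (U * |co b p (1 - s)| + w * U) :=
          mul_le_mul (hr'1.trans hi2') k1 (abs_nonneg _) (by positivity)
      _ = 2 * R * (U * U) * (|co b p (1 - s)| * |co a r (1 - s)|) + 2 * R * (U * U) * w * |co a r (1 - s)| := by ring
      _ ≤ 2 * R * (U * U) * (w * T) + 2 * R * (U * U) * w * (2 * R * T) :=
          add_le_add (mul_le_mul_of_nonneg_left h2 (by positivity)) (mul_le_mul_of_nonneg_left hBT (by positivity))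
      _ = (2 * R + 4 * R ^ 2) * (U * U * (w * T)) := by ring
      _ ≤ 6 * R ^ 2 * (U * U * (w * T)) :=
          mul_le_mul_of_nonneg_right (by linarith) (by positivity)
  · have k2 : |co b r' s| < c := lt_of_le_of_lt (hr'2.trans hjD') hDc
    have k3 : c ≤ |co b r' (1 - s)| := by
      have := low hb hR hr'0 (1 - s) (by rw [ss, ← hc]; exact k2)
      rwa [← hc] at this
    exact ne_of_big hc0 hPc k3 (lt_of_le_of_lt hP1D hDc) k2
  · have k2 : |co a p' (1 - s)| < c := lt_of_le_of_lt (hp'2.trans hjD) hDc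
    have k3 : c ≤ |co a p' s| := by
      have := low ha hR hp'0 s (by rw [← hc]; exact k2)
      rwa [← hc] at this
    exact ne_of_big hc0 hBc k3 (lt_of_le_of_lt hAD hDc) k2

/-- a singular non-zero integral matrix is a product of a column and a row -/
lemma fact {u : MZ} (hu : u ≠ 0) (hd : u.det = 0) :
    ∃ p q : Fin 2 → ℤ, p ≠ 0 ∧ q ≠ 0 ∧ ∀ i j, u i j = p i * q j := by
  rw [Matrix.det_fin_two] at hd
  have key : ∃ p q : Fin 2 → ℤ, ∀ i j, u i j = p i * q j := by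
    by_cases h0 : u 0 0 = 0 ∧ u 1 0 = 0
    · refine ⟨fun i => u i 1, ![0, 1], ?_⟩
      intro i j
      fin_cases i <;> fin_cases j <;> simp [h0.1, h0.2]
    · have hg : (Int.gcd (u 0 0) (u 1 0) : ℤ) ≠ 0 := by
        intro h
        have : Int.gcd (u 0 0) (u 1 0) = 0 := by exact_mod_cast h
        exact h0 (Int.gcd_eq_zero_iff.1 this)
      obtain ⟨g, hgd⟩ : ∃ g : ℤ, g = Int.gcd (u 0 0) (u 1 0) := ⟨_, rfl⟩
      obtain ⟨x', hx'⟩ : (Int.gcd (u 0 0) (u 1 0) : ℤ) ∣ u 0 0 := Int.gcd_dvd_left _ _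
      obtain ⟨z', hz'⟩ : (Int.gcd (u 0 0) (u 1 0) : ℤ) ∣ u 1 0 := Int.gcd_dvd_right _ _
      have hb := Int.gcd_eq_gcd_ab (u 0 0) (u 1 0)
      rw [← hgd] at hx' hz' hb hg
      obtain ⟨e, f, hef⟩ : ∃ e f : ℤ, e * x' + f * z' = 1 := by
        refine ⟨Int.gcdA (u 0 0) (u 1 0), Int.gcdB (u 0 0) (u 1 0), ?_⟩
        have : g * (Int.gcdA (u 0 0) (u 1 0) * x' + Int.gcdB (u 0 0) (u 1 0) * z') = g * 1 := by
          calc g * (Int.gcdA (u 0 0) (u 1 0) * x' + Int.gcdB (u 0 0) (u 1 0) * z')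
              = (g * x') * Int.gcdA (u 0 0) (u 1 0) + (g * z') * Int.gcdB (u 0 0) (u 1 0) := by ring
            _ = u 0 0 * Int.gcdA (u 0 0) (u 1 0) + u 1 0 * Int.gcdB (u 0 0) (u 1 0) := by rw [← hx', ← hz']
            _ = g * 1 := by rw [mul_one]; exact hb.symm
        exact mul_left_cancel₀ hg this
      have hxz : x' * u 1 1 = z' * u 0 1 := by
        have : g * (x' * u 1 1) = g * (z' * u 0 1) := by
          rw [← mul_assoc, ← mul_assoc, ← hx', ← hz']
          linarith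
        exact mul_left_cancel₀ hg this
      refine ⟨![x', z'], ![g, e * u 0 1 + f * u 1 1], ?_⟩
      intro i j
      fin_cases i <;> fin_cases j
      · simpa [mul_comm] using hx'
      · show u 0 1 = x' * (e * u 0 1 + f * u 1 1)
        linear_combination (-(u 0 1)) * hef - f * hxz
      · simpa [mul_comm] using hz'
      · show u 1 1 = z' * (e * u 0 1 + f * u 1 1)
        linear_combination (-(u 1 1)) * hef + e * hxz
  obtain ⟨p, q, hpq⟩ := key
  refine ⟨p, q, ?_, ?_, hpq⟩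
  · rintro rfl
    apply hu
    ext i j
    rw [hpq]
    simp
  · rintro rfl
    apply hu
    ext i j
    rw [hpq]
    simp

/-- the frame of a product of a column and a row -/
lemma fr_pq (a b : MR) {u : MZ} {p q : Fin 2 → ℤ} (h : ∀ i j, u i j = p i * q j) (i j : Fin 2) :
    fr a b u i j = co b p i * ((q 0 : ℝ) * a 0 j + q 1 * a 1 j) := by
  simp only [fr, toR, Matrix.mul_apply, Fin.sum_univ_two, Matrix.map_apply, h, coE, Int.cast_mul]
  ring

end TyM

open TyM in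
/-- **TYPE LEMMA** -/
theorem type_lemma {R δ : ℝ} (hR : 1 ≤ R) (hδ : 0 < δ) {n : ℕ} (hn : 4 ≤ (n : ℝ) * δ) {w : ℝ} {a b : MR} (hw : 0 < w)
    (hwδ : 20 * R ^ 2 * w ^ δ ≤ 1) (ha : Um R a) (hb : Um R b) (hty : SameTy w δ n a b) {T : ℝ}
    (hT : 20 * R ^ 2 * (w ^ (1 - δ) * T) ≤ 1) (hu : ∃ u : MZ, u ≠ 0 ∧ u ∈ Bx w T a b) :
    ∃ u' : MZ, u'.det ≠ 0 ∧ u' ∈ Bx w (20 * R ^ 2 * w ^ (-(2 * δ)) * T) a b := by
  obtain ⟨u, hu0, hu1⟩ := hu
  have hw1 : w ≤ 1 := wle hR hδ hwδ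
  have hT0 : 0 ≤ T := (abs_nonneg _).trans hu1.1
  have hV1 : 1 ≤ w ^ (-(2 * δ)) := Real.one_le_rpow_of_pos_of_le_one_of_nonpos hw hw1 (by linarith)
  obtain ⟨V, hV⟩ : ∃ V, V = w ^ (-(2 * δ)) := ⟨_, rfl⟩
  rw [← hV] at hV1
  have hR2 : 1 ≤ R ^ 2 := one_le_pow₀ hR
  have hRV : 1 ≤ R ^ 2 * V := one_le_mul_of_one_le_of_one_le hR2 hV1
  have hsum : ∀ t : ℝ, 0 ≤ t → t + 6 * R ^ 2 * (V * t) ≤ 20 * R ^ 2 * V * t := by
    intro t ht
    have : t ≤ R ^ 2 * V * t := le_mul_of_one_le_left ht hRV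
    have h0 : 0 ≤ R ^ 2 * V * t := ht.trans this
    linarith
  by_cases hd : u.det = 0
  · obtain ⟨p, q, hp0, hq0, hpq⟩ := fact hu0 hd
    rw [← hV]
    obtain ⟨r, hr⟩ : ∃ r : Fin 2 → ℤ, r = ![q 1, -q 0] := ⟨_, rfl⟩
    have hr0' : r 0 = q 1 := by rw [hr]; rfl
    have hr1' : r 1 = -q 0 := by rw [hr]; rfl
    have hr0 : r ≠ 0 := by
      intro h
      apply hq0
      funext i
      fin_cases i
      · have := congrFun h 1
        rw [hr1'] at this
        simpa using this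
      · have := congrFun h 0
        rw [hr0'] at this
        simpa using this
    have c0 : co a r 0 = (q 0 : ℝ) * a 0 1 + q 1 * a 1 1 := by
      rw [co0, hr0', hr1']; push_cast; ring
    have c1 : co a r 1 = -((q 0 : ℝ) * a 0 0 + q 1 * a 1 0) := by
      rw [co1, hr0', hr1']; push_cast; ring
    obtain ⟨k00, k11, k01, k10⟩ := hu1
    rw [fr_pq a b hpq, abs_mul] at k00 k11 k01 k10
    have m00 : |co b p 0| * |co a r 1| ≤ T := by rw [c1, abs_neg]; exact k00
    have m11 : |co b p 1| * |co a r 0| ≤ T := by rw [c0]; exact k11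
    have m01 : |co b p 0| * |co a r 0| ≤ w * T := by rw [c0]; exact k01
    have m10 : |co b p 1| * |co a r 1| ≤ w * T := by rw [c1, abs_neg]; exact k10
    -- the new matrix
    have fin : ∀ r' p' : Fin 2 → ℤ, |co b r' 0| * |co a p' 1| ≤ 6 * R ^ 2 * (V * T) →
        |co b r' 1| * |co a p' 0| ≤ 6 * R ^ 2 * (V * T) → |co b r' 0| * |co a p' 0| ≤ 6 * R ^ 2 * (V * (w * T)) →
        |co b r' 1| * |co a p' 1| ≤ 6 * R ^ 2 * (V * (w * T)) →
        co b p 0 * co b r' 1 - co b p 1 * co b r' 0 ≠ 0 → co a r 0 * co a p' 1 - co a r 1 * co a p' 0 ≠ 0 →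
        ∃ u' : MZ, u'.det ≠ 0 ∧ u' ∈ Bx w (20 * R ^ 2 * V * T) a b := by
      intro r' p' n00 n11 n01 n10 hne1 hne2
      obtain ⟨q', hq'⟩ : ∃ q' : Fin 2 → ℤ, q' = ![-p' 1, p' 0] := ⟨_, rfl⟩
      have hq'0 : q' 0 = -p' 1 := by rw [hq']; rfl
      have hq'1 : q' 1 = p' 0 := by rw [hq']; rfl
      obtain ⟨u2, hu2⟩ : ∃ u2 : MZ, u2 = Matrix.of (fun i j => r' i * q' j) := ⟨_, rfl⟩
      have hu2' : ∀ i j, u2 i j = r' i * q' j := by
        intro i j; rw [hu2]; rfl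
      have hfr : ∀ i j, fr a b (u + u2) i j = fr a b u i j + fr a b u2 i j := by
        intro i j
        simp only [fr, toR, Matrix.mul_apply, Fin.sum_univ_two, Matrix.map_apply, Matrix.add_apply, Int.cast_add]
        ring
      have d1 : ((q' 0 : ℤ) : ℝ) * a 0 0 + q' 1 * a 1 0 = -co a p' 1 := by
        rw [co1, hq'0, hq'1]; push_cast; ring
      have d2 : ((q' 0 : ℤ) : ℝ) * a 0 1 + q' 1 * a 1 1 = co a p' 0 := by
        rw [co0, hq'0, hq'1]; push_cast; ring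
      have f00 : fr a b u2 0 0 = co b r' 0 * -co a p' 1 := by rw [fr_pq a b hu2', d1]
      have f11 : fr a b u2 1 1 = co b r' 1 * co a p' 0 := by rw [fr_pq a b hu2', d2]
      have f01 : fr a b u2 0 1 = co b r' 0 * co a p' 0 := by rw [fr_pq a b hu2', d2]
      have f10 : fr a b u2 1 0 = co b r' 1 * -co a p' 1 := by rw [fr_pq a b hu2', d1]
      refine ⟨u + u2, ?_, ?_⟩
      · have hdet : (u + u2).det = (p 0 * r' 1 - p 1 * r' 0) * (q 0 * q' 1 - q 1 * q' 0) := by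
          rw [Matrix.det_fin_two]
          simp only [Matrix.add_apply, hpq, hu2']
          ring
        rw [hdet]
        have hda : a 0 0 * a 1 1 - a 0 1 * a 1 0 = 1 := by rw [← Matrix.det_fin_two]; exact ha.1
        have hdb : b 0 0 * b 1 1 - b 0 1 * b 1 0 = 1 := by rw [← Matrix.det_fin_two]; exact hb.1
        refine mul_ne_zero ?_ ?_
        · intro h
          apply hne1
          have h' : ((p 0 : ℝ) * r' 1 - p 1 * r' 0) = 0 := by exact_mod_cast h
          rw [co0, co1, co0, co1]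
          linear_combination (b 0 0 * b 1 1 - b 0 1 * b 1 0) * h'
        · intro h
          apply hne2
          rw [hq'0, hq'1] at h
          have h' : ((q 0 : ℝ) * p' 0 - q 1 * (-p' 1)) = 0 := by exact_mod_cast h
          rw [co0, co1, co0, co1, hr0', hr1']
          push_cast
          linear_combination (a 0 0 * a 1 1 - a 0 1 * a 1 0) * h'
      · have b00 : |fr a b u 0 0| ≤ T := by rw [fr_pq a b hpq, abs_mul]; exact k00
        have b11 : |fr a b u 1 1| ≤ T := by rw [fr_pq a b hpq, abs_mul]; exact k11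
        have b01 : |fr a b u 0 1| ≤ w * T := by rw [fr_pq a b hpq, abs_mul]; exact k01
        have b10 : |fr a b u 1 0| ≤ w * T := by rw [fr_pq a b hpq, abs_mul]; exact k10
        have e1 := hsum T hT0
        have e2 := hsum (w * T) (mul_nonneg hw.le hT0)
        have e3 : w * (20 * R ^ 2 * V * T) = 20 * R ^ 2 * V * (w * T) := by ring
        refine ⟨?_, ?_, ?_, ?_⟩
        · rw [hfr, f00]
          refine (abs_add_le _ _).trans ?_
          rw [abs_mul, abs_neg]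
          linarith
        · rw [hfr, f11]
          refine (abs_add_le _ _).trans ?_
          rw [abs_mul]
          linarith
        · rw [hfr, f01, e3]
          refine (abs_add_le _ _).trans ?_
          rw [abs_mul]
          linarith
        · rw [hfr, f10, e3]
          refine (abs_add_le _ _).trans ?_
          rw [abs_mul, abs_neg]
          linarith
    rcases le_total |co b p 1| |co b p 0| with hle | hle
    · obtain ⟨r', p', n1, n2, n3, n4, n5, n6⟩ := core hR hδ hw hn hwδ hT ha hb hty 0 hp0 hr0 m01 m10 m00 hle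
      rw [← hV] at n1 n2 n3 n4
      exact fin r' p' n2 n1 n3 n4 n5 (fun h => n6 (by
        have h' : co a r 1 * co a p' 0 - co a r 0 * co a p' 1 = 0 := by linarith
        exact h'))
    · obtain ⟨r', p', n1, n2, n3, n4, n5, n6⟩ := core hR hδ hw hn hwδ hT ha hb hty 1 hp0 hr0 m10 m01 m11 hle
      rw [← hV] at n1 n2 n3 n4
      exact fin r' p' n1 n2 n4 n3 (fun h => n5 (by
        have h' : co b p 1 * co b r' 0 - co b p 0 * co b r' 1 = 0 := by linarith
        exact h')) n6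
  · refine ⟨u, hd, Bx_mono hw.le ?_ hu1⟩
    rw [← hV]
    have := hsum T hT0
    have h2 : 0 ≤ 6 * R ^ 2 * (V * T) := by positivity
    linarith

end HSB
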